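import Pool.Agent.Lib.MP_e87f44_co.Basic

set_option autoImplicit false

namespace Pool.Agent.Lib.RT

open MvPolynomial Finset

variable {k : ℕ}

/-- the ideal `(e_{n+1}, e_{n+2}, ...)` -/
noncomputable def aI (k n : ℕ) : Ideal (MvPolynomial (Fin k) ℚ) :=
  Ideal.span (Set.range fun i : ℕ => es (univ : Finset (Fin k)) (n + 1 + i))

lemma es_mem_aI {n q : ℕ} (h : n < q) : es (univ : Finset (Fin k)) q ∈ aI k n := by
  obtain ⟨i, rfl⟩ : ∃ i, q = n + 1 + i := ⟨q - (n + 1), by omega⟩
  exact Ideal.subset_span ⟨i, rfl⟩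

lemma aI_mono {n n' : ℕ} (h : n ≤ n') : aI k n' ≤ aI k n := by
  refine Ideal.span_le.2 ?_
  rintro _ ⟨i, rfl⟩
  exact es_mem_aI (by omega)

/-- `τ n i = ∑ x_t^{i+1} e_n(x without x_t)` -/
noncomputable def tau (k n i : ℕ) : MvPolynomial (Fin k) ℚ :=
  ∑ t : Fin k, X t ^ (i + 1) * es (univ.erase t) n

lemma X_mul_es_erase (t : Fin k) (n : ℕ) :
    X t * es (univ.erase t) n = es univ (n + 1) - es (univ.erase t) (n + 1) := by
  rw [es_succ univ (Finset.mem_univ t)]
  ring

lemma tau_zero (n : ℕ) : tau k n 0 = C ((n : ℚ) + 1) * es univ (n + 1) := by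
  have h4 := sum_es_erase (univ : Finset (Fin k)) (n + 1)
  rw [Finset.card_univ, Fintype.card_fin] at h4
  unfold tau
  simp only [zero_add, pow_one, X_mul_es_erase]
  rw [Finset.sum_sub_distrib, h4, Finset.sum_const, Finset.card_univ, Fintype.card_fin,
    nsmul_eq_mul, ← sub_mul]
  congr 1
  push_cast
  simp only [map_sub, map_add, map_natCast, map_one]
  ring

lemma tau_succ (n i : ℕ) :
    tau k n (i + 1) = (∑ t : Fin k, X t ^ (i + 1)) * es univ (n + 1) - tau k (n + 1) i := by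
  unfold tau
  rw [Finset.sum_mul, ← Finset.sum_sub_distrib]
  refine Finset.sum_congr rfl fun t _ => ?_
  rw [pow_succ, mul_assoc, X_mul_es_erase]
  ring

lemma tau_mem (n i : ℕ) : tau k n i ∈ aI k n := by
  induction i generalizing n with
  | zero =>
    rw [tau_zero]
    exact Ideal.mul_mem_left _ _ (es_mem_aI (by omega))
  | succ i ih =>
    rw [tau_succ]
    exact Ideal.sub_mem _ (Ideal.mul_mem_left _ _ (es_mem_aI (by omega)))
      (aI_mono (by omega) (ih (n + 1)))

/-- trace-like sum -/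
noncomputable def tr (n : ℕ) (B : Polynomial (MvPolynomial (Fin k) ℚ)) : MvPolynomial (Fin k) ℚ :=
  ∑ t : Fin k, X t * es (univ.erase t) n * B.eval (X t)

lemma tr_eq (n : ℕ) (B : Polynomial (MvPolynomial (Fin k) ℚ)) :
    tr n B = B.sum fun i b => b * tau k n i := by
  unfold tr tau Polynomial.sum
  simp_rw [Polynomial.eval_eq_sum, Polynomial.sum, Finset.mul_sum]
  rw [Finset.sum_comm]
  refine Finset.sum_congr rfl fun i _ => Finset.sum_congr rfl fun t _ => ?_
  ring

lemma tr_mem (n : ℕ) (B : Polynomial (MvPolynomial (Fin k) ℚ)) : tr n B ∈ aI k n := by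
  rw [tr_eq]
  exact Ideal.sum_mem _ fun i _ => Ideal.mul_mem_left _ _ (tau_mem n i)

/-- the polynomial `B_n(y)` with `B_n(x_t) = e_n(x without x_t)` -/
noncomputable def Bp (k : ℕ) : ℕ → Polynomial (MvPolynomial (Fin k) ℚ)
  | 0 => 1
  | n + 1 => Polynomial.C (es univ (n + 1)) - Polynomial.X * Bp k n

lemma Bp_eval (n : ℕ) (t : Fin k) : (Bp k n).eval (X t) = es (univ.erase t) n := by
  induction n with
  | zero => simp [Bp]
  | succ n ih =>
    rw [Bp, Polynomial.eval_sub, Polynomial.eval_mul, Polynomial.eval_C, Polynomial.eval_X, ih,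
      X_mul_es_erase]
    ring

lemma Bp_natDegree (n : ℕ) : (Bp k n).natDegree ≤ n := by
  induction n with
  | zero => simp [Bp]
  | succ n ih =>
    rw [Bp]
    refine (Polynomial.natDegree_sub_le _ _).trans (max_le ?_ ?_)
    · rw [Polynomial.natDegree_C]
      exact Nat.zero_le _
    · refine Polynomial.natDegree_mul_le.trans ?_
      have := Polynomial.natDegree_X_le (R := MvPolynomial (Fin k) ℚ)
      omega

lemma Bp_degree (n : ℕ) : (Bp k n).degree < (n + 1 : ℕ) := by
  refine lt_of_le_of_lt Polynomial.degree_le_natDegree ?_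
  have := Bp_natDegree (k := k) n
  exact_mod_cast Nat.lt_succ_of_le this

lemma D_mem (a n : ℕ) {g : MvPolynomial (Fin k) ℚ} (hg : g ∈ aI k n) : D a g ∈ aI k n := by
  refine Submodule.span_induction ?_ ?_ ?_ ?_ hg
  · rintro _ ⟨i, rfl⟩
    have h : D a (es (univ : Finset (Fin k)) (n + 1 + i)) = tr (n + i) (Bp k a) := by
      rw [D_apply]
      unfold tr
      refine Finset.sum_congr rfl fun t _ => ?_
      rw [show n + 1 + i = (n + i) + 1 by ring, pderiv_es (Finset.mem_univ t), Bp_eval]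
      ring
    rw [h]
    exact aI_mono (by omega) (tr_mem _ _)
  · rw [map_zero]
    exact Ideal.zero_mem _
  · intro x y _ _ hx hy
    rw [map_add]
    exact Ideal.add_mem _ hx hy
  · intro c x hx' hx
    rw [smul_eq_mul, Derivation.leibniz]
    refine Ideal.add_mem _ ?_ ?_
    · exact Ideal.mul_mem_left _ _ hx
    · rw [smul_eq_mul]
      exact Ideal.mul_mem_right _ _ hx'

/-- polynomials `g` with `∂_t g = Q(x_t)` for one polynomial `Q` of degree `< m` -/
def GG (k m : ℕ) : Subalgebra ℚ (MvPolynomial (Fin k) ℚ) where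
  carrier := {g | ∃ Q : Polynomial (MvPolynomial (Fin k) ℚ), Q.degree < (m : WithBot ℕ) ∧
    ∀ t, pderiv t g = Q.eval (X t)}
  mul_mem' := by
    rintro a b ⟨Q, hQ, hQ'⟩ ⟨R, hR, hR'⟩
    refine ⟨Polynomial.C a * R + Polynomial.C b * Q, ?_, ?_⟩
    · refine lt_of_le_of_lt (Polynomial.degree_add_le _ _) (max_lt ?_ ?_)
      · refine lt_of_le_of_lt (Polynomial.degree_mul_le _ _) ?_
        refine lt_of_le_of_lt (add_le_add_left Polynomial.degree_C_le _) ?_
        rwa [zero_add]
      · refine lt_of_le_of_lt (Polynomial.degree_mul_le _ _) ?_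
        refine lt_of_le_of_lt (add_le_add_left Polynomial.degree_C_le _) ?_
        rwa [zero_add]
    · intro t
      rw [Derivation.leibniz, hQ', hR']
      simp
  add_mem' := by
    rintro a b ⟨Q, hQ, hQ'⟩ ⟨R, hR, hR'⟩
    refine ⟨Q + R, ?_, ?_⟩
    · exact lt_of_le_of_lt (Polynomial.degree_add_le _ _) (max_lt hQ hR)
    · intro t
      rw [map_add, hQ', hR', Polynomial.eval_add]
  algebraMap_mem' := by
    intro r
    refine ⟨0, ?_, ?_⟩
    · rw [Polynomial.degree_zero]
      exact WithBot.bot_lt_coe _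
    · intro t
      rw [Derivation.map_algebraMap, Polynomial.eval_zero]

lemma mem_GG {m : ℕ} {g : MvPolynomial (Fin k) ℚ} : g ∈ GG k m ↔
    ∃ Q : Polynomial (MvPolynomial (Fin k) ℚ), Q.degree < (m : WithBot ℕ) ∧
    ∀ t, pderiv t g = Q.eval (X t) := Iff.rfl

lemma GG_mono {m m' : ℕ} (h : m ≤ m') : GG k m ≤ GG k m' := by
  rintro g ⟨Q, hQ, hQ'⟩
  exact ⟨Q, lt_of_lt_of_le hQ (by exact_mod_cast h), hQ'⟩

lemma es_mem_GG (n : ℕ) : es (univ : Finset (Fin k)) n ∈ GG k n := by
  cases n with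
  | zero =>
    rw [es_zero]
    exact Subalgebra.one_mem _
  | succ n =>
    refine ⟨Bp k n, Bp_degree n, fun t => ?_⟩
    rw [pderiv_es (Finset.mem_univ t), Bp_eval]

end Pool.Agent.Lib.RT
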