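import Pool.Agent.Lib.MP_e87f44_co.CoreB

set_option autoImplicit false

namespace Pool.Agent.Lib.RT

open Finset Polynomial

section general

variable {S : Type*} [CommRing S] {k : ℕ}

/-- `B(y) = 1 + ∑ b_j y^{j+1}` -/
noncomputable def Bser (b : Fin k → S) : S[X] := 1 + ∑ j, C (b j) * X ^ (j.val + 1)

/-- `y^k B(-1/y)` -/
noncomputable def Pi (b : Fin k → S) : S[X] :=
  X ^ k + ∑ j : Fin k, C ((-1) ^ (j.val + 1) * b j) * X ^ (k - (j.val + 1))

lemma Pi_aux (b : Fin k → S) :
    (∑ j : Fin k, C ((-1) ^ (j.val + 1) * b j) * X ^ (k - (j.val + 1))).degree < (k : WithBot ℕ) := by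
  rw [degree_lt_iff_coeff_zero]
  intro m hm
  rw [finsetSum_coeff]
  refine Finset.sum_eq_zero fun j _ => ?_
  have := j.isLt
  rw [coeff_C_mul_X_pow, if_neg (by omega)]

lemma Pi_monic (b : Fin k → S) : (Pi b).Monic := monic_X_pow_add (Pi_aux b)

lemma Pi_natDegree [Nontrivial S] (b : Fin k → S) : (Pi b).natDegree = k :=
  (natDegree_add_eq_left_of_degree_lt (by rw [degree_X_pow]; exact Pi_aux b)).trans (natDegree_X_pow k)

lemma Pi_natDegree_le (b : Fin k → S) : (Pi b).natDegree ≤ k := by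
  nontriviality S
  exact (Pi_natDegree b).le

lemma Bser_natDegree_le (b : Fin k → S) : (Bser b).natDegree ≤ k := by
  unfold Bser
  refine (natDegree_add_le _ _).trans (max_le (by simp) ?_)
  refine natDegree_sum_le_of_forall_le _ _ fun j _ => ?_
  refine (natDegree_C_mul_X_pow_le _ _).trans ?_
  have := j.isLt
  omega

lemma Bser_comp (b : Fin k → S) :
    (Bser b).comp (-X) = 1 + ∑ j : Fin k, C ((-1) ^ (j.val + 1) * b j) * X ^ (j.val + 1) := by
  unfold Bser
  rw [add_comp, one_comp, Polynomial.sum_comp]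
  congr 1
  refine Finset.sum_congr rfl fun j _ => ?_
  rw [mul_comp, C_comp, pow_comp, X_comp, neg_pow, map_mul, map_pow, map_neg, map_one]
  ring

lemma reflect_sum {ι : Type*} (s : Finset ι) (f : ι → S[X]) (N : ℕ) :
    reflect N (∑ i ∈ s, f i) = ∑ i ∈ s, reflect N (f i) := by
  ext n
  rw [coeff_reflect, finsetSum_coeff, finsetSum_coeff]
  exact Finset.sum_congr rfl fun i _ => (coeff_reflect _ _ _).symm

lemma reflect_Bser (b : Fin k → S) : reflect k ((Bser b).comp (-X)) = Pi b := by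
  rw [Bser_comp, reflect_add, reflect_one, reflect_sum]
  unfold Pi
  congr 1
  refine Finset.sum_congr rfl fun j _ => ?_
  rw [reflect_C_mul_X_pow, revAt_le (by have := j.isLt; omega)]

lemma comp_neg_natDegree_le (p : S[X]) : (p.comp (-X)).natDegree ≤ p.natDegree := by
  refine natDegree_comp_le.trans ?_
  have : (-X : S[X]).natDegree ≤ 1 := by
    rw [natDegree_neg]
    exact natDegree_X_le
  calc p.natDegree * (-X : S[X]).natDegree ≤ p.natDegree * 1 := Nat.mul_le_mul_left _ this
    _ = _ := mul_one _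

lemma comp_neg_comp_neg (p : S[X]) : (p.comp (-X)).comp (-X) = p := by
  rw [comp_assoc]
  simp

lemma reflect_natDegree_le (p : S[X]) {N : ℕ} (h : p.natDegree ≤ N) : (reflect N p).natDegree ≤ N := by
  rw [natDegree_le_iff_coeff_eq_zero]
  intro n hn
  rw [coeff_reflect, revAt_eq_self_of_lt hn]
  exact coeff_eq_zero_of_natDegree_lt (by omega)

lemma dvd_of_inv {ℓ : ℕ} (b : Fin k → S) (F : S[X]) (hF : F.natDegree ≤ ℓ) (h : F * Bser b = 1) :
    Pi b ∣ X ^ (ℓ + k) := by
  have h1 : (F.comp (-X)) * (Bser b).comp (-X) = 1 := by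
    rw [← mul_comp, h, one_comp]
  have h2 := congrArg (reflect (ℓ + k)) h1
  rw [reflect_mul _ _ ((comp_neg_natDegree_le F).trans hF)
    ((comp_neg_natDegree_le _).trans (Bser_natDegree_le b)), reflect_Bser, reflect_one] at h2
  exact ⟨_, by rw [← h2, mul_comm]⟩

lemma inv_of_dvd {ℓ : ℕ} (b : Fin k → S) (q : S[X]) (hq : q.natDegree ≤ ℓ)
    (h : q * Pi b = X ^ (ℓ + k)) : ∃ F : S[X], F.natDegree ≤ ℓ ∧ F * Bser b = 1 := by
  refine ⟨(reflect ℓ q).comp (-X), (comp_neg_natDegree_le _).trans (reflect_natDegree_le q hq), ?_⟩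
  have h2 := congrArg (reflect (ℓ + k)) h
  rw [reflect_mul _ _ hq (Pi_natDegree_le b), ← reflect_Bser, reflect_reflect, reflect_monomial,
    revAt_le le_rfl, Nat.sub_self, pow_zero] at h2
  have h3 := congrArg (fun p => p.comp (-X)) h2
  simp only [mul_comp, one_comp, comp_neg_comp_neg] at h3
  exact h3

lemma Pi_map {T : Type*} [CommRing T] (g : S →+* T) (b : Fin k → S) :
    (Pi b).map g = Pi (fun j => g (b j)) := by
  unfold Pi
  rw [Polynomial.map_add, Polynomial.map_pow, map_X, Polynomial.map_sum]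
  congr 1
  refine Finset.sum_congr rfl fun j _ => ?_
  rw [Polynomial.map_mul, map_C, Polynomial.map_pow, map_X, map_mul, map_pow, map_neg, map_one]

end general

end Pool.Agent.Lib.RT
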