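import Pool.Agent.Lib.MP_e87f44_co.AltA

set_option autoImplicit false

namespace Pool.Agent.Lib.RT

open Finset Polynomial

section

variable {k : ℕ}

lemma Pi_sum_aux (t : Fin k) (n : ℕ) :
    (MvPolynomial.X t : MvPolynomial (Fin k) ℚ) ^ n + ∑ j ∈ range n, (-1) ^ (j + 1) *
      es univ (j + 1) * MvPolynomial.X t ^ (n - (j + 1)) = (-1) ^ n * es (univ.erase t) n := by
  induction n with
  | zero => simp
  | succ n ih =>
    have h1 : ∑ j ∈ range n, (-1) ^ (j + 1) * es univ (j + 1) *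
        (MvPolynomial.X t : MvPolynomial (Fin k) ℚ) ^ (n + 1 - (j + 1))
        = MvPolynomial.X t * ∑ j ∈ range n, (-1) ^ (j + 1) * es univ (j + 1) *
          MvPolynomial.X t ^ (n - (j + 1)) := by
      rw [Finset.mul_sum]
      refine Finset.sum_congr rfl fun j hj => ?_
      have h2 : n + 1 - (j + 1) = n - (j + 1) + 1 := by
        have := Finset.mem_range.mp hj
        omega
      rw [h2, pow_succ]
      ring
    rw [Finset.sum_range_succ, h1, Nat.sub_self, pow_zero]
    have h3 := X_mul_es_erase (k := k) t n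
    linear_combination (MvPolynomial.X t) * ih + (-1) ^ n * h3

lemma Pi_eval (t : Fin k) :
    (Pi (fun j : Fin k => es (univ : Finset (Fin k)) (j.val + 1))).eval (MvPolynomial.X t) = 0 := by
  unfold Pi
  rw [eval_add, eval_pow, eval_X, eval_finsetSum]
  have h1 := Pi_sum_aux t k
  rw [es_eq_zero, mul_zero, Finset.sum_range] at h1
  · rw [← h1]
    congr 1
    refine Finset.sum_congr rfl fun j _ => ?_
    rw [eval_mul, eval_C, eval_pow, eval_X]
  · rw [Finset.card_erase_of_mem (Finset.mem_univ t), Finset.card_univ, Fintype.card_fin]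
    have := t.isLt
    omega

/-- coefficients of the remainder of `y^c` -/
noncomputable def rT (k c b : ℕ) : MvPolynomial (Fin k) ℚ :=
  ((X ^ c : (MvPolynomial (Fin k) ℚ)[X]) %ₘ Pi (MvPolynomial.X : Fin k → MvPolynomial (Fin k) ℚ)).coeff b

lemma rT_map {S : Type*} [CommRing S] (g : MvPolynomial (Fin k) ℚ →+* S) (c b : ℕ) :
    g (rT k c b) = ((X ^ c : S[X]) %ₘ Pi (fun j : Fin k => g (MvPolynomial.X j))).coeff b := by
  unfold rT
  rw [← coeff_map, map_modByMonic _ (Pi_monic _), Pi_map, Polynomial.map_pow, map_X]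

lemma Pi_ne_one {S : Type*} [CommRing S] [Nontrivial S] (hk : 0 < k) (b : Fin k → S) : Pi b ≠ 1 := by
  intro h
  have := Pi_natDegree b
  rw [h, natDegree_one] at this
  omega

lemma X_pow_eq_sum (hk : 0 < k) (c : ℕ) (t : Fin k) :
    (MvPolynomial.X t : MvPolynomial (Fin k) ℚ) ^ c
      = ∑ b : Fin k, eps k (rT k c b.val) * MvPolynomial.X t ^ b.val := by
  have h1 : ∀ b : ℕ, eps k (rT k c b) = ((X ^ c : (MvPolynomial (Fin k) ℚ)[X]) %ₘ
      Pi (fun j : Fin k => es (univ : Finset (Fin k)) (j.val + 1))).coeff b := by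
    intro b
    have h2 := rT_map (k := k) (eps k).toRingHom c b
    have h3 : (fun j : Fin k => (eps k).toRingHom (MvPolynomial.X j))
        = fun j : Fin k => es (univ : Finset (Fin k)) (j.val + 1) := by
      funext j
      exact MvPolynomial.aeval_X _ _
    rw [h3] at h2
    exact h2
  obtain ⟨Q, hQ⟩ : ∃ Q, Q = Pi (fun j : Fin k => es (univ : Finset (Fin k)) (j.val + 1)) := ⟨_, rfl⟩
  have h4 := congrArg (eval (MvPolynomial.X t : MvPolynomial (Fin k) ℚ))
    (modByMonic_add_div (X ^ c : (MvPolynomial (Fin k) ℚ)[X]) Q)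
  rw [eval_add, eval_mul, hQ, Pi_eval, zero_mul, add_zero, eval_pow, eval_X] at h4
  rw [← h4]
  have h5 := natDegree_modByMonic_lt (X ^ c : (MvPolynomial (Fin k) ℚ)[X])
    (Pi_monic (fun j : Fin k => es (univ : Finset (Fin k)) (j.val + 1))) (Pi_ne_one hk _)
  rw [Pi_natDegree] at h5
  rw [eval_eq_sum_range' h5, Finset.sum_range]
  exact Finset.sum_congr rfl fun b _ => by rw [h1]

/-- alternants are divisible by the Vandermonde product -/
lemma alt_eq (hk : 0 < k) (c : Fin k → ℕ) :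
    (Matrix.of fun b t : Fin k => (MvPolynomial.X t : MvPolynomial (Fin k) ℚ) ^ (c b)).det
      = vd k * eps k (Matrix.of fun b b' : Fin k => rT k (c b) b'.val).det := by
  rw [AlgHom.map_det, vd_eq, ← Matrix.det_transpose (Matrix.vandermonde _), mul_comm, ← Matrix.det_mul]
  congr 1
  ext1 b t
  rw [Matrix.mul_apply, Matrix.of_apply, X_pow_eq_sum hk]
  refine Finset.sum_congr rfl fun b' _ => ?_
  rw [Matrix.transpose_apply, Matrix.vandermonde_apply, AlgHom.mapMatrix_apply, Matrix.map_apply,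
    Matrix.of_apply]

lemma sign_sq (σ : Equiv.Perm (Fin k)) :
    ((Equiv.Perm.sign σ : ℤ) : ℚ) * ((Equiv.Perm.sign σ : ℤ) : ℚ) = 1 := by
  rcases Int.units_eq_one_or (Equiv.Perm.sign σ) with h | h <;> rw [h] <;> simp

/-- alternating polynomials -/
def IsAlt (F : MvPolynomial (Fin k) ℚ) : Prop :=
  ∀ e : Equiv.Perm (Fin k), MvPolynomial.rename e F = MvPolynomial.C ((Equiv.Perm.sign e : ℤ) : ℚ) * F

lemma IsAlt_mul_vd {f : MvPolynomial (Fin k) ℚ} (hf : f.IsSymmetric) : IsAlt (f * vd k) := by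
  intro e
  rw [map_mul, hf e, rename_vd, map_intCast]
  ring

lemma IsAlt.coeff_comp {F : MvPolynomial (Fin k) ℚ} (hF : IsAlt F) (e : Equiv.Perm (Fin k))
    (a a' : Fin k →₀ ℕ) (h : ∀ t, a' t = a (e t)) :
    MvPolynomial.coeff a' F = ((Equiv.Perm.sign e : ℤ) : ℚ) * MvPolynomial.coeff a F := by
  have h1 := MvPolynomial.coeff_rename_mapDomain e e.injective F a'
  have h2 : Finsupp.mapDomain e a' = a := by
    ext t
    rw [Finsupp.mapDomain_equiv_apply, h, Equiv.apply_symm_apply]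
  rw [h2, hF e, MvPolynomial.coeff_C_mul] at h1
  exact h1.symm

lemma IsAlt.coeff_eq_zero {F : MvPolynomial (Fin k) ℚ} (hF : IsAlt F) (a : Fin k →₀ ℕ) {i j : Fin k}
    (hij : i ≠ j) (h : a i = a j) : MvPolynomial.coeff a F = 0 := by
  have h1 := hF.coeff_comp (Equiv.swap i j) a a (by
    intro t
    by_cases h1 : t = i
    · rw [h1, Equiv.swap_apply_left, h]
    · by_cases h2 : t = j
      · rw [h2, Equiv.swap_apply_right, h]
      · rw [Equiv.swap_apply_of_ne_of_ne h1 h2])
  rw [Equiv.Perm.sign_swap hij] at h1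
  have h2 : MvPolynomial.coeff a F = - MvPolynomial.coeff a F := by
    conv_lhs => rw [h1]
    simp
  linarith

lemma L_mul_alt {M : ℕ} {F : MvPolynomial (Fin k) ℚ} (hF : IsAlt F) (a : Fin k →₀ ℕ)
    (ha : ∀ t, a t ≤ M) :
    L k M (F * (Matrix.of fun b t : Fin k => (MvPolynomial.X t : MvPolynomial (Fin k) ℚ) ^ (M - a b)).det)
      = (Fintype.card (Equiv.Perm (Fin k)) : ℚ) * MvPolynomial.coeff a F := by
  classical
  rw [Matrix.det_apply', Finset.mul_sum, map_sum]
  have h1 : ∀ σ : Equiv.Perm (Fin k), L k M (F * (((Equiv.Perm.sign σ : ℤ) : MvPolynomial (Fin k) ℚ) *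
      ∏ t, (Matrix.of fun b t : Fin k => (MvPolynomial.X t : MvPolynomial (Fin k) ℚ) ^ (M - a b)) (σ t) t))
      = MvPolynomial.coeff a F := by
    intro σ
    have h2 : ∏ t, (Matrix.of fun b t : Fin k => (MvPolynomial.X t : MvPolynomial (Fin k) ℚ) ^ (M - a b)) (σ t) t
        = MvPolynomial.monomial (Finsupp.equivFunOnFinite.symm fun t => M - a (σ t)) 1 := by
      rw [MvPolynomial.monomial_eq, map_one, one_mul, Finsupp.prod_fintype _ _ (fun s => pow_zero _)]
      rfl
    have h3 : F * (((Equiv.Perm.sign σ : ℤ) : MvPolynomial (Fin k) ℚ) *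
        MvPolynomial.monomial (Finsupp.equivFunOnFinite.symm fun t => M - a (σ t)) 1)
        = MvPolynomial.C ((Equiv.Perm.sign σ : ℤ) : ℚ) *
          (F * MvPolynomial.monomial (Finsupp.equivFunOnFinite.symm fun t => M - a (σ t)) 1) := by
      rw [map_intCast]
      ring
    rw [h2, h3, L_C_mul, L_apply, MvPolynomial.coeff_mul_monomial', if_pos, mul_one,
      hF.coeff_comp σ a, ← mul_assoc, sign_sq, one_mul]
    · intro t
      rw [Finsupp.coe_tsub, Pi.sub_apply, cst_apply]
      have := ha (σ t)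
      show M - (M - a (σ t)) = _
      omega
    · intro t
      rw [cst_apply]
      exact Nat.sub_le _ _
  rw [Finset.sum_congr rfl fun σ _ => h1 σ, Finset.sum_const, Finset.card_univ, nsmul_eq_mul]

/-- **Core Lemma**. -/
theorem core {p m : ℕ} {f : MvPolynomial (Fin k) ℚ} (hfs : f.IsSymmetric) (hk : 0 < k)
    (hm : 1 ≤ m) (hf : f ∈ GG k m) (h0 : f * vd k ∈ Jd k (k + p))
    (h1 : ∀ a : Fin k →₀ ℕ, (∀ t, a t < k + p + 1) → (univ.filter fun t => a t < p).card < m →
      MvPolynomial.coeff a (f * vd k) = 0) : f * vd k ∈ Jd k (k + p + 1) := by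
  intro a ha
  have h2 := L_mul_alt (M := k + p) (IsAlt_mul_vd hfs) a (fun t => Nat.le_of_lt_succ (ha t))
  rw [alt_eq hk (fun b => k + p - a b)] at h2
  obtain ⟨g, hg⟩ : ∃ g, g = eps k (Matrix.of fun b b' : Fin k => rT k (k + p - a b) b'.val).det := ⟨_, rfl⟩
  have h3 := phi_zero hfs hk hm hf h0 h1 g
  rw [phi_apply] at h3
  have h4 : f * vd k * (vd k * g) = vd k ^ 2 * (f * g) := by ring
  rw [← hg, h4, h3] at h2
  rcases mul_eq_zero.mp h2.symm with h5 | h5
  · exfalso
    rw [Fintype.card_perm] at h5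
    exact Nat.factorial_ne_zero _ (by exact_mod_cast h5)
  · exact h5

end

end Pool.Agent.Lib.RT
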