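import Mathlib

set_option autoImplicit false

namespace Pool.Agent.Lib.RT

open MvPolynomial Finset

variable {k : ℕ}

/-- elementary symmetric polynomial of the variables in `σ` -/
noncomputable def es (σ : Finset (Fin k)) (n : ℕ) : MvPolynomial (Fin k) ℚ :=
  ∑ S ∈ σ.powersetCard n, ∏ i ∈ S, X i

lemma es_univ (n : ℕ) : es (univ : Finset (Fin k)) n = esymm (Fin k) ℚ n := rfl

@[simp] lemma es_zero (σ : Finset (Fin k)) : es σ 0 = 1 := by
  simp [es]

lemma es_eq_zero (σ : Finset (Fin k)) {n : ℕ} (h : σ.card < n) : es σ n = 0 := by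
  rw [es, Finset.powersetCard_eq_empty.2 h, Finset.sum_empty]

lemma es_succ (σ : Finset (Fin k)) {t : Fin k} (ht : t ∈ σ) (n : ℕ) :
    es σ (n + 1) = es (σ.erase t) (n + 1) + X t * es (σ.erase t) n := by
  classical
  conv_lhs => rw [← Finset.insert_erase ht]
  have hnot : t ∉ σ.erase t := Finset.notMem_erase t σ
  rw [es, Finset.powersetCard_succ_insert hnot, Finset.sum_union]
  · congr 1
    rw [Finset.sum_image]
    · rw [es, Finset.mul_sum]
      refine Finset.sum_congr rfl fun S hS => ?_
      rw [Finset.prod_insert]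
      intro h
      exact hnot ((Finset.mem_powersetCard.1 hS).1 h)
    · intro S hS S' hS' h
      have h1 : t ∉ S := fun h => hnot ((Finset.mem_powersetCard.1 hS).1 h)
      have h2 : t ∉ S' := fun h => hnot ((Finset.mem_powersetCard.1 hS').1 h)
      have := congrArg (fun A => Finset.erase A t) h
      simpa [Finset.erase_insert h1, Finset.erase_insert h2] using this
  · rw [Finset.disjoint_left]
    intro S hS hS'
    rw [Finset.mem_image] at hS'
    obtain ⟨S', -, rfl⟩ := hS'
    exact hnot ((Finset.mem_powersetCard.1 hS).1 (Finset.mem_insert_self _ _))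

lemma sum_es_erase (σ : Finset (Fin k)) (n : ℕ) :
    ∑ t ∈ σ, es (σ.erase t) n = C ((σ.card : ℚ) - n) * es σ n := by
  classical
  unfold es
  rw [Finset.sum_comm' (t' := σ.powersetCard n) (s' := fun S => σ \ S)]
  · rw [Finset.mul_sum]
    refine Finset.sum_congr rfl fun S hS => ?_
    rw [Finset.sum_const, Finset.card_sdiff_of_subset (Finset.mem_powersetCard.1 hS).1]
    have h1 := (Finset.mem_powersetCard.1 hS).2
    have h2 := Finset.card_le_card (Finset.mem_powersetCard.1 hS).1
    rw [h1] at h2 ⊢
    rw [nsmul_eq_mul]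
    congr 1
    rw [map_sub]
    push_cast [h2]
    simp
  · intro t S
    simp only [Finset.mem_powersetCard, Finset.mem_sdiff, Finset.subset_erase]
    tauto

lemma pderiv_es_of_notMem {σ : Finset (Fin k)} {t : Fin k} (ht : t ∉ σ) (n : ℕ) :
    pderiv t (es σ n) = 0 := by
  classical
  rw [es, map_sum]
  refine Finset.sum_eq_zero fun S hS => ?_
  have hS' : ∀ i ∈ S, pderiv t (X i : MvPolynomial (Fin k) ℚ) = 0 := by
    intro i hi
    refine pderiv_X_of_ne ?_
    rintro rfl
    exact ht ((Finset.mem_powersetCard.1 hS).1 hi)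
  clear hS
  induction S using Finset.induction_on with
  | empty => simp
  | insert a S ha ih =>
    rw [Finset.prod_insert ha, Derivation.leibniz, ih (fun i hi => hS' i (Finset.mem_insert_of_mem hi)),
      hS' a (Finset.mem_insert_self _ _)]
    simp

lemma pderiv_es {σ : Finset (Fin k)} {t : Fin k} (ht : t ∈ σ) (n : ℕ) :
    pderiv t (es σ (n + 1)) = es (σ.erase t) n := by
  rw [es_succ σ ht, map_add, pderiv_es_of_notMem (Finset.notMem_erase t σ), Derivation.leibniz,
    pderiv_es_of_notMem (Finset.notMem_erase t σ), pderiv_X_self]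
  simp

/-- the vector field `∑ x_t e_n(x without x_t) ∂_t` -/
noncomputable def D (n : ℕ) : Derivation ℚ (MvPolynomial (Fin k) ℚ) (MvPolynomial (Fin k) ℚ) :=
  ∑ t : Fin k, (X t * es (univ.erase t) n) • pderiv t

lemma D_apply (n : ℕ) (F : MvPolynomial (Fin k) ℚ) :
    D n F = ∑ t : Fin k, X t * es (univ.erase t) n * pderiv t F := by
  rw [D]
  rw [← Derivation.coeFnAddMonoidHom_apply, map_sum, Finset.sum_apply]
  rfl

lemma D_X (n : ℕ) (j : Fin k) : D n (X j) = X j * es (univ.erase j) n := by
  classical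
  rw [D_apply, Finset.sum_eq_single j]
  · simp
  · intro b _ hb
    rw [pderiv_X_of_ne hb.symm, mul_zero]
  · simp

lemma D_sub (n : ℕ) {i j : Fin k} (hij : i ≠ j) :
    D n (X j - X i) = es ((univ.erase i).erase j) n * (X j - X i) := by
  classical
  rw [map_sub, D_X, D_X]
  cases n with
  | zero => simp
  | succ n =>
    have h1 : i ∈ (univ : Finset (Fin k)).erase j := by simp [hij]
    have h2 : j ∈ (univ : Finset (Fin k)).erase i := by simp [hij.symm]
    rw [es_succ _ h1, es_succ _ h2, Finset.erase_right_comm (a := j) (b := i)]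
    ring

/-- the Vandermonde product -/
noncomputable def vd (k : ℕ) : MvPolynomial (Fin k) ℚ := ∏ i : Fin k, ∏ j ∈ Ioi i, (X j - X i)

lemma deriv_prod_of_eigen {ι : Type*} (d : Derivation ℚ (MvPolynomial (Fin k) ℚ) (MvPolynomial (Fin k) ℚ))
    (s : Finset ι) (f c : ι → MvPolynomial (Fin k) ℚ) (h : ∀ i ∈ s, d (f i) = c i * f i) :
    d (∏ i ∈ s, f i) = (∑ i ∈ s, c i) * ∏ i ∈ s, f i := by
  classical
  induction s using Finset.induction_on with
  | empty => simp
  | insert a s ha ih =>
    rw [Finset.prod_insert ha, Finset.sum_insert ha, Derivation.leibniz,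
      ih (fun i hi => h i (Finset.mem_insert_of_mem hi)), h a (Finset.mem_insert_self _ _)]
    simp only [smul_eq_mul]
    ring

lemma D_vd (n : ℕ) :
    D n (vd k) = (∑ i : Fin k, ∑ j ∈ Ioi i, es ((univ.erase i).erase j) n) * vd k := by
  rw [vd]
  apply deriv_prod_of_eigen
  intro i _
  apply deriv_prod_of_eigen
  intro j hj
  exact D_sub n (Finset.mem_Ioi.1 hj).ne

lemma sum_pairs (n : ℕ) :
    2 * ∑ i : Fin k, ∑ j ∈ Ioi i, es ((univ.erase i).erase j) n
      = C (((k : ℚ) - n) * ((k : ℚ) - n - 1)) * es univ n := by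
  classical
  have h1 : ∑ i : Fin k, ∑ j ∈ univ.erase i, es ((univ.erase i).erase j) n
      = C (((k : ℚ) - n) * ((k : ℚ) - n - 1)) * es univ n := by
    have : ∀ i : Fin k, ∑ j ∈ univ.erase i, es ((univ.erase i).erase j) n
        = C ((k : ℚ) - n - 1) * es (univ.erase i) n := by
      intro i
      rw [sum_es_erase]
      congr 2
      rw [Finset.card_erase_of_mem (Finset.mem_univ i), Finset.card_univ, Fintype.card_fin]
      have : 1 ≤ k := by have := i.2; omega
      push_cast [this]
      ring
    rw [Finset.sum_congr rfl fun i _ => this i, ← Finset.mul_sum, sum_es_erase, Finset.card_univ,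
      Fintype.card_fin, ← mul_assoc, ← map_mul, mul_comm ((k : ℚ) - n)]
  rw [← h1]
  have h2 : ∀ i : Fin k, ∑ j ∈ univ.erase i, es ((univ.erase i).erase j) n
      = ∑ j ∈ Ioi i, es ((univ.erase i).erase j) n + ∑ j ∈ Iio i, es ((univ.erase i).erase j) n := by
    intro i
    rw [← Finset.sum_union]
    · congr 1
      ext j
      simp only [mem_erase, mem_univ, and_true, mem_union, mem_Ioi, mem_Iio]
      rw [ne_comm, ne_iff_lt_or_gt]
    · rw [Finset.disjoint_left]
      intro j hj hj'
      simp only [mem_Ioi, mem_Iio] at hj hj'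
      exact absurd hj (not_lt.2 hj'.le)
  rw [Finset.sum_congr rfl fun i _ => h2 i, Finset.sum_add_distrib, two_mul]
  congr 1
  rw [Finset.sum_comm' (t' := univ) (s' := fun j => Iio j)]
  · refine Finset.sum_congr rfl fun i _ => Finset.sum_congr rfl fun j _ => ?_
    rw [Finset.erase_right_comm]
  · intro i j
    simp

/-- exponent vector with all entries `M` -/
noncomputable def cst (k M : ℕ) : Fin k →₀ ℕ := Finsupp.equivFunOnFinite.symm (fun _ => M)

@[simp] lemma cst_apply (M : ℕ) (t : Fin k) : cst k M t = M := rfl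

lemma coeff_X_mul_pderiv (t : Fin k) (s : Fin k →₀ ℕ) (F : MvPolynomial (Fin k) ℚ) :
    coeff s (X t * pderiv t F) = s t * coeff s F := by
  classical
  induction F using MvPolynomial.induction_on' with
  | monomial u a =>
    rw [pderiv_monomial, X, monomial_mul, coeff_monomial, coeff_monomial]
    by_cases h0 : u t = 0
    · rw [h0]
      by_cases hu : u = s
      · subst hu
        simp [h0]
      · rw [if_neg hu]
        simp
    · have : (Finsupp.single t 1 + (u - Finsupp.single t 1)) = u := by
        rw [add_tsub_cancel_of_le]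
        rw [Finsupp.single_le_iff]
        omega
      rw [this]
      by_cases hu : u = s
      · subst hu
        simp
        ring
      · rw [if_neg hu, if_neg hu]
        simp
  | add p q hp hq =>
    rw [map_add, mul_add, coeff_add, hp, hq, coeff_add]
    ring

/-- `L M F` is the coefficient of the monomial with all exponents `M` -/
noncomputable def L (k M : ℕ) : MvPolynomial (Fin k) ℚ →ₗ[ℚ] ℚ := lcoeff ℚ (cst k M)

lemma L_apply (M : ℕ) (F : MvPolynomial (Fin k) ℚ) : L k M F = coeff (cst k M) F := rfl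

lemma L_X_mul_pderiv (M : ℕ) (t : Fin k) (F : MvPolynomial (Fin k) ℚ) :
    L k M (X t * pderiv t F) = M * L k M F := by
  rw [L_apply, coeff_X_mul_pderiv, L_apply, cst_apply]

lemma L_C_mul (M : ℕ) (c : ℚ) (F : MvPolynomial (Fin k) ℚ) :
    L k M (C c * F) = c * L k M F := by
  rw [L_apply, coeff_C_mul, L_apply]

/-- the basic integration by parts identity -/
theorem R1 (p n : ℕ) (F : MvPolynomial (Fin k) ℚ) :
    L k (k + p) (vd k ^ 2 * D n F)
      = ((k : ℚ) - n) * (p + n + 1) * L k (k + p) (vd k ^ 2 * es univ n * F) := by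
  have hD2 : D n (vd k ^ 2) = C (((k : ℚ) - n) * ((k : ℚ) - n - 1)) * es univ n * vd k ^ 2 := by
    rw [← sum_pairs, pow_two, Derivation.leibniz, D_vd]
    simp only [smul_eq_mul]
    ring
  have key : ∀ t : Fin k, L k (k + p) (vd k ^ 2 * (X t * es (univ.erase t) n * pderiv t F))
      = (k + p) * L k (k + p) (vd k ^ 2 * es (univ.erase t) n * F)
        - L k (k + p) (F * (X t * es (univ.erase t) n * pderiv t (vd k ^ 2))) := by
    intro t
    have h := L_X_mul_pderiv (k + p) t (vd k ^ 2 * es (univ.erase t) n * F)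
    rw [Derivation.leibniz, Derivation.leibniz, pderiv_es_of_notMem (Finset.notMem_erase t univ)] at h
    simp only [smul_eq_mul, mul_zero, zero_add] at h
    push_cast at h
    rw [← h, ← map_sub]
    congr 1
    ring
  rw [D_apply, Finset.mul_sum, map_sum, Finset.sum_congr rfl fun t _ => key t,
    Finset.sum_sub_distrib, ← Finset.mul_sum, ← map_sum, ← map_sum, ← Finset.mul_sum, ← D_apply, hD2]
  have h3 : ∑ t : Fin k, vd k ^ 2 * es (univ.erase t) n * F
      = C ((k : ℚ) - n) * (vd k ^ 2 * es univ n * F) := by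
    have h4 := sum_es_erase (univ : Finset (Fin k)) n
    rw [Finset.card_univ, Fintype.card_fin] at h4
    rw [← Finset.sum_mul, ← Finset.mul_sum, h4]
    ring
  have h5 : F * (C (((k : ℚ) - n) * ((k : ℚ) - n - 1)) * es univ n * vd k ^ 2)
      = C (((k : ℚ) - n) * ((k : ℚ) - n - 1)) * (vd k ^ 2 * es univ n * F) := by ring
  rw [h3, h5, L_C_mul, L_C_mul]
  ring

end Pool.Agent.Lib.RT
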