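import Pool.Agent.Lib.MP_e87f44_co.Alg

set_option autoImplicit false

namespace Pool.Agent.Lib.RT

open MvPolynomial Finset

variable {k : ℕ}

lemma X_pow_eq (b : ℕ) : ∃ ρ : ℕ → MvPolynomial (Fin k) ℚ, ∀ t : Fin k,
    (X t : MvPolynomial (Fin k) ℚ) ^ b = ∑ a ∈ range (b + 1), ρ a * es (univ.erase t) a := by
  induction b with
  | zero => exact ⟨fun _ => 1, fun t => by simp⟩
  | succ b ih =>
    obtain ⟨ρ, hρ⟩ := ih
    refine ⟨fun a => match a with
      | 0 => ∑ c ∈ range (b + 1), ρ c * es univ (c + 1)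
      | a + 1 => - ρ a, fun t => ?_⟩
    rw [Finset.sum_range_succ', pow_succ, hρ t, Finset.sum_mul]
    simp only [es_zero, mul_one]
    rw [← Finset.sum_add_distrib]
    refine Finset.sum_congr rfl fun a _ => ?_
    rw [mul_assoc, mul_comm (es (univ.erase t) a), X_mul_es_erase]
    ring

lemma D_eq_tr {f : MvPolynomial (Fin k) ℚ} {Q : Polynomial (MvPolynomial (Fin k) ℚ)}
    (hf : ∀ t, pderiv t f = Q.eval (X t)) (a : ℕ) : D a f = tr a Q := by
  rw [D_apply]
  unfold tr
  exact Finset.sum_congr rfl fun t _ => by rw [hf]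

section

variable {p n : ℕ} {f : MvPolynomial (Fin k) ℚ} {Q : Polynomial (MvPolynomial (Fin k) ℚ)}
  (hf : ∀ t, pderiv t f = Q.eval (X t))
  (hφ : ∀ g ∈ aI k n, L k (k + p) (vd k ^ 2 * (f * g)) = 0)

include hf hφ

lemma star4 (a : ℕ) {g : MvPolynomial (Fin k) ℚ} (hg : g ∈ aI k n) :
    L k (k + p) (vd k ^ 2 * (tr a Q * g)) = 0 := by
  have h := R1 (k := k) p a (f * g)
  rw [Derivation.leibniz, D_eq_tr hf, smul_eq_mul, smul_eq_mul, mul_add, map_add,
    hφ _ (D_mem a n hg), zero_add, mul_comm g] at h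
  rw [h]
  have h2 : vd k ^ 2 * es univ a * (f * g) = vd k ^ 2 * (f * (es univ a * g)) := by ring
  rw [h2, hφ _ (Ideal.mul_mem_left _ _ hg), mul_zero]

lemma star4' (b : ℕ) {g : MvPolynomial (Fin k) ℚ} (hg : g ∈ aI k n) :
    L k (k + p) (vd k ^ 2 * ((∑ t : Fin k, X t ^ (b + 1) * Q.eval (X t)) * g)) = 0 := by
  obtain ⟨ρ, hρ⟩ := X_pow_eq (k := k) b
  have h : (∑ t : Fin k, X t ^ (b + 1) * Q.eval (X t)) * g
      = ∑ a ∈ range (b + 1), tr a Q * (ρ a * g) := by
    unfold tr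
    simp_rw [Finset.sum_mul]
    rw [Finset.sum_comm]
    refine Finset.sum_congr rfl fun t _ => ?_
    rw [pow_succ, hρ t]
    simp_rw [Finset.sum_mul]
    refine Finset.sum_congr rfl fun a _ => ?_
    ring
  rw [h, Finset.mul_sum, map_sum]
  exact Finset.sum_eq_zero fun a _ => star4 hf hφ a (Ideal.mul_mem_left _ _ hg)

lemma star4'' (A : Polynomial ℚ) {g : MvPolynomial (Fin k) ℚ} (hg : g ∈ aI k n) :
    L k (k + p) (vd k ^ 2 * ((∑ t : Fin k, X t * Polynomial.aeval (X t) A * Q.eval (X t)) * g)) = 0 := by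
  have h : (∑ t : Fin k, X t * Polynomial.aeval (X t) A * Q.eval (X t)) * g
      = ∑ b ∈ A.support, (∑ t : Fin k, X t ^ (b + 1) * Q.eval (X t)) * (C (A.coeff b) * g) := by
    simp_rw [Polynomial.aeval_def, Polynomial.eval₂_eq_sum, Polynomial.sum, Finset.mul_sum,
      Finset.sum_mul]
    rw [Finset.sum_comm]
    refine Finset.sum_congr rfl fun b _ => Finset.sum_congr rfl fun t _ => ?_
    rw [MvPolynomial.algebraMap_eq, pow_succ]
    ring
  rw [h, Finset.mul_sum, map_sum]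
  exact Finset.sum_eq_zero fun a _ => star4' hf hφ a (Ideal.mul_mem_left _ _ hg)


lemma star3 {g : MvPolynomial (Fin k) ℚ} {m' : ℕ} (hg : g ∈ GG k m') :
    L k (k + p) (vd k ^ 2 * (tr n Q * g))
      = ((k : ℚ) - n) * (p + n + 1) * L k (k + p) (vd k ^ 2 * (f * (es univ n * g))) := by
  obtain ⟨R, -, hR⟩ := hg
  have h := R1 (k := k) p n (f * g)
  have e1 : D n (f * g) = f * tr n R + tr n Q * g := by
    rw [Derivation.leibniz, D_eq_tr hf, D_eq_tr hR, smul_eq_mul, smul_eq_mul, mul_comm g]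
  have e2 : vd k ^ 2 * es univ n * (f * g) = vd k ^ 2 * (f * (es univ n * g)) := by ring
  rw [e1, e2, mul_add, map_add, hφ _ (tr_mem n R), zero_add] at h
  exact h

/-- the matrix of generalized power sums -/
noncomputable def Mx (k : ℕ) {r : ℕ} (A : Fin r → Polynomial ℚ) :
    Matrix (Fin r) (Fin r) (MvPolynomial (Fin k) ℚ) :=
  fun j i => ∑ t : Fin k, X t ^ ((i : ℕ) + 1) * Polynomial.aeval (X t) (A j)

theorem S2 (hn : n < k) {r : ℕ} (hQ : Q.degree < (r : WithBot ℕ)) (A : Fin r → Polynomial ℚ)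
    {g : MvPolynomial (Fin k) ℚ} {m' : ℕ} (hg : g * (Mx k A).det ∈ GG k m') :
    L k (k + p) (vd k ^ 2 * (f * (es univ n * (g * (Mx k A).det)))) = 0 := by
  have h3 := star3 hf hφ hg
  have hC : ((k : ℚ) - n) * (p + n + 1) ≠ 0 := by
    have h1 : (n : ℚ) < k := by exact_mod_cast hn
    have h2 : (0 : ℚ) ≤ p := Nat.cast_nonneg _
    have h3 : (0 : ℚ) ≤ n := Nat.cast_nonneg _
    have h4 : (k : ℚ) - n ≠ 0 := by linarith
    have h5 : (p : ℚ) + n + 1 ≠ 0 := by positivity
    exact mul_ne_zero h4 h5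
  have hQe : ∀ x : MvPolynomial (Fin k) ℚ, Q.eval x = ∑ i : Fin r, Q.coeff i * x ^ (i : ℕ) := by
    intro x
    rw [Polynomial.eval_eq_sum, Polynomial.sum_fin (fun i a => a * x ^ i) (by simp) hQ]
  have htr : tr n Q = ∑ i : Fin r, Q.coeff i * tau k n i := by
    rw [tr_eq, ← Polynomial.sum_fin (fun i b => b * tau k n i) (by simp) hQ]
  set q : Fin r → MvPolynomial (Fin k) ℚ := fun i => Q.coeff i with hq
  set w : Fin r → MvPolynomial (Fin k) ℚ := fun j =>
    ∑ t : Fin k, X t * Polynomial.aeval (X t) (A j) * Q.eval (X t) with hw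
  have hMq : (Mx k A).mulVec q = w := by
    ext1 j
    rw [Matrix.mulVec, dotProduct, hw]
    simp only [Mx, hq, hQe, Finset.mul_sum, Finset.sum_mul]
    rw [Finset.sum_comm]
    refine Finset.sum_congr rfl fun t _ => Finset.sum_congr rfl fun i _ => ?_
    rw [pow_succ]
    ring
  have hdet : ∀ i, (Mx k A).det * q i = ∑ j, (Mx k A).adjugate i j * w j := by
    intro i
    have h := congrFun (congrArg ((Mx k A).adjugate.mulVec) hMq) i
    rw [Matrix.mulVec_mulVec, Matrix.adjugate_mul, Matrix.smul_mulVec, Matrix.one_mulVec] at h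
    rw [Pi.smul_apply, smul_eq_mul] at h
    rw [h]
    rfl
  have h0 : L k (k + p) (vd k ^ 2 * (tr n Q * (g * (Mx k A).det))) = 0 := by
    have e : tr n Q * (g * (Mx k A).det)
        = ∑ i : Fin r, ∑ j : Fin r, w j * ((Mx k A).adjugate i j * g * tau k n i) := by
      rw [htr, Finset.sum_mul]
      refine Finset.sum_congr rfl fun i _ => ?_
      have := hdet i
      calc Q.coeff i * tau k n i * (g * (Mx k A).det)
          = ((Mx k A).det * q i) * (g * tau k n i) := by rw [hq]; ring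
        _ = _ := by
          rw [this, Finset.sum_mul]
          refine Finset.sum_congr rfl fun j _ => ?_
          ring
    rw [e, Finset.mul_sum, map_sum]
    refine Finset.sum_eq_zero fun i _ => ?_
    rw [Finset.mul_sum, map_sum]
    refine Finset.sum_eq_zero fun j _ => ?_
    exact star4'' hf hφ (A j) (Ideal.mul_mem_left _ _ (tau_mem n i))
  rw [h0] at h3
  rcases mul_eq_zero.1 h3.symm with h | h
  · exact absurd h hC
  · exact h

end

end Pool.Agent.Lib.RT
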