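import Pool.Agent.Lib.MP_e87f44_co.SThreeD
import Pool.Agent.Lib.MP_e87f44_co.STwo

set_option autoImplicit false

namespace Pool.Agent.Lib.RT

open Finset Polynomial

/-- from numerical evaluations to coefficients -/
lemma coef_extract {S : Type*} [CommRing S] [Algebra ℚ S] {ι : Type*} [Fintype ι] [DecidableEq ι]
    (F : ι → S[X]) (Λ : S →ₗ[ℚ] ℚ)
    (h : ∀ u : ι → ℚ, Λ (∏ i, (F i).eval (algebraMap ℚ S (u i))) = 0) (d : ι → ℕ) :
    Λ (∏ i, (F i).coeff (d i)) = 0 := by
  classical
  obtain ⟨B, hB⟩ : ∃ B, ∀ i, (F i).natDegree < B :=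
    ⟨∑ i, (F i).natDegree + 1, fun i => Nat.lt_succ_of_le
      (Finset.single_le_sum (f := fun i => (F i).natDegree) (fun _ _ => Nat.zero_le _)
        (Finset.mem_univ i))⟩
  by_cases hd : ∀ i, d i < B
  · have h1 : (∑ e ∈ Fintype.piFinset (fun _ : ι => range B),
        MvPolynomial.monomial (Finsupp.equivFunOnFinite.symm e) (Λ (∏ i, (F i).coeff (e i)))) = 0 := by
      apply MvPolynomial.funext
      intro u
      rw [map_zero, ← h u, Finset.prod_congr rfl fun i _ => eval_eq_sum_range' (hB i) _,
        Finset.prod_univ_sum, map_sum, map_sum]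
      refine Finset.sum_congr rfl fun e _ => ?_
      rw [MvPolynomial.eval_monomial, Finsupp.prod_fintype _ _ (fun s => pow_zero _),
        Finset.prod_mul_distrib, mul_comm]
      have h2 : ∏ i, algebraMap ℚ S (u i) ^ e i = algebraMap ℚ S (∏ i, u i ^ e i) := by
        rw [map_prod]
        exact Finset.prod_congr rfl fun i _ => (map_pow _ _ _).symm
      rw [h2, mul_comm (∏ i, (F i).coeff (e i)), ← Algebra.smul_def, map_smul, smul_eq_mul]
      rfl
    have h3 := congrArg (MvPolynomial.coeff (Finsupp.equivFunOnFinite.symm d)) h1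
    rw [MvPolynomial.coeff_sum, MvPolynomial.coeff_zero, Finset.sum_eq_single d] at h3
    · rwa [MvPolynomial.coeff_monomial, if_pos rfl] at h3
    · intro e _ he
      rw [MvPolynomial.coeff_monomial, if_neg]
      intro h4
      exact he (Finsupp.equivFunOnFinite.symm.injective h4)
    · intro h4
      exact absurd (Fintype.mem_piFinset.mpr fun i => Finset.mem_range.mpr (hd i)) h4
  · push Not at hd
    obtain ⟨i, hi⟩ := hd
    rw [Finset.prod_eq_zero (Finset.mem_univ i)
      (coeff_eq_zero_of_natDegree_lt ((hB i).trans_le hi)), map_zero]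

section

variable {k : ℕ}

/-- coefficients of a product of univariate polynomials in separate variables -/
lemma coeff_prod_aeval (F : Fin k → ℚ[X]) (c : Fin k →₀ ℕ) :
    MvPolynomial.coeff c (∏ t, aeval (MvPolynomial.X t : MvPolynomial (Fin k) ℚ) (F t))
      = ∏ t, (F t).coeff (c t) := by
  classical
  obtain ⟨B, hB⟩ : ∃ B, ∀ i, (F i).natDegree < B :=
    ⟨∑ i, (F i).natDegree + 1, fun i => Nat.lt_succ_of_le
      (Finset.single_le_sum (f := fun i => (F i).natDegree) (fun _ _ => Nat.zero_le _)
        (Finset.mem_univ i))⟩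
  rw [Finset.prod_congr rfl fun i _ => aeval_eq_sum_range' (hB i) _, Finset.prod_univ_sum,
    MvPolynomial.coeff_sum]
  have h1 : ∀ e : Fin k → ℕ, MvPolynomial.coeff c
      (∏ i, (F i).coeff (e i) • (MvPolynomial.X i : MvPolynomial (Fin k) ℚ) ^ (e i))
      = if e = ⇑c then ∏ i, (F i).coeff (e i) else 0 := by
    intro e
    have h2 : ∏ i, (F i).coeff (e i) • (MvPolynomial.X i : MvPolynomial (Fin k) ℚ) ^ (e i)
        = MvPolynomial.monomial (Finsupp.equivFunOnFinite.symm e) (∏ i, (F i).coeff (e i)) := by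
      rw [MvPolynomial.monomial_eq, Finsupp.prod_fintype _ _ (fun s => pow_zero _), map_prod,
        ← Finset.prod_mul_distrib]
      refine Finset.prod_congr rfl fun i _ => ?_
      rw [MvPolynomial.smul_eq_C_mul]
      rfl
    rw [h2, MvPolynomial.coeff_monomial]
    by_cases h : e = ⇑c
    · rw [if_pos h, if_pos]
      rw [h]
      exact Finsupp.equivFunOnFinite_symm_coe c
    · rw [if_neg h, if_neg]
      intro h2
      apply h
      rw [← h2]
      rfl
  rw [Finset.sum_congr rfl fun e _ => h1 e, Finset.sum_ite_eq']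
  split_ifs with h
  · rfl
  · rw [Fintype.mem_piFinset] at h
    push Not at h
    obtain ⟨i, hi⟩ := h
    rw [Finset.mem_range, not_lt] at hi
    exact (Finset.prod_eq_zero (Finset.mem_univ i)
      (coeff_eq_zero_of_natDegree_lt ((hB i).trans_le hi))).symm

lemma coeff_det_aeval (F : Fin k → ℚ[X]) (c : Fin k →₀ ℕ) :
    MvPolynomial.coeff c (Matrix.of fun b t : Fin k =>
        aeval (MvPolynomial.X t : MvPolynomial (Fin k) ℚ) (F b)).det
      = (Matrix.of fun b t : Fin k => (F b).coeff (c t)).det := by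
  rw [Matrix.det_apply', Matrix.det_apply', MvPolynomial.coeff_sum]
  refine Finset.sum_congr rfl fun σ _ => ?_
  simp only [Matrix.of_apply]
  rw [← coeff_prod_aeval (fun t => F (σ t)) c, ← MvPolynomial.coeff_C_mul]
  congr 2

/-- the Vandermonde product in terms of a unitriangular family of polynomials -/
lemma vd_eq_det (F : Fin k → ℚ[X]) (hdeg : ∀ b, (F b).natDegree < k)
    (h0 : ∀ b b' : Fin k, b' < b → (F b).coeff b' = 0) (h1 : ∀ b : Fin k, (F b).coeff b = 1) :
    (Matrix.of fun b t : Fin k => aeval (MvPolynomial.X t : MvPolynomial (Fin k) ℚ) (F b)).det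
      = vd k := by
  have h2 : (Matrix.of fun b t : Fin k => aeval (MvPolynomial.X t : MvPolynomial (Fin k) ℚ) (F b))
      = (Matrix.of fun b b' : Fin k => (MvPolynomial.C ((F b).coeff b') : MvPolynomial (Fin k) ℚ)) *
        (Matrix.vandermonde (MvPolynomial.X : Fin k → MvPolynomial (Fin k) ℚ)).transpose := by
    ext1 b t
    rw [Matrix.mul_apply, Matrix.of_apply, aeval_eq_sum_range' (hdeg b), Finset.sum_range]
    refine Finset.sum_congr rfl fun b' _ => ?_
    rw [Matrix.of_apply, Matrix.transpose_apply, Matrix.vandermonde_apply, MvPolynomial.smul_eq_C_mul]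
  rw [h2, Matrix.det_mul, Matrix.det_transpose, Matrix.det_vandermonde, Matrix.det_of_isUpperTriangular]
  · simp only [Matrix.of_apply, h1, map_one, Finset.prod_const_one, one_mul]
    rfl
  · intro b b' hbb
    rw [Matrix.of_apply, h0 b b' hbb, map_zero]

end

end Pool.Agent.Lib.RT
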