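import Pool.Agent.Lib.MP_e87f44_co.Sym

set_option autoImplicit false

namespace Pool.Agent.Lib.RT

open Finset

section

variable {k : ℕ}

/-- the functional `g ↦ L(Δ² f g)` -/
noncomputable def phi (k p : ℕ) (f : MvPolynomial (Fin k) ℚ) : MvPolynomial (Fin k) ℚ →ₗ[ℚ] ℚ :=
  (L k (k + p)) ∘ₗ (LinearMap.mulLeft ℚ (vd k ^ 2)) ∘ₗ (LinearMap.mulLeft ℚ f)

lemma phi_apply (p : ℕ) (f g : MvPolynomial (Fin k) ℚ) :
    phi k p f g = L k (k + p) (vd k ^ 2 * (f * g)) := rfl

lemma phi_Jd {p : ℕ} (f : MvPolynomial (Fin k) ℚ) {g : MvPolynomial (Fin k) ℚ}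
    (hg : g ∈ Jd k (k + p + 1)) : phi k p f g = 0 := by
  rw [phi_apply]
  exact L_Jd (Ideal.mul_mem_left _ _ (Ideal.mul_mem_left _ _ hg))

lemma HH_map {S T : Type*} [CommRing S] [CommRing T] (g : S →+* T) (M : ℕ) (z : Fin k → S) :
    HH M (fun t => g (z t)) = (HH M z).map g := by
  unfold HH
  rw [Polynomial.map_prod]
  refine Finset.prod_congr rfl fun t _ => ?_
  rw [Polynomial.map_sum]
  refine Finset.sum_congr rfl fun b _ => ?_
  rw [Polynomial.map_pow, Polynomial.map_mul, Polynomial.map_C, Polynomial.map_X]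

lemma EE_map {S T : Type*} [CommRing S] [CommRing T] (g : S →+* T) (z : Fin k → S) :
    EE (fun t => g (z t)) = (EE z).map g := by
  unfold EE
  rw [Polynomial.map_prod]
  refine Finset.prod_congr rfl fun t _ => ?_
  rw [Polynomial.map_add, Polynomial.map_one, Polynomial.map_mul, Polynomial.map_C, Polynomial.map_X]

/-- vanishing of `φ(e_n · (r complete) · (r elementary))` -/
def CR (k p : ℕ) (f : MvPolynomial (Fin k) ℚ) (n r : ℕ) : Prop :=
  ∀ α β : Fin r → ℕ, phi k p f (es univ n *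
    ((∏ i, (HH (k + p) (MvPolynomial.X : Fin k → MvPolynomial (Fin k) ℚ)).coeff (α i)) *
      ∏ j, (EE (MvPolynomial.X : Fin k → MvPolynomial (Fin k) ℚ)).coeff (β j))) = 0

lemma CR_base {p m : ℕ} {f : MvPolynomial (Fin k) ℚ} (hm : 1 ≤ m)
    (h1 : ∀ a : Fin k →₀ ℕ, (∀ t, a t < k + p + 1) → (univ.filter fun t => a t < p).card < m →
      MvPolynomial.coeff a (f * vd k) = 0) (n : ℕ) : CR k p f n (m - 1) := by
  classical
  intro α β
  have h2 : (es univ n * ((∏ i, (HH (k + p) (MvPolynomial.X : Fin k → MvPolynomial (Fin k) ℚ)).coeff (α i)) *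
      ∏ j, (EE (MvPolynomial.X : Fin k → MvPolynomial (Fin k) ℚ)).coeff (β j)))
      = ((∏ i, (HH (k + p) (MvPolynomial.X : Fin k → MvPolynomial (Fin k) ℚ)).coeff (α i)) *
      ∏ j : Fin (m - 1 + 1), (EE (MvPolynomial.X : Fin k → MvPolynomial (Fin k) ℚ)).coeff
        ((Fin.cons n β : Fin (m - 1 + 1) → ℕ) j)) := by
    rw [Fin.prod_univ_succ]
    simp only [Fin.cons_zero, Fin.cons_succ, EE_coeff]
    ring
  rw [h2]
  have h3 := MON (k := k) (k + p) (m - 1)
  obtain ⟨g, hg⟩ : ∃ g, g = ((∏ i, (HH (k + p) (MvPolynomial.X : Fin k → MvPolynomial (Fin k) ℚ)).coeff (α i)) *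
      ∏ j : Fin (m - 1 + 1), (EE (MvPolynomial.X : Fin k → MvPolynomial (Fin k) ℚ)).coeff
        ((Fin.cons n β : Fin (m - 1 + 1) → ℕ) j)) := ⟨_, rfl⟩
  rw [← hg, phi_apply]
  have h4 : vd k ^ 2 * (f * g) = (f * vd k) * (vd k * g) := by ring
  rw [h4, L_apply, MvPolynomial.coeff_mul]
  refine Finset.sum_eq_zero fun x hx => ?_
  rw [Finset.HasAntidiagonal.mem_antidiagonal] at hx
  have h5 : ∀ t, x.1 t + x.2 t = k + p := by
    intro t
    rw [← Finsupp.add_apply, hx, cst_apply]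
  by_cases hc : (univ.filter fun t => x.1 t < p).card < m
  · rw [h1 x.1 (fun t => by have := h5 t; omega) hc, zero_mul]
  · rw [hg, h3 x.2 (fun t => by have := h5 t; omega), mul_zero]
    have h6 : (univ.filter fun t => k + 1 ≤ x.2 t) = (univ.filter fun t => x.1 t < p) := by
      ext t
      simp only [Finset.mem_filter, Finset.mem_univ, true_and]
      have := h5 t
      omega
    rw [h6]
    omega

lemma CR_step {p n r : ℕ} {f : MvPolynomial (Fin k) ℚ} (hn : n < k) (hf : f ∈ GG k (r + 1))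
    (hφ : ∀ g ∈ aI k n, phi k p f g = 0) (h : CR k p f n r) : CR k p f n (r + 1) := by
  obtain ⟨Q, hQ, hfQ⟩ := hf
  obtain ⟨ψ, hψ⟩ := exists_desc (Jd k (k + p + 1)) ((phi k p f) ∘ₗ (LinearMap.mulLeft ℚ (es univ n)))
    (fun g hg => phi_Jd f (Ideal.mul_mem_left _ _ hg))
  have hψ' : ∀ g, ψ (Ideal.Quotient.mk (Jd k (k + p + 1)) g) = phi k p f (es univ n * g) := hψ
  obtain ⟨z, hz⟩ : ∃ z : Fin k → MvPolynomial (Fin k) ℚ ⧸ Jd k (k + p + 1),
    z = fun t => Ideal.Quotient.mk (Jd k (k + p + 1)) (MvPolynomial.X t) := ⟨_, rfl⟩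
  have hHH : HH (k + p) z = (HH (k + p) (MvPolynomial.X : Fin k → MvPolynomial (Fin k) ℚ)).map
      (Ideal.Quotient.mk (Jd k (k + p + 1))) := by
    rw [hz, HH_map]
  have hEE : EE z = (EE (MvPolynomial.X : Fin k → MvPolynomial (Fin k) ℚ)).map
      (Ideal.Quotient.mk (Jd k (k + p + 1))) := by
    rw [hz, EE_map]
  have hcf : ∀ d : Fin (r + 1) ⊕ Fin (r + 1) → ℕ, cf (k + p) z ψ d = phi k p f (es univ n *
    ((∏ i, (HH (k + p) (MvPolynomial.X : Fin k → MvPolynomial (Fin k) ℚ)).coeff (d (Sum.inl i))) *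
      ∏ j, (EE (MvPolynomial.X : Fin k → MvPolynomial (Fin k) ℚ)).coeff (d (Sum.inr j)))) := by
    intro d
    rw [← hψ', map_mul, map_prod, map_prod]
    unfold cf
    rw [hHH, hEE]
    simp only [Polynomial.coeff_map]
  intro α β
  have key := S3 (S := MvPolynomial (Fin k) ℚ ⧸ Jd k (k + p + 1)) (k := k) (r := r + 1) (M := k + p) z
    ?_ ψ ?_ ?_ (Sum.elim α β)
  · rw [hcf] at key
    exact key
  · intro t
    rw [hz]
    show (Ideal.Quotient.mk (Jd k (k + p + 1)) (MvPolynomial.X t)) ^ (k + p + 1) = 0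
    rw [← map_pow, Ideal.Quotient.eq_zero_iff_mem]
    exact X_pow_mem_Jd _ t
  · rintro d ⟨i, hi1, hi2⟩
    rw [hcf, Fin.prod_univ_succAbove _ i, Fin.prod_univ_succAbove _ i, hi1, hi2, HH_coeff_zero,
      EE_coeff_zero, one_mul, one_mul]
    exact h _ _
  · intro u v A
    have hu : ∀ u : ℚ, (HH (k + p) z).eval (algebraMap ℚ _ u)
        = Ideal.Quotient.mk (Jd k (k + p + 1))
          ((HH (k + p) (MvPolynomial.X : Fin k → MvPolynomial (Fin k) ℚ)).eval (algebraMap ℚ _ u)) := by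
      intro u
      rw [hHH, Polynomial.eval_map, ← Polynomial.eval₂_at_apply]
      rfl
    have hv : ∀ u : ℚ, (EE z).eval (algebraMap ℚ _ u)
        = Ideal.Quotient.mk (Jd k (k + p + 1))
          ((EE (MvPolynomial.X : Fin k → MvPolynomial (Fin k) ℚ)).eval (algebraMap ℚ _ u)) := by
      intro u
      rw [hEE, Polynomial.eval_map, ← Polynomial.eval₂_at_apply]
      rfl
    have hdet : (Matrix.of fun i j : Fin (r + 1) => ∑ t, z t ^ (i.val + 1) *
        Polynomial.aeval (z t) (A j)).det = Ideal.Quotient.mk (Jd k (k + p + 1)) (Mx k A).det := by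
      rw [RingHom.map_det, ← Matrix.det_transpose]
      congr 1
      ext1 j i
      rw [Matrix.transpose_apply, Matrix.of_apply, RingHom.mapMatrix_apply, Matrix.map_apply]
      unfold Mx
      rw [map_sum]
      refine Finset.sum_congr rfl fun t _ => ?_
      rw [map_mul, map_pow, hz]
      congr 1
      exact Polynomial.aeval_algHom_apply (Ideal.Quotient.mkₐ ℚ (Jd k (k + p + 1))) (MvPolynomial.X t) (A j)
    simp only [hu, hv]
    rw [hdet, ← map_prod, ← map_prod, ← map_mul, ← map_mul, hψ', phi_apply]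
    refine S2 (Q := Q) (m' := k) hfQ (fun g hg => hφ g hg) hn hQ A ?_
    apply sym_mem_GG
    refine MvPolynomial.IsSymmetric.mul (MvPolynomial.IsSymmetric.mul ?_ ?_) (det_Mx_isSymmetric A)
    · apply prod_isSymmetric
      intro i _
      rw [HH_eval_num]
      exact prod_aeval_isSymmetric _
    · apply prod_isSymmetric
      intro i _
      rw [EE_eval_num]
      exact prod_aeval_isSymmetric _

lemma CR_all {p n m : ℕ} {f : MvPolynomial (Fin k) ℚ} (hn : n < k) (hm : 1 ≤ m) (hf : f ∈ GG k m)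
    (hφ : ∀ g ∈ aI k n, phi k p f g = 0)
    (h1 : ∀ a : Fin k →₀ ℕ, (∀ t, a t < k + p + 1) → (univ.filter fun t => a t < p).card < m →
      MvPolynomial.coeff a (f * vd k) = 0) (r : ℕ) : CR k p f n (m - 1 + r) := by
  induction r with
  | zero => exact CR_base hm h1 n
  | succ r ih =>
    exact CR_step hn (GG_mono (show m ≤ m - 1 + r + 1 by omega) hf) hφ ih

end

end Pool.Agent.Lib.RT
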