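import Pool.Agent.Lib.MP_e87f44_co.CoreA

set_option autoImplicit false

namespace Pool.Agent.Lib.RT

open Finset

section

variable {k : ℕ}

lemma closure_eq_prod {x : MvPolynomial (Fin k) ℚ}
    (hx : x ∈ Submonoid.closure (Set.range fun i : Fin k => es (univ : Finset (Fin k)) (i.val + 1))) :
    ∃ (r : ℕ) (β : Fin r → ℕ), x = ∏ j, es univ (β j) := by
  induction hx using Submonoid.closure_induction with
  | mem x hx =>
    obtain ⟨i, rfl⟩ := hx
    exact ⟨1, fun _ => i.val + 1, by simp⟩
  | one => exact ⟨0, fun _ => 0, by simp⟩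
  | mul x y _ _ hx hy =>
    obtain ⟨r, β, rfl⟩ := hx
    obtain ⟨s, γ, rfl⟩ := hy
    refine ⟨r + s, Fin.append β γ, ?_⟩
    rw [Fin.prod_univ_add]
    simp only [Fin.append_left, Fin.append_right]

lemma phi_sym {p n m : ℕ} {f : MvPolynomial (Fin k) ℚ} (h : ∀ r, CR k p f n (m - 1 + r))
    {g : MvPolynomial (Fin k) ℚ} (hg : g.IsSymmetric) : phi k p f (es univ n * g) = 0 := by
  obtain ⟨q, hq⟩ := exists_eps hg
  have h1 := eps_mem_adjoin q
  rw [hq, ← Subalgebra.mem_toSubmodule, Algebra.adjoin_eq_span] at h1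
  clear hq hg
  induction h1 using Submodule.span_induction with
  | mem x hx =>
    obtain ⟨r, β, rfl⟩ := closure_eq_prod hx
    have h2 := h r (fun _ => 0) (Fin.append (fun _ => 0) β)
    simp only [HH_coeff_zero, Finset.prod_const_one, one_mul, EE_coeff] at h2
    rw [Fin.prod_univ_add] at h2
    simp only [Fin.append_left, Fin.append_right, es_zero, Finset.prod_const_one, one_mul] at h2
    exact h2
  | zero => rw [mul_zero, map_zero]
  | add x y _ _ hx hy => rw [mul_add, map_add, hx, hy, add_zero]
  | smul a x _ hx => rw [mul_smul_comm, map_smul, hx, smul_zero]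

lemma phi_all {p n m : ℕ} {f : MvPolynomial (Fin k) ℚ} (hfs : f.IsSymmetric)
    (h : ∀ r, CR k p f n (m - 1 + r)) (g : MvPolynomial (Fin k) ℚ) : phi k p f (es univ n * g) = 0 := by
  classical
  have h1 : ∀ e : Equiv.Perm (Fin k), phi k p f (es univ n * MvPolynomial.rename e g)
      = phi k p f (es univ n * g) := by
    intro e
    rw [phi_apply, phi_apply, ← L_rename (k + p) e (vd k ^ 2 * (f * (es univ n * g)))]
    congr 1
    rw [map_mul, rename_vd_sq, map_mul, hfs e, map_mul, es_isSymmetric n e]
  have h2 : (∑ e : Equiv.Perm (Fin k), MvPolynomial.rename e g).IsSymmetric := by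
    intro e
    rw [map_sum, ← Equiv.sum_comp (Equiv.mulLeft e) fun e' => MvPolynomial.rename e' g]
    refine Finset.sum_congr rfl fun e' _ => ?_
    rw [MvPolynomial.rename_rename]
    rfl
  have h3 := phi_sym h h2
  rw [Finset.mul_sum, map_sum, Finset.sum_congr rfl fun e _ => h1 e, Finset.sum_const, nsmul_eq_mul] at h3
  rcases mul_eq_zero.mp h3 with h4 | h4
  · exfalso
    rw [Finset.card_univ, Fintype.card_perm, Fintype.card_fin] at h4
    exact Nat.factorial_ne_zero k (by exact_mod_cast h4)
  · exact h4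

lemma kill_step {p n : ℕ} {f : MvPolynomial (Fin k) ℚ} (hk : ∀ g ∈ aI k (n + 1), phi k p f g = 0)
    (h : ∀ g, phi k p f (es univ (n + 1) * g) = 0) : ∀ g ∈ aI k n, phi k p f g = 0 := by
  intro g hg
  suffices h2 : ∀ g ∈ aI k n, ∀ y, phi k p f (g * y) = 0 by
    have := h2 g hg 1
    rwa [mul_one] at this
  intro g hg
  refine Submodule.span_induction ?_ ?_ ?_ ?_ hg
  · rintro _ ⟨i, rfl⟩ y
    cases i with
    | zero => exact h y
    | succ i =>
      apply hk
      apply Ideal.mul_mem_right
      apply es_mem_aI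
      omega
  · intro y
    rw [zero_mul, map_zero]
  · intro a b _ _ ha hb y
    rw [add_mul, map_add, ha, hb, add_zero]
  · intro a b _ hb y
    rw [smul_eq_mul, mul_comm a b, mul_assoc]
    exact hb _

lemma es_top : es (univ : Finset (Fin k)) k = MvPolynomial.monomial (cst k 1) 1 := by
  have h : (univ : Finset (Fin k)).card = k := by simp
  have h2 := Finset.powersetCard_self (univ : Finset (Fin k))
  rw [h] at h2
  rw [es, h2, Finset.sum_singleton, MvPolynomial.monomial_eq, map_one, one_mul,
    Finsupp.prod_fintype _ _ (fun s => pow_zero _)]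
  simp

lemma kill_top {p : ℕ} {f : MvPolynomial (Fin k) ℚ} (h0 : f * vd k ∈ Jd k (k + p)) :
    ∀ g ∈ aI k (k - 1), phi k p f g = 0 := by
  classical
  rcases Nat.eq_zero_or_pos k with hk | hk
  · subst hk
    intro g _
    rw [phi_apply, L_apply]
    have h1 : f * vd 0 = 0 := by
      ext a
      rw [h0 a (fun t => t.elim0), MvPolynomial.coeff_zero]
    have h2 : vd 0 ^ 2 * (f * g) = (f * vd 0) * (vd 0 * g) := by ring
    rw [h2, h1, zero_mul, MvPolynomial.coeff_zero]
  have hk1 : ∀ y, phi k p f (es univ k * y) = 0 := by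
    intro y
    have h2 : vd k ^ 2 * (f * (es univ k * y)) = es univ k * ((f * vd k) * (vd k * y)) := by ring
    rw [phi_apply, h2, L_apply, es_top, MvPolynomial.coeff_monomial_mul']
    split_ifs with h3
    · rw [one_mul]
      apply Ideal.mul_mem_right _ _ h0
      intro t
      rw [Finsupp.coe_tsub, Pi.sub_apply, cst_apply, cst_apply]
      omega
    · rfl
  have h1 : k - 1 + 1 = k := by omega
  apply kill_step
  · intro g hg
    rw [h1] at hg
    have h3 : g = 0 := by
      have h4 : aI k k ≤ ⊥ := by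
        unfold aI
        rw [Ideal.span_le]
        rintro _ ⟨i, rfl⟩
        rw [SetLike.mem_coe, Submodule.mem_bot]
        apply es_eq_zero
        simp
        omega
      have := h4 hg
      rwa [Submodule.mem_bot] at this
    rw [h3, map_zero]
  · intro g
    rw [h1]
    exact hk1 g

theorem phi_zero {p m : ℕ} {f : MvPolynomial (Fin k) ℚ} (hfs : f.IsSymmetric) (hk : 0 < k)
    (hm : 1 ≤ m) (hf : f ∈ GG k m) (h0 : f * vd k ∈ Jd k (k + p))
    (h1 : ∀ a : Fin k →₀ ℕ, (∀ t, a t < k + p + 1) → (univ.filter fun t => a t < p).card < m →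
      MvPolynomial.coeff a (f * vd k) = 0) (g : MvPolynomial (Fin k) ℚ) : phi k p f g = 0 := by
  have key : ∀ j, j + 1 ≤ k → ∀ g ∈ aI k (k - 1 - j), phi k p f g = 0 := by
    intro j
    induction j with
    | zero =>
      intro _
      exact kill_top h0
    | succ j ih =>
      intro hj
      have h2 := ih (by omega)
      have h3 : k - 1 - j = k - 1 - (j + 1) + 1 := by omega
      rw [h3] at h2
      exact kill_step h2 (phi_all hfs (CR_all (by omega) hm hf h2 h1))
  have h2 := key (k - 1) (by omega)
  rw [Nat.sub_self] at h2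
  have h3 := phi_all hfs (CR_all hk hm hf h2 h1) g
  rwa [es_zero, one_mul] at h3

end

end Pool.Agent.Lib.RT
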