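import Pool.Agent.Lib.MP_e87f44_co.Good

set_option autoImplicit false

namespace Pool.Agent.Lib.RT

open Finset

section

lemma tri_add (a b : ℕ) : (a + b) * (a + b - 1) / 2 = a * (a - 1) / 2 + b * (b - 1) / 2 + a * b := by
  induction b with
  | zero => simp
  | succ b ih =>
    have h1 := choose_two_succ (a + b)
    have h2 := choose_two_succ b
    rw [← add_assoc, h1, ih, h2]
    ring

/-- the summand -/
noncomputable def gterm (k p i : ℕ) : PowerSeries ℤ :=
  if i ≤ p then PowerSeries.X ^ ((i + 1) + (p - i) * (k - i)) * gb PowerSeries.X k (i + 1) *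
    gb PowerSeries.X p (p - i) else 0

lemma sum_gfib_eq (k p i : ℕ) (hi : i < k) :
    ∑ S ∈ gfib k p i, (PowerSeries.X : PowerSeries ℤ) ^ (∑ s ∈ S, s)
      = PowerSeries.X ^ (k * (k - 1) / 2) * gterm k p i := by
  rw [sum_gfib _ _ _ _ hi, elq_eq, elq_eq]
  unfold gterm
  split_ifs with h
  · obtain ⟨c, rfl⟩ : ∃ c, p = i + c := ⟨p - i, by omega⟩
    obtain ⟨b, rfl⟩ : ∃ b, k = i + b + 1 := ⟨k - 1 - i, by omega⟩
    have e1 : i + b + 1 - 1 - i = b := by omega
    have e2 : i + c - i = c := by omega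
    have e3 : i + b + 1 - i = b + 1 := by omega
    rw [e1, e2, e3]
    have h1 := gb_symm i c
    have h2 := gb_symm (i + 1) b
    have e4 : i + 1 + b = i + b + 1 := by omega
    rw [e4] at h2
    rw [h1, h2]
    have h3 : i + b + 1 + (i + c) + i * (i - 1) / 2 + ((i + c) * b + b * (b - 1) / 2)
        = (i + b + 1) * (i + b + 1 - 1) / 2 + (i + 1 + c * (b + 1)) := by
      rw [choose_two_succ (i + b), tri_add i b]
      ring
    calc PowerSeries.X ^ (i + b + 1 + (i + c)) * (PowerSeries.X ^ (i * (i - 1) / 2) * gb PowerSeries.X (i + c) c) *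
          (PowerSeries.X ^ ((i + c) * b) * (PowerSeries.X ^ (b * (b - 1) / 2) * gb PowerSeries.X (i + b + 1) b))
        = PowerSeries.X ^ (i + b + 1 + (i + c) + i * (i - 1) / 2 + ((i + c) * b + b * (b - 1) / 2)) *
          (gb PowerSeries.X (i + c) c * gb PowerSeries.X (i + b + 1) b) := by
          rw [pow_add _ (i + b + 1 + (i + c) + i * (i - 1) / 2), pow_add _ (i + b + 1 + (i + c)),
            pow_add _ ((i + c) * b)]
          ring
      _ = _ := by
          rw [h3, pow_add]
          ring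
  · rw [gb_eq_zero _ (by omega : p < i)]
    ring

lemma coeff_sum_X_pow (G : Finset (Finset ℕ)) (n : ℕ) :
    PowerSeries.coeff n (∑ S ∈ G, (PowerSeries.X : PowerSeries ℤ) ^ (∑ s ∈ S, s))
      = ((G.filter fun S => ∑ s ∈ S, s = n).card : ℤ) := by
  rw [map_sum, Finset.card_filter]
  push_cast
  refine Finset.sum_congr rfl fun S _ => ?_
  rw [PowerSeries.coeff_X_pow]
  by_cases h : n = ∑ s ∈ S, s
  · rw [if_pos h, if_pos h.symm]
  · rw [if_neg h, if_neg (Ne.symm h)]

lemma card_goodS {k m p d : ℕ} (hm : m ≤ k) : ((goodS k m p d).card : ℤ)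
    = PowerSeries.coeff d (∑ i ∈ range m, gterm k p i) := by
  have h1 : (goodS k m p d).card = ∑ i ∈ range m, ((gfib k p i).filter fun S =>
      ∑ s ∈ S, s = d + k * (k - 1) / 2).card := by
    rw [Finset.card_eq_sum_card_fiberwise (f := fun S => (S.filter fun s => s < p).card) (t := range m)]
    · refine Finset.sum_congr rfl fun i hi => ?_
      congr 1
      ext S
      unfold goodS gfib
      simp only [Finset.mem_filter, Finset.mem_powersetCard]
      rw [Finset.mem_range] at hi
      constructor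
      · rintro ⟨⟨h1, h2, h3, h4⟩, h5⟩
        exact ⟨⟨h1, h2, h5⟩, h4⟩
      · rintro ⟨⟨h1, h2, h5⟩, h4⟩
        exact ⟨⟨h1, h2, by omega, h4⟩, h5⟩
    · intro S hS
      unfold goodS at hS
      rw [Finset.mem_coe, Finset.mem_filter] at hS
      rw [Finset.mem_coe, Finset.mem_range]
      exact hS.2.2.1
  rw [h1, map_sum]
  push_cast
  refine Finset.sum_congr rfl fun i hi => ?_
  rw [Finset.mem_range] at hi
  rw [← coeff_sum_X_pow, sum_gfib_eq k p i (by omega), PowerSeries.coeff_X_pow_mul]

lemma sum_gterm {k i L : ℕ} (hi : i < k) (hL : i ≤ L) : ∑ p ∈ range L, gterm k p i = TT k (i + 1) (L - i) := by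
  have h1 : L = i + (L - i) := by omega
  conv_lhs => rw [h1]
  rw [Finset.sum_range_add, Finset.sum_eq_zero, zero_add]
  · unfold TT FF
    rw [Finset.mul_sum]
    refine Finset.sum_congr rfl fun j _ => ?_
    unfold gterm
    rw [if_pos (Nat.le_add_right i j)]
    have e1 : i + j - i = j := by omega
    have e2 : i + 1 + j - 1 = i + j := by omega
    have e3 : k - (i + 1) + 1 = k - i := by omega
    rw [e1, e2, e3, pow_add]
    ring
  · intro p hp
    rw [Finset.mem_range] at hp
    unfold gterm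
    rw [if_neg (by omega)]

theorem count {k m L : ℕ} (hm : m ≤ k) (hL : m ≤ L) (d : ℕ) :
    (((if d = 0 then 1 else 0) + ∑ p ∈ range L, (goodS k m p d).card : ℕ) : ℤ)
      = PowerSeries.coeff d (1 + ∑ i ∈ range m, TT k (i + 1) (L + 1 - (i + 1))) := by
  push_cast
  rw [map_add, PowerSeries.coeff_one]
  congr 1
  rw [Finset.sum_congr rfl fun p _ => card_goodS hm, ← map_sum, Finset.sum_comm]
  congr 1
  refine Finset.sum_congr rfl fun i hi => ?_
  rw [Finset.mem_range] at hi
  rw [sum_gterm (by omega) (by omega)]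

theorem count_large {k m L d : ℕ} (hm : m ≤ k) (hL : d + k ≤ L) :
    (if d = 0 then 1 else 0) + ∑ p ∈ range L, (goodS k m p d).card = Nat.card (Emd k m d) := by
  have h1 := count (k := k) (m := m) (L := L) hm (by omega) d
  have h2 := coeff_sum_TT (k := k) (m := m) (d := d) (fun i => L + 1 - i) hm (by
    intro i hi
    omega)
  rw [h2] at h1
  exact_mod_cast h1

end

end Pool.Agent.Lib.RT
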