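import Pool.Agent.Lib.MP_e87f44_co.QSer

set_option autoImplicit false

namespace Pool.Agent.Lib.RT

open Finset

section

/-- fibers of the good sets -/
def gfib (k p i : ℕ) : Finset (Finset ℕ) :=
  ((range (k + p + 1)).powersetCard k).filter fun S => k + p ∈ S ∧ (S.filter fun s => s < p).card = i

lemma sum_Ico_powerset {R : Type*} [CommRing R] (q : R) (k p j : ℕ) :
    ∑ B ∈ (Ico p (p + k)).powersetCard j, q ^ (∑ s ∈ B, s) = q ^ (p * j) * elq q k j := by
  have h1 : Ico p (p + k) = (range k).map (addLeftEmbedding p) := by
    rw [Finset.range_eq_Ico, Finset.map_add_left_Ico, add_zero]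
  rw [h1, Finset.powersetCard_map, Finset.sum_map]
  unfold elq
  rw [Finset.mul_sum]
  refine Finset.sum_congr rfl fun B hB => ?_
  rw [Finset.mem_powersetCard] at hB
  rw [← pow_add]
  congr 1
  show ∑ s ∈ B.map (addLeftEmbedding p), s = _
  rw [Finset.sum_map]
  simp only [addLeftEmbedding_apply]
  rw [Finset.sum_add_distrib, Finset.sum_const, hB.2, smul_eq_mul, mul_comm]

lemma sum_gfib {R : Type*} [CommRing R] (q : R) (k p i : ℕ) (hi : i < k) :
    ∑ S ∈ gfib k p i, q ^ (∑ s ∈ S, s)
      = q ^ (k + p) * elq q p i * (q ^ (p * (k - 1 - i)) * elq q k (k - 1 - i)) := by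
  have h1 : ∑ S ∈ gfib k p i, q ^ (∑ s ∈ S, s)
      = ∑ x ∈ (powersetCard i (range p)) ×ˢ (powersetCard (k - 1 - i) (Ico p (p + k))),
        q ^ ((k + p) + ((∑ s ∈ x.1, s) + ∑ s ∈ x.2, s)) := by
    have hL : ∀ S ∈ gfib k p i, (S.erase (k + p)).filter (fun s => s < p) = S.filter (fun s => s < p) := by
      intro S _
      ext s
      simp only [Finset.mem_filter, Finset.mem_erase]
      constructor
      · rintro ⟨⟨_, h⟩, h'⟩; exact ⟨h, h'⟩
      · rintro ⟨h, h'⟩; exact ⟨⟨by omega, h⟩, h'⟩
    refine Finset.sum_nbij' (fun S => (S.filter (fun s => s < p), (S.erase (k + p)).filter (fun s => ¬ s < p)))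
      (fun x => insert (k + p) (x.1 ∪ x.2)) ?_ ?_ ?_ ?_ ?_
    · intro S hS
      have hS' := hS
      unfold gfib at hS
      rw [Finset.mem_filter, Finset.mem_powersetCard] at hS
      obtain ⟨⟨h1, h2⟩, h3, h4⟩ := hS
      rw [Finset.mem_product, Finset.mem_powersetCard, Finset.mem_powersetCard]
      refine ⟨⟨?_, h4⟩, ?_, ?_⟩
      · intro s hs
        exact Finset.mem_range.mpr (Finset.mem_filter.mp hs).2
      · intro s hs
        rw [Finset.mem_filter, Finset.mem_erase] at hs
        have := Finset.mem_range.mp (h1 hs.1.2)
        rw [Finset.mem_Ico]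
        omega
      · have h5 := Finset.card_filter_add_card_filter_not (s := S.erase (k + p)) (fun s => s < p)
        rw [hL S hS', h4, Finset.card_erase_of_mem h3, h2] at h5
        show ((S.erase (k + p)).filter (fun s => ¬ s < p)).card = _
        omega
    · rintro ⟨A, B⟩ hx
      rw [Finset.mem_product, Finset.mem_powersetCard, Finset.mem_powersetCard] at hx
      obtain ⟨⟨hA1, hA2⟩, hB1, hB2⟩ := hx
      have hdis : Disjoint A B := by
        rw [Finset.disjoint_left]
        intro s hs hs'
        have h6 := Finset.mem_range.mp (hA1 hs)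
        have h7 := Finset.mem_Ico.mp (hB1 hs')
        omega
      have hnot : k + p ∉ A ∪ B := by
        rw [Finset.mem_union]
        rintro (h | h)
        · have h6 := Finset.mem_range.mp (hA1 h)
          omega
        · have h7 := Finset.mem_Ico.mp (hB1 h)
          omega
      unfold gfib
      rw [Finset.mem_filter, Finset.mem_powersetCard]
      refine ⟨⟨?_, ?_⟩, Finset.mem_insert_self _ _, ?_⟩
      · intro s hs
        rw [Finset.mem_insert, Finset.mem_union] at hs
        rw [Finset.mem_range]
        rcases hs with h | h | h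
        · omega
        · have h6 := Finset.mem_range.mp (hA1 h)
          omega
        · have h7 := Finset.mem_Ico.mp (hB1 h)
          omega
      · show (insert (k + p) (A ∪ B)).card = k
        rw [Finset.card_insert_of_notMem hnot, Finset.card_union_of_disjoint hdis]
        have hA2' : A.card = i := hA2
        have hB2' : B.card = k - 1 - i := hB2
        omega
      · have h8 : (insert (k + p) (A ∪ B)).filter (fun s => s < p) = A := by
          ext s
          simp only [Finset.mem_filter, Finset.mem_insert, Finset.mem_union]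
          constructor
          · rintro ⟨h | h | h, h'⟩
            · omega
            · exact h
            · have h7 := Finset.mem_Ico.mp (hB1 h)
              omega
          · intro h
            exact ⟨Or.inr (Or.inl h), Finset.mem_range.mp (hA1 h)⟩
        show ((insert (k + p) (A ∪ B)).filter (fun s => s < p)).card = i
        rw [h8]
        exact hA2
    · intro S hS
      unfold gfib at hS
      rw [Finset.mem_filter, Finset.mem_powersetCard] at hS
      obtain ⟨⟨h1, h2⟩, h3, h4⟩ := hS
      show insert (k + p) (S.filter (fun s => s < p) ∪ (S.erase (k + p)).filter (fun s => ¬ s < p)) = S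
      ext s
      simp only [Finset.mem_insert, Finset.mem_union, Finset.mem_filter, Finset.mem_erase]
      constructor
      · rintro (h | h | h)
        · rw [h]; exact h3
        · exact h.1
        · exact h.1.2
      · intro h
        by_cases h5 : s = k + p
        · exact Or.inl h5
        · by_cases h6 : s < p
          · exact Or.inr (Or.inl ⟨h, h6⟩)
          · exact Or.inr (Or.inr ⟨⟨h5, h⟩, h6⟩)
    · rintro ⟨A, B⟩ hx
      rw [Finset.mem_product, Finset.mem_powersetCard, Finset.mem_powersetCard] at hx
      obtain ⟨⟨hA1, hA2⟩, hB1, hB2⟩ := hx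
      apply Prod.ext
      · show (insert (k + p) (A ∪ B)).filter (fun s => s < p) = A
        ext s
        simp only [Finset.mem_filter, Finset.mem_insert, Finset.mem_union]
        constructor
        · rintro ⟨h | h | h, h'⟩
          · omega
          · exact h
          · have h7 := Finset.mem_Ico.mp (hB1 h)
            omega
        · intro h
          exact ⟨Or.inr (Or.inl h), Finset.mem_range.mp (hA1 h)⟩
      · show ((insert (k + p) (A ∪ B)).erase (k + p)).filter (fun s => ¬ s < p) = B
        ext s
        simp only [Finset.mem_filter, Finset.mem_erase, Finset.mem_insert, Finset.mem_union]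
        constructor
        · rintro ⟨⟨h, h' | h' | h'⟩, h''⟩
          · exact absurd h' h
          · exact absurd (Finset.mem_range.mp (hA1 h')) h''
          · exact h'
        · intro h
          have h7 := Finset.mem_Ico.mp (hB1 h)
          exact ⟨⟨by omega, Or.inr (Or.inr h)⟩, by omega⟩
    · intro S hS
      have hS' := hS
      unfold gfib at hS
      rw [Finset.mem_filter, Finset.mem_powersetCard] at hS
      obtain ⟨⟨h1, h2⟩, h3, h4⟩ := hS
      congr 1
      show ∑ s ∈ S, s = k + p + (∑ s ∈ S.filter (fun s => s < p), s +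
        ∑ s ∈ (S.erase (k + p)).filter (fun s => ¬ s < p), s)
      rw [← hL S hS', Finset.sum_filter_add_sum_filter_not]
      exact (Finset.add_sum_erase S (fun s => s) h3).symm
  rw [h1, Finset.sum_product]
  have h2 : ∀ A ∈ powersetCard i (range p), ∑ B ∈ powersetCard (k - 1 - i) (Ico p (p + k)),
      q ^ ((k + p) + ((∑ s ∈ A, s) + ∑ s ∈ B, s))
      = q ^ (k + p) * q ^ (∑ s ∈ A, s) * (q ^ (p * (k - 1 - i)) * elq q k (k - 1 - i)) := by
    intro A _
    rw [← sum_Ico_powerset, Finset.mul_sum]
    refine Finset.sum_congr rfl fun B _ => ?_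
    rw [pow_add, pow_add]
    ring
  rw [Finset.sum_congr rfl h2, ← Finset.sum_mul, ← Finset.mul_sum]
  rfl

end

end Pool.Agent.Lib.RT
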