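import Pool.Agent.Lib.MP_e87f44_co.RingR

set_option autoImplicit false

namespace Pool.Agent.Lib.RT

open Finset Polynomial

section

variable {ℓ k : ℕ}

/-- the weights of the two kinds of variables -/
def ww (ℓ k : ℕ) : Fin ℓ ⊕ Fin k → ℕ := Sum.elim (fun i : Fin ℓ => i.val + 1) (fun j : Fin k => j.val + 1)

/-- the weights of the variables -/
def wT (k : ℕ) : Fin k → ℕ := fun j => j.val + 1

lemma A0_hom (n : ℕ) : MvPolynomial.IsWeightedHomogeneous (ww ℓ k) ((A0 ℓ k).coeff n) n := by
  unfold A0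
  rw [coeff_add, finsetSum_coeff]
  refine MvPolynomial.IsWeightedHomogeneous.add ?_ ?_
  · rw [coeff_one]
    split_ifs with h
    · rw [h]; exact MvPolynomial.isWeightedHomogeneous_one _ _
    · exact MvPolynomial.isWeightedHomogeneous_zero _ _ _
  · refine MvPolynomial.IsWeightedHomogeneous.sum _ _ _ fun i _ => ?_
    rw [coeff_C_mul_X_pow]
    split_ifs with h
    · have h1 := MvPolynomial.IsWeightedHomogeneous.C_mul
        (MvPolynomial.isWeightedHomogeneous_X ℚ (ww ℓ k) (Sum.inl i)) ((-1) ^ (i.val + 1))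
      rw [map_pow, map_neg, map_one] at h1
      rw [h]
      exact h1
    · exact MvPolynomial.isWeightedHomogeneous_zero _ _ _

lemma B0_hom (n : ℕ) : MvPolynomial.IsWeightedHomogeneous (ww ℓ k) ((B0 ℓ k).coeff n) n := by
  unfold B0
  rw [coeff_add, finsetSum_coeff]
  refine MvPolynomial.IsWeightedHomogeneous.add ?_ ?_
  · rw [coeff_one]
    split_ifs with h
    · rw [h]; exact MvPolynomial.isWeightedHomogeneous_one _ _
    · exact MvPolynomial.isWeightedHomogeneous_zero _ _ _
  · refine MvPolynomial.IsWeightedHomogeneous.sum _ _ _ fun i _ => ?_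
    rw [coeff_C_mul_X_pow]
    split_ifs with h
    · rw [h]
      exact MvPolynomial.isWeightedHomogeneous_X ℚ (ww ℓ k) (Sum.inr i)
    · exact MvPolynomial.isWeightedHomogeneous_zero _ _ _

attribute [local instance] MvPolynomial.weightedGradedAlgebra in
lemma relI_hom : (relI ℓ k).IsHomogeneous (MvPolynomial.weightedHomogeneousSubmodule ℚ (ww ℓ k)) := by
  apply Ideal.homogeneous_span
  rintro _ ⟨n, _, rfl⟩
  refine ⟨n, ?_⟩
  rw [MvPolynomial.mem_weightedHomogeneousSubmodule, coeff_mul]
  refine MvPolynomial.IsWeightedHomogeneous.sum _ _ _ fun x hx => ?_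
  rw [← (Finset.HasAntidiagonal.mem_antidiagonal.mp hx)]
  exact (A0_hom x.1).mul (B0_hom x.2)

lemma component_mem_relI {p : MvPolynomial (Fin ℓ ⊕ Fin k) ℚ} (hp : p ∈ relI ℓ k) (d : ℕ) :
    MvPolynomial.weightedHomogeneousComponent (ww ℓ k) d p ∈ relI ℓ k :=
  MvPolynomial.weightedHomogeneousComponent_mem_of_mem ℚ (ww ℓ k) relI_hom hp d

lemma rename_hom {t : MvPolynomial (Fin k) ℚ} {d : ℕ} (h : MvPolynomial.IsWeightedHomogeneous (wT k) t d) :
    MvPolynomial.IsWeightedHomogeneous (ww ℓ k) (MvPolynomial.rename Sum.inr t) d := by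
  rw [MvPolynomial.as_sum t, map_sum]
  refine MvPolynomial.IsWeightedHomogeneous.sum _ _ _ fun a ha => ?_
  rw [MvPolynomial.rename_monomial]
  apply MvPolynomial.isWeightedHomogeneous_monomial
  rw [← h (MvPolynomial.mem_support_iff.mp ha), Finsupp.weight_apply, Finsupp.weight_apply,
    Finsupp.sum_mapDomain_index]
  · rfl
  · intro b; simp
  · intro b m n; rw [add_smul]

lemma component_rename (t : MvPolynomial (Fin k) ℚ) (d : ℕ) :
    MvPolynomial.weightedHomogeneousComponent (ww ℓ k) d (MvPolynomial.rename Sum.inr t)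
      = MvPolynomial.rename Sum.inr (MvPolynomial.weightedHomogeneousComponent (wT k) d t) := by
  classical
  induction t using MvPolynomial.induction_on' with
  | monomial a c =>
    have h1 : MvPolynomial.IsWeightedHomogeneous (wT k) (MvPolynomial.monomial a c)
        (Finsupp.weight (wT k) a) := MvPolynomial.isWeightedHomogeneous_monomial _ _ _ rfl
    have h2 := rename_hom (ℓ := ℓ) h1
    rw [MvPolynomial.weightedHomogeneousComponent_of_mem h1,
      MvPolynomial.weightedHomogeneousComponent_of_mem h2]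
    split_ifs
    · rfl
    · rw [map_zero]
  | add p q hp hq => rw [map_add, map_add, hp, hq, map_add, map_add]

lemma psi_eq_mk_rename (t : MvPolynomial (Fin k) ℚ) :
    psi ℓ k t = Ideal.Quotient.mk (relI ℓ k) (MvPolynomial.rename Sum.inr t) := by
  have h : psi ℓ k = (Ideal.Quotient.mkₐ ℚ (relI ℓ k)).comp (MvPolynomial.rename Sum.inr) := by
    apply MvPolynomial.algHom_ext
    intro j
    rw [psi_X, AlgHom.comp_apply, MvPolynomial.rename_X, Ideal.Quotient.mkₐ_eq_mk]
  rw [h]
  rfl

/-- exponents of the monomials of weight `d` in the first `m` variables -/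
def Emd (k m d : ℕ) : Set (Fin k →₀ ℕ) := {a | (∀ j : Fin k, m ≤ j.val → a j = 0) ∧ Finsupp.weight (wT k) a = d}

/-- the graded pieces of the polynomial ring in the first `m` variables -/
noncomputable def Wd (k m d : ℕ) : Submodule ℚ (MvPolynomial (Fin k) ℚ) :=
  MvPolynomial.restrictSupport ℚ (Emd k m d)

lemma mem_Wd {m d : ℕ} {t : MvPolynomial (Fin k) ℚ} : t ∈ Wd k m d ↔
    t ∈ MvPolynomial.supported ℚ {j : Fin k | j.val < m} ∧
      MvPolynomial.IsWeightedHomogeneous (wT k) t d := by
  unfold Wd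
  rw [MvPolynomial.mem_restrictSupport_iff, MvPolynomial.mem_supported]
  constructor
  · intro h
    constructor
    · intro j hj
      rw [Finset.mem_coe, MvPolynomial.mem_vars_iff_mem_support] at hj
      obtain ⟨a, ha, hja⟩ := hj
      by_contra hcon
      rw [Set.mem_ofPred_eq, not_lt] at hcon
      exact Finsupp.mem_support_iff.mp hja ((h ha).1 j hcon)
    · intro a ha
      exact (h (MvPolynomial.mem_support_iff.mpr ha)).2
  · rintro ⟨h1, h2⟩ a ha
    refine ⟨fun j hj => ?_, h2 (MvPolynomial.mem_support_iff.mp ha)⟩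
    by_contra hcon
    have h3 : j ∈ t.vars := (MvPolynomial.mem_vars_iff_mem_support j).mpr ⟨a, ha, Finsupp.mem_support_iff.mpr hcon⟩
    have h4 := h1 h3
    rw [Set.mem_ofPred_eq] at h4
    omega

/-- the subalgebra generated by the elements of degree at most `m` -/
noncomputable def subA (ℓ k m : ℕ) : Subalgebra ℚ (MvPolynomial (Fin ℓ ⊕ Fin k) ℚ ⧸ relI ℓ k) :=
  Algebra.adjoin ℚ {x | ∃ e : ℕ, e ≤ m ∧ ∃ p ∈ MvPolynomial.weightedHomogeneousSubmodule ℚ (ww ℓ k) e,
    x = Ideal.Quotient.mkₐ ℚ (relI ℓ k) p}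

lemma coeff_Bser {S : Type*} [CommRing S] (b : Fin k → S) (n : ℕ) (hn : n < k) :
    (Bser b).coeff (n + 1) = b ⟨n, hn⟩ := by
  unfold Bser
  rw [coeff_add, coeff_one, if_neg (by omega), zero_add, finsetSum_coeff,
    Finset.sum_eq_single (⟨n, hn⟩ : Fin k)]
  · rw [coeff_C_mul_X_pow, if_pos rfl]
  · intro j _ hj
    rw [coeff_C_mul_X_pow, if_neg]
    intro h
    exact hj (Fin.ext (by simp only []; omega))
  · intro h
    exact absurd (Finset.mem_univ _) h

lemma coeff_A_mem {m : ℕ} (hmk : m ≤ k) (n : ℕ) (hn : n ≤ m) :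
    ((A0 ℓ k).map (Ideal.Quotient.mk (relI ℓ k))).coeff n ∈
      (MvPolynomial.supported ℚ {j : Fin k | j.val < m}).map (psi ℓ k) := by
  induction n using Nat.strong_induction_on with
  | _ n ih =>
    rcases Nat.eq_zero_or_pos n with h0 | hpos
    · subst h0
      rw [coeff_map, coeff_zero_A0, map_one]
      exact Subalgebra.one_mem _
    · have h1 := congrArg (fun p => p.coeff n) (mul_map_eq_one (ℓ := ℓ) (k := k))
      simp only [coeff_mul] at h1
      rw [coeff_one, if_neg (by omega), Finset.Nat.sum_antidiagonal_eq_sum_range_succ_mk,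
        Finset.sum_range_succ, Nat.sub_self, coeff_zero_Bser, mul_one] at h1
      rw [eq_neg_of_add_eq_zero_right h1]
      apply Subalgebra.neg_mem
      refine Subalgebra.sum_mem _ fun a ha => ?_
      rw [Finset.mem_range] at ha
      refine Subalgebra.mul_mem _ (ih a ha (by omega)) ?_
      have h2 : n - a = (n - a - 1) + 1 := by omega
      have h3 : n - a - 1 < k := by omega
      show (Bser _).coeff (n - a) ∈ _
      rw [h2, coeff_Bser _ _ h3, ← psi_X]
      refine ⟨MvPolynomial.X ⟨n - a - 1, h3⟩, ?_, rfl⟩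
      exact MvPolynomial.X_mem_supported.mpr (by simp only [Set.mem_ofPred_eq]; omega)

lemma X_inl_eq {S : Type*} [CommRing S] (g : MvPolynomial (Fin ℓ ⊕ Fin k) ℚ →+* S) (i : Fin ℓ) :
    g (MvPolynomial.X (Sum.inl i)) = (-1) ^ (i.val + 1) * ((A0 ℓ k).map g).coeff (i.val + 1) := by
  rw [map_A0, coeff_add, coeff_one, if_neg (by omega), zero_add, finsetSum_coeff,
    Finset.sum_eq_single i]
  · rw [coeff_C_mul_X_pow, if_pos rfl, ← mul_assoc, ← mul_pow]
    simp
  · intro j _ hj
    rw [coeff_C_mul_X_pow, if_neg]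
    intro h
    exact hj (Fin.ext (by omega))
  · intro h
    exact absurd (Finset.mem_univ _) h

lemma X_mem {m : ℕ} (hmk : m ≤ k) (s : Fin ℓ ⊕ Fin k) (hs : ww ℓ k s ≤ m) :
    Ideal.Quotient.mk (relI ℓ k) (MvPolynomial.X s) ∈
      (MvPolynomial.supported ℚ {j : Fin k | j.val < m}).map (psi ℓ k) := by
  rcases s with i | j
  · rw [X_inl_eq]
    apply Subalgebra.mul_mem
    · exact Subalgebra.pow_mem _ (Subalgebra.neg_mem _ (Subalgebra.one_mem _)) _
    · exact coeff_A_mem hmk _ hs
  · rw [← psi_X]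
    refine ⟨MvPolynomial.X j, ?_, rfl⟩
    exact MvPolynomial.X_mem_supported.mpr (by
      have h : j.val + 1 ≤ m := hs
      simp only [Set.mem_ofPred_eq]; omega)

lemma subA_eq {m : ℕ} (hmk : m ≤ k) : subA ℓ k m =
    (MvPolynomial.supported ℚ {j : Fin k | j.val < m}).map (psi ℓ k) := by
  apply le_antisymm
  · unfold subA
    rw [Algebra.adjoin_le_iff]
    rintro _ ⟨e, he, p, hp, rfl⟩
    rw [MvPolynomial.mem_weightedHomogeneousSubmodule] at hp
    rw [MvPolynomial.as_sum p, map_sum]
    refine Subalgebra.sum_mem _ fun a ha => ?_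
    have h1 := hp (MvPolynomial.mem_support_iff.mp ha)
    rw [MvPolynomial.monomial_eq, Finsupp.prod_fintype _ _ (fun s => pow_zero _), map_mul, map_prod]
    apply Subalgebra.mul_mem
    · have h2 : Ideal.Quotient.mkₐ ℚ (relI ℓ k) (MvPolynomial.C (MvPolynomial.coeff a p))
          = algebraMap ℚ _ (MvPolynomial.coeff a p) := rfl
      rw [h2]
      exact Subalgebra.algebraMap_mem _ _
    · refine Subalgebra.prod_mem _ fun s _ => ?_
      rw [map_pow]
      rcases Nat.eq_zero_or_pos (a s) with h0 | hpos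
      · rw [h0, pow_zero]
        exact Subalgebra.one_mem _
      · apply Subalgebra.pow_mem
        apply X_mem hmk
        have h3 : ww ℓ k s ≤ Finsupp.weight (ww ℓ k) a :=
          Finsupp.le_weight_of_ne_zero' (ww ℓ k) (by omega)
        omega
  · rw [MvPolynomial.supported, AlgHom.map_adjoin, Algebra.adjoin_le_iff]
    rintro _ ⟨_, ⟨j, hj, rfl⟩, rfl⟩
    apply Algebra.subset_adjoin
    refine ⟨j.val + 1, by have : j.val < m := hj; omega, MvPolynomial.X (Sum.inr j), ?_, ?_⟩
    · exact MvPolynomial.isWeightedHomogeneous_X ℚ (ww ℓ k) (Sum.inr j)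
    · exact psi_X j

theorem inf_eq_map {m : ℕ} (hmk : m ≤ k) (d : ℕ) :
    Subalgebra.toSubmodule (subA ℓ k m) ⊓ Submodule.map (Ideal.Quotient.mkₐ ℚ (relI ℓ k)).toLinearMap
      (MvPolynomial.weightedHomogeneousSubmodule ℚ (ww ℓ k) d)
    = (Wd k m d).map (psi ℓ k).toLinearMap := by
  rw [subA_eq hmk]
  apply le_antisymm
  · rintro x ⟨hx1, hx2⟩
    obtain ⟨t, ht, rfl⟩ := hx1
    obtain ⟨p, hp, hpx⟩ := hx2
    have h1 : Ideal.Quotient.mk (relI ℓ k) (p - MvPolynomial.rename Sum.inr t) = 0 := by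
      rw [map_sub, ← psi_eq_mk_rename]
      exact sub_eq_zero.mpr hpx
    rw [Ideal.Quotient.eq_zero_iff_mem] at h1
    have h2 := component_mem_relI h1 d
    have h2' : MvPolynomial.weightedHomogeneousComponent (ww ℓ k) d p = p :=
      MvPolynomial.IsWeightedHomogeneous.weightedHomogeneousComponent_same hp
    rw [map_sub, component_rename, h2'] at h2
    refine ⟨MvPolynomial.weightedHomogeneousComponent (wT k) d t, ?_, ?_⟩
    · rw [SetLike.mem_coe, mem_Wd]
      refine ⟨?_, MvPolynomial.weightedHomogeneousComponent_isWeightedHomogeneous d t⟩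
      have ht' : t ∈ MvPolynomial.supported ℚ {j : Fin k | j.val < m} := ht
      rw [MvPolynomial.mem_supported] at ht'
      rw [MvPolynomial.mem_supported]
      refine subset_trans ?_ ht'
      classical
      intro j hj
      rw [Finset.mem_coe, MvPolynomial.mem_vars_iff_mem_support] at hj ⊢
      obtain ⟨a, ha, hja⟩ := hj
      refine ⟨a, ?_, hja⟩
      rw [MvPolynomial.mem_support_iff] at ha ⊢
      intro h3
      apply ha
      rw [MvPolynomial.coeff_weightedHomogeneousComponent, h3]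
      split_ifs <;> rfl
    · have h4 : Ideal.Quotient.mk (relI ℓ k) (p - MvPolynomial.rename Sum.inr
        (MvPolynomial.weightedHomogeneousComponent (wT k) d t)) = 0 := by
        rw [Ideal.Quotient.eq_zero_iff_mem]
        exact h2
      rw [map_sub, ← psi_eq_mk_rename, sub_eq_zero] at h4
      show psi ℓ k _ = _
      rw [← h4]
      exact hpx
  · rintro _ ⟨t, ht, rfl⟩
    rw [SetLike.mem_coe, mem_Wd] at ht
    refine ⟨⟨t, ht.1, rfl⟩, ⟨MvPolynomial.rename Sum.inr t, rename_hom ht.2, ?_⟩⟩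
    exact (psi_eq_mk_rename t).symm

end

end Pool.Agent.Lib.RT
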