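import Pool.Agent.Lib.MP_e87f44_co.AltB

set_option autoImplicit false

namespace Pool.Agent.Lib.RT

open Finset Polynomial

section

variable {k : ℕ}

lemma vd_ne_zero : vd k ≠ 0 := by
  rw [vd_eq, Matrix.det_vandermonde_ne_zero_iff]
  exact MvPolynomial.X_injective

/-- expansion of an alternating polynomial in alternants -/
lemma alt_expand {F : MvPolynomial (Fin k) ℚ} (hF : IsAlt F) :
    MvPolynomial.C (Fintype.card (Equiv.Perm (Fin k)) : ℚ) * F
      = ∑ c ∈ F.support, MvPolynomial.C (MvPolynomial.coeff c F) *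
        (Matrix.of fun b t : Fin k => (MvPolynomial.X t : MvPolynomial (Fin k) ℚ) ^ (c b)).det := by
  classical
  have h1 : ∀ e : Equiv.Perm (Fin k),
      MvPolynomial.C ((Equiv.Perm.sign e : ℤ) : ℚ) * MvPolynomial.rename e F = F := by
    intro e
    rw [hF e, ← mul_assoc, ← map_mul, sign_sq, map_one, one_mul]
  have h2 : ∑ e : Equiv.Perm (Fin k),
      MvPolynomial.C ((Equiv.Perm.sign e : ℤ) : ℚ) * MvPolynomial.rename e F
      = MvPolynomial.C (Fintype.card (Equiv.Perm (Fin k)) : ℚ) * F := by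
    rw [Finset.sum_congr rfl fun e _ => h1 e, Finset.sum_const, Finset.card_univ, nsmul_eq_mul,
      map_natCast]
  have h3 : ∀ e : Equiv.Perm (Fin k), MvPolynomial.rename e F
      = ∑ c ∈ F.support, MvPolynomial.C (MvPolynomial.coeff c F) *
        ∏ b, (MvPolynomial.X (e b) : MvPolynomial (Fin k) ℚ) ^ (c b) := by
    intro e
    conv_lhs => rw [MvPolynomial.as_sum F]
    rw [map_sum]
    refine Finset.sum_congr rfl fun c _ => ?_
    rw [MvPolynomial.monomial_eq, map_mul, MvPolynomial.rename_C,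
      Finsupp.prod_fintype _ _ (fun s => pow_zero _), map_prod]
    congr 1
    refine Finset.prod_congr rfl fun b _ => ?_
    rw [map_pow, MvPolynomial.rename_X]
  rw [← h2]
  simp only [h3, Finset.mul_sum]
  rw [Finset.sum_comm]
  refine Finset.sum_congr rfl fun c _ => ?_
  rw [← Matrix.det_transpose, Matrix.det_apply', Finset.mul_sum]
  refine Finset.sum_congr rfl fun e _ => ?_
  simp only [Matrix.transpose_apply, Matrix.of_apply]
  rw [map_intCast]
  ring

lemma expand_eq (hk : 0 < k) (t : MvPolynomial (Fin k) ℚ) :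
    MvPolynomial.C (Fintype.card (Equiv.Perm (Fin k)) : ℚ) * t
      = ∑ c ∈ (eps k t * vd k).support, MvPolynomial.C (MvPolynomial.coeff c (eps k t * vd k)) *
        (Matrix.of fun b b' : Fin k => rT k (c b) b'.val).det := by
  apply eps_injective
  have h1 := alt_expand (IsAlt_mul_vd (eps_isSymmetric t))
  simp only [alt_eq hk] at h1
  have hC : ∀ q : ℚ, eps k (MvPolynomial.C q) = MvPolynomial.C q := fun q => by
    unfold eps
    rw [MvPolynomial.aeval_C]
    rfl
  have h2 : vd k * (eps k (MvPolynomial.C (Fintype.card (Equiv.Perm (Fin k)) : ℚ) * t)) =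
      vd k * (eps k (∑ c ∈ (eps k t * vd k).support,
        MvPolynomial.C (MvPolynomial.coeff c (eps k t * vd k)) *
        (Matrix.of fun b b' : Fin k => rT k (c b) b'.val).det)) := by
    rw [map_mul, hC, map_sum, Finset.mul_sum]
    calc vd k * (MvPolynomial.C (Fintype.card (Equiv.Perm (Fin k)) : ℚ) * eps k t)
        = MvPolynomial.C (Fintype.card (Equiv.Perm (Fin k)) : ℚ) * (eps k t * vd k) := by ring
      _ = _ := by
        rw [h1]
        refine Finset.sum_congr rfl fun c _ => ?_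
        rw [map_mul, hC]
        ring
  exact mul_left_cancel₀ vd_ne_zero h2

theorem zero_of_Jd (hk : 0 < k) {N : ℕ} {t : MvPolynomial (Fin k) ℚ} (h : eps k t * vd k ∈ Jd k N)
    {S : Type*} [CommRing S] [Algebra ℚ S] (Ψ : MvPolynomial (Fin k) ℚ →ₐ[ℚ] S)
    (hd : Pi (fun j : Fin k => Ψ (MvPolynomial.X j)) ∣ X ^ N) : Ψ t = 0 := by
  classical
  have h1 := congrArg Ψ (expand_eq hk t)
  rw [map_mul, map_sum] at h1
  have h2 : ∀ c ∈ (eps k t * vd k).support, Ψ (MvPolynomial.C (MvPolynomial.coeff c (eps k t * vd k)) *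
        (Matrix.of fun b b' : Fin k => rT k (c b) b'.val).det) = 0 := by
    intro c hc
    rw [MvPolynomial.mem_support_iff] at hc
    have h3 : ∃ b0, N ≤ c b0 := by
      by_contra hcon
      push Not at hcon
      exact hc (h c hcon)
    obtain ⟨b0, hb0⟩ := h3
    rw [map_mul, AlgHom.map_det]
    apply mul_eq_zero_of_right
    apply Matrix.det_eq_zero_of_row_eq_zero b0
    intro b'
    rw [AlgHom.mapMatrix_apply, Matrix.map_apply, Matrix.of_apply]
    have h4 := rT_map (k := k) Ψ.toRingHom (c b0) b'.val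
    have h5 : Ψ (rT k (c b0) b'.val) = ((X ^ (c b0) : S[X]) %ₘ
      Pi (fun j : Fin k => Ψ (MvPolynomial.X j))).coeff b'.val := h4
    rw [h5, (modByMonic_eq_zero_iff_dvd (Pi_monic _)).mpr (hd.trans (pow_dvd_pow X hb0)), coeff_zero]
  rw [Finset.sum_eq_zero h2] at h1
  have h6 : Ψ (MvPolynomial.C (Fintype.card (Equiv.Perm (Fin k)) : ℚ)) * Ψ t
      = (Fintype.card (Equiv.Perm (Fin k)) : ℚ) • Ψ t := by
    rw [← map_mul, ← MvPolynomial.smul_eq_C_mul, map_smul]
  rw [h6] at h1
  rcases smul_eq_zero.mp h1 with h7 | h7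
  · exfalso
    rw [Fintype.card_perm] at h7
    exact Nat.factorial_ne_zero _ (by exact_mod_cast h7)
  · exact h7

/-- the ideal `{g | g Δ ∈ Jd}` -/
def colon (k N : ℕ) : Ideal (MvPolynomial (Fin k) ℚ) where
  carrier := {g | g * vd k ∈ Jd k N}
  add_mem' := by
    intro a b ha hb
    show (a + b) * vd k ∈ Jd k N
    rw [add_mul]
    exact (Jd k N).add_mem ha hb
  zero_mem' := by
    show (0 : MvPolynomial (Fin k) ℚ) * vd k ∈ Jd k N
    rw [zero_mul]
    exact (Jd k N).zero_mem
  smul_mem' := by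
    intro a b hb
    show (a * b) * vd k ∈ Jd k N
    rw [mul_assoc]
    exact (Jd k N).mul_mem_left _ hb

lemma rem_mem_colon (hk : 0 < k) (N : ℕ) (b : Fin k) : eps k (rT k N b.val) ∈ colon k N := by
  show eps k (rT k N b.val) * vd k ∈ Jd k N
  have h1 : (Matrix.vandermonde (MvPolynomial.X : Fin k → MvPolynomial (Fin k) ℚ)).mulVec
      (fun b' : Fin k => eps k (rT k N b'.val)) = fun t => (MvPolynomial.X t) ^ N := by
    ext1 t
    rw [Matrix.mulVec, dotProduct, X_pow_eq_sum hk N t]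
    refine Finset.sum_congr rfl fun b' _ => ?_
    rw [Matrix.vandermonde_apply, mul_comm]
  have h2 := congrFun (congrArg
    ((Matrix.vandermonde (MvPolynomial.X : Fin k → MvPolynomial (Fin k) ℚ)).adjugate.mulVec) h1) b
  rw [Matrix.mulVec_mulVec, Matrix.adjugate_mul, Matrix.smul_mulVec, Matrix.one_mulVec, ← vd_eq,
    Pi.smul_apply, smul_eq_mul, mul_comm] at h2
  rw [h2, Matrix.mulVec, dotProduct]
  exact Ideal.sum_mem _ fun t _ => Ideal.mul_mem_left _ _ (X_pow_mem_Jd N t)

lemma Pi_dvd_colon (hk : 0 < k) (N : ℕ) :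
    Pi (fun j : Fin k => Ideal.Quotient.mk (colon k N) (es (univ : Finset (Fin k)) (j.val + 1)))
      ∣ X ^ N := by
  rcases subsingleton_or_nontrivial (MvPolynomial (Fin k) ℚ ⧸ colon k N) with hs | hn
  · exact ⟨0, Subsingleton.elim _ _⟩
  rw [← modByMonic_eq_zero_iff_dvd (Pi_monic _)]
  ext n
  rw [coeff_zero]
  by_cases hnk : n < k
  · have h2 := rT_map (k := k) ((Ideal.Quotient.mk (colon k N)).comp (eps k).toRingHom) N n
    have h3 : (fun j : Fin k => ((Ideal.Quotient.mk (colon k N)).comp (eps k).toRingHom) (MvPolynomial.X j))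
        = fun j : Fin k => Ideal.Quotient.mk (colon k N) (es (univ : Finset (Fin k)) (j.val + 1)) := by
      funext j
      exact congrArg (Ideal.Quotient.mk (colon k N)) (MvPolynomial.aeval_X _ _)
    rw [h3] at h2
    rw [← h2]
    show Ideal.Quotient.mk (colon k N) (eps k (rT k N n)) = 0
    rw [Ideal.Quotient.eq_zero_iff_mem]
    exact rem_mem_colon hk N ⟨n, hnk⟩
  · apply coeff_eq_zero_of_natDegree_lt
    have h5 := natDegree_modByMonic_lt (X ^ N : (MvPolynomial (Fin k) ℚ ⧸ colon k N)[X])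
      (Pi_monic (fun j : Fin k => Ideal.Quotient.mk (colon k N) (es (univ : Finset (Fin k)) (j.val + 1))))
      (Pi_ne_one hk _)
    rw [Pi_natDegree] at h5
    omega

lemma exists_inv_colon (hk : 0 < k) (ℓ : ℕ) :
    ∃ F : (MvPolynomial (Fin k) ℚ ⧸ colon k (ℓ + k))[X], F.natDegree ≤ ℓ ∧
      F * Bser (fun j : Fin k => Ideal.Quotient.mk (colon k (ℓ + k))
        (es (univ : Finset (Fin k)) (j.val + 1))) = 1 := by
  rcases subsingleton_or_nontrivial (MvPolynomial (Fin k) ℚ ⧸ colon k (ℓ + k)) with hs | hn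
  · exact ⟨0, by simp, Subsingleton.elim _ _⟩
  obtain ⟨q, hq⟩ := Pi_dvd_colon hk (ℓ + k)
  refine inv_of_dvd _ q ?_ (by rw [mul_comm, ← hq])
  have h1 := congrArg natDegree hq
  rw [natDegree_X_pow] at h1
  have hq0 : q ≠ 0 := by
    rintro rfl
    rw [mul_zero] at hq
    exact (monic_X_pow (ℓ + k)).ne_zero hq
  rw [(Pi_monic _).natDegree_mul' hq0, Pi_natDegree] at h1
  omega

end

end Pool.Agent.Lib.RT
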