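import Pool.Agent.Lib.MP_e87f44_co.Hom

set_option autoImplicit false

namespace Pool.Agent.Lib.RT

open Finset Polynomial

section

variable {ℓ k : ℕ}

lemma es_hom (n : ℕ) : (es (univ : Finset (Fin k)) n).IsHomogeneous n := by
  unfold es
  refine MvPolynomial.IsHomogeneous.sum _ _ _ fun S hS => ?_
  have h1 := MvPolynomial.IsHomogeneous.prod S (fun i => (MvPolynomial.X i : MvPolynomial (Fin k) ℚ))
    (fun _ => 1) (fun i _ => MvPolynomial.isHomogeneous_X _ _)
  rw [Finset.mem_powersetCard] at hS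
  rw [Finset.sum_const, smul_eq_mul, mul_one, hS.2] at h1
  exact h1

lemma eps_hom {t : MvPolynomial (Fin k) ℚ} {d : ℕ} (h : MvPolynomial.IsWeightedHomogeneous (wT k) t d) :
    (eps k t).IsHomogeneous d := by
  rw [MvPolynomial.as_sum t, map_sum]
  refine MvPolynomial.IsHomogeneous.sum _ _ _ fun a ha => ?_
  have h1 := h (MvPolynomial.mem_support_iff.mp ha)
  rw [MvPolynomial.monomial_eq, Finsupp.prod_fintype _ _ (fun s => pow_zero _), map_mul, map_prod]
  have h2 : eps k (MvPolynomial.C (MvPolynomial.coeff a t)) = MvPolynomial.C (MvPolynomial.coeff a t) := by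
    unfold eps
    rw [MvPolynomial.aeval_C]
    rfl
  rw [h2]
  apply MvPolynomial.IsHomogeneous.C_mul
  have h3 := MvPolynomial.IsHomogeneous.prod univ
    (fun j => eps k ((MvPolynomial.X j : MvPolynomial (Fin k) ℚ) ^ (a j)))
    (fun j => (j.val + 1) * a j) (fun j _ => by
      rw [map_pow, eps_X]
      exact (es_hom _).pow _)
  have h4 : ∑ j : Fin k, (j.val + 1) * a j = d := by
    rw [← h1, Finsupp.weight_apply, Finsupp.sum_fintype]
    · refine Finset.sum_congr rfl fun j _ => ?_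
      rw [smul_eq_mul, mul_comm]
      rfl
    · intro j; simp
  rw [h4] at h3
  exact h3

lemma sum_val : ∑ i : Fin k, i.val = k * (k - 1) / 2 := by
  rw [← Finset.sum_range_id, Finset.sum_range]

lemma vd_hom : (vd k).IsHomogeneous (k * (k - 1) / 2) := by
  unfold vd
  have h1 := MvPolynomial.IsHomogeneous.prod (univ : Finset (Fin k))
    (fun i => ∏ j ∈ Ioi i, (MvPolynomial.X j - MvPolynomial.X i : MvPolynomial (Fin k) ℚ))
    (fun i => k - 1 - i.val) (fun i _ => by
      have h2 := MvPolynomial.IsHomogeneous.prod (Ioi i)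
        (fun j => (MvPolynomial.X j - MvPolynomial.X i : MvPolynomial (Fin k) ℚ))
        (fun _ => 1) (fun j _ => (MvPolynomial.isHomogeneous_X _ _).sub (MvPolynomial.isHomogeneous_X _ _))
      rw [Finset.sum_const, smul_eq_mul, mul_one, Fin.card_Ioi] at h2
      exact h2)
  have h3 : ∑ i : Fin k, (k - 1 - i.val) = k * (k - 1) / 2 := by
    rw [← Finset.sum_range_id, ← Finset.sum_range_reflect, Finset.sum_range]
  rw [h3] at h1
  exact h1

lemma F_hom {t : MvPolynomial (Fin k) ℚ} {m d : ℕ} (h : t ∈ Wd k m d) :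
    (eps k t * vd k).IsHomogeneous (d + k * (k - 1) / 2) :=
  (eps_hom (mem_Wd.mp h).2).mul vd_hom

lemma F_coeff {t : MvPolynomial (Fin k) ℚ} {m d : ℕ} (h : t ∈ Wd k m d) (a : Fin k →₀ ℕ)
    (ha : MvPolynomial.coeff a (eps k t * vd k) ≠ 0) : ∑ i, a i = d + k * (k - 1) / 2 := by
  by_contra hcon
  apply ha
  apply (F_hom h).coeff_eq_zero
  rw [Finsupp.degree_eq_sum]
  exact hcon

lemma eps_mem_GG {t : MvPolynomial (Fin k) ℚ} {m : ℕ}
    (h : t ∈ MvPolynomial.supported ℚ {j : Fin k | j.val < m}) : eps k t ∈ GG k m := by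
  have h1 : MvPolynomial.supported ℚ {j : Fin k | j.val < m} ≤ (GG k m).comap (eps k) := by
    rw [MvPolynomial.supported, Algebra.adjoin_le_iff]
    rintro _ ⟨j, hj, rfl⟩
    show eps k (MvPolynomial.X j) ∈ GG k m
    rw [eps_X]
    have hj' : j.val < m := hj
    exact GG_mono (by omega) (es_mem_GG (j.val + 1))
  exact h1 h

/-- the good sets -/
def goodS (k m p d : ℕ) : Finset (Finset ℕ) :=
  ((range (k + p + 1)).powersetCard k).filter fun S =>
    k + p ∈ S ∧ (S.filter fun s => s < p).card < m ∧ ∑ s ∈ S, s = d + k * (k - 1) / 2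

/-- the chain of kernels -/
noncomputable def Vl (k m d N : ℕ) : Submodule ℚ (MvPolynomial (Fin k) ℚ) :=
  Wd k m d ⊓ ((Jd k N).restrictScalars ℚ).comap
    ((LinearMap.mulRight ℚ (vd k)) ∘ₗ (eps k).toLinearMap)

lemma mem_Vl {m d N : ℕ} {t : MvPolynomial (Fin k) ℚ} : t ∈ Vl k m d N ↔
    t ∈ Wd k m d ∧ eps k t * vd k ∈ Jd k N := Iff.rfl

lemma exists_perm {a b : Fin k → ℕ} (ha : Function.Injective a)
    (hab : ∀ t, ∃ s, b s = a t) : ∃ e : Equiv.Perm (Fin k), ∀ t, a t = b (e t) := by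
  choose e he using hab
  have hinj : Function.Injective e := by
    intro x y hxy
    apply ha
    rw [← he x, ← he y, hxy]
  refine ⟨Equiv.ofBijective e (Finite.injective_iff_bijective.mp hinj), fun t => ?_⟩
  rw [Equiv.ofBijective_apply, he]

lemma key_zero {m d p : ℕ} (hk : 0 < k) (hm : 1 ≤ m) {t : MvPolynomial (Fin k) ℚ}
    (ht : t ∈ Vl k m d (k + p))
    (h : ∀ S ∈ goodS k m p d, ∃ b : Fin k →₀ ℕ, (∀ s ∈ S, ∃ i, b i = s) ∧
      MvPolynomial.coeff b (eps k t * vd k) = 0) : t ∈ Vl k m d (k + p + 1) := by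
  classical
  rw [mem_Vl] at ht ⊢
  refine ⟨ht.1, core (eps_isSymmetric t) hk hm (eps_mem_GG (mem_Wd.mp ht.1).1) ht.2 ?_⟩
  intro a ha hcard
  by_contra hne
  have halt := IsAlt_mul_vd (eps_isSymmetric t)
  have hinj : Function.Injective a := by
    intro i j hij
    by_contra hcon
    exact hne (halt.coeff_eq_zero a hcon hij)
  have hsum := F_coeff ht.1 a hne
  have htop : ∃ i, a i = k + p := by
    by_contra hcon
    push Not at hcon
    exact hne (ht.2 a fun i => by have := ha i; have := hcon i; omega)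
  have hS : univ.image a ∈ goodS k m p d := by
    unfold goodS
    rw [Finset.mem_filter, Finset.mem_powersetCard]
    refine ⟨⟨?_, ?_⟩, ?_, ?_, ?_⟩
    · intro x hx
      rw [Finset.mem_image] at hx
      obtain ⟨i, _, rfl⟩ := hx
      exact Finset.mem_range.mpr (ha i)
    · rw [Finset.card_image_of_injective _ hinj, Finset.card_univ, Fintype.card_fin]
    · obtain ⟨i, hi⟩ := htop
      exact Finset.mem_image.mpr ⟨i, Finset.mem_univ _, hi⟩
    · rw [Finset.filter_image, Finset.card_image_of_injective _ hinj]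
      exact hcard
    · rw [Finset.sum_image fun x _ y _ hxy => hinj hxy]
      exact hsum
  obtain ⟨b, hb1, hb2⟩ := h _ hS
  obtain ⟨e, he⟩ := exists_perm (b := b) hinj
    (fun i => hb1 (a i) (Finset.mem_image.mpr ⟨i, Finset.mem_univ _, rfl⟩))
  rw [halt.coeff_comp e b a he, hb2, mul_zero] at hne
  exact hne rfl

end

end Pool.Agent.Lib.RT
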