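import Pool.Agent.Lib.MP_e87f44_co.LinA

set_option autoImplicit false

namespace Pool.Agent.Lib.RT

open Finset Polynomial

section

variable {ℓ k : ℕ}

lemma Emd_finite (k m d : ℕ) : (Emd k m d).Finite := by
  refine (Finsupp.finite_of_nat_weight_eq (wT k) (fun j => ?_) d).subset fun a ha => ha.2
  unfold wT
  omega

instance Wd_fin (k m d : ℕ) : Module.Finite ℚ (Wd k m d) := by
  have := (Emd_finite k m d).to_subtype
  exact Module.Finite.of_basis (MvPolynomial.basisRestrictSupport ℚ (Emd k m d))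

lemma finrank_Wd (k m d : ℕ) : Module.finrank ℚ (Wd k m d) = Nat.card (Emd k m d) :=
  Module.finrank_eq_nat_card_basis (MvPolynomial.basisRestrictSupport ℚ (Emd k m d))

instance Vl_fin (k m d N : ℕ) : Module.Finite ℚ (Vl k m d N) :=
  Submodule.finiteDimensional_of_le (S₂ := Wd k m d) inf_le_left

lemma finrank_map {m d : ℕ} (hk : 0 < k) :
    Module.finrank ℚ ((Wd k m d).map (psi ℓ k).toLinearMap) + Module.finrank ℚ (Vl k m d (ℓ + k))
      = Nat.card (Emd k m d) := by
  rw [← finrank_Wd, ← LinearMap.finrank_range_add_finrank_ker ((psi ℓ k).toLinearMap.domRestrict (Wd k m d)),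
    LinearMap.range_domRestrict]
  congr 1
  rw [LinearMap.ker_domRestrict, ← Submodule.finrank_map_subtype_eq (Wd k m d)
    (Submodule.comap (Wd k m d).subtype (LinearMap.ker (psi ℓ k).toLinearMap)),
    Submodule.map_comap_subtype]
  have h : Vl k m d (ℓ + k) = Wd k m d ⊓ LinearMap.ker (psi ℓ k).toLinearMap := by
    ext t
    rw [mem_Vl, Submodule.mem_inf, LinearMap.mem_ker, ← psi_eq_zero_iff hk]
    rfl
  rw [h]

lemma finrank_step {m d p : ℕ} (hk : 0 < k) (hm : 1 ≤ m) :
    Module.finrank ℚ (Vl k m d (k + p)) ≤ Module.finrank ℚ (Vl k m d (k + p + 1))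
      + (goodS k m p d).card := by
  classical
  have hb : ∀ S : goodS k m p d, ∃ b : Fin k →₀ ℕ, ∀ s ∈ S.1, ∃ i, b i = s := by
    rintro ⟨S, hS⟩
    unfold goodS at hS
    rw [Finset.mem_filter, Finset.mem_powersetCard] at hS
    refine ⟨Finsupp.equivFunOnFinite.symm fun i => S.orderEmbOfFin hS.1.2 i, fun s hs => ?_⟩
    have h1 := Finset.range_orderEmbOfFin S hS.1.2
    have h2 : s ∈ Set.range (S.orderEmbOfFin hS.1.2) := by
      rw [h1]
      exact hs
    exact h2
  choose b hb using hb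
  obtain ⟨G, hG⟩ : ∃ G : Vl k m d (k + p) →ₗ[ℚ] (goodS k m p d → ℚ), ∀ t S,
      G t S = MvPolynomial.coeff (b S) (eps k t.1 * vd k) :=
    ⟨LinearMap.pi fun S => (MvPolynomial.lcoeff ℚ (b S)) ∘ₗ (LinearMap.mulRight ℚ (vd k)) ∘ₗ
      (eps k).toLinearMap ∘ₗ (Vl k m d (k + p)).subtype, fun t S => rfl⟩
  have h1 := LinearMap.finrank_range_add_finrank_ker G
  have h2 : Module.finrank ℚ (LinearMap.range G) ≤ (goodS k m p d).card := by
    refine (Submodule.finrank_le _).trans ?_
    rw [Module.finrank_fintype_fun_eq_card, Fintype.card_coe]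
  have h3 : Module.finrank ℚ (LinearMap.ker G) ≤ Module.finrank ℚ (Vl k m d (k + p + 1)) := by
    rw [← Submodule.finrank_map_subtype_eq (Vl k m d (k + p)) (LinearMap.ker G)]
    apply Submodule.finrank_mono
    rintro _ ⟨t, ht, rfl⟩
    apply key_zero hk hm t.2
    intro S hS
    refine ⟨b ⟨S, hS⟩, hb ⟨S, hS⟩, ?_⟩
    have h4 : G t = 0 := ht
    have h5 := congrFun h4 ⟨S, hS⟩
    rw [hG] at h5
    exact h5
  omega

lemma Vl_bot {m d N : ℕ} (hN : d + k * (k - 1) / 2 < N) : Module.finrank ℚ (Vl k m d N) = 0 := by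
  have h : Vl k m d N = ⊥ := by
    rw [eq_bot_iff]
    intro t ht
    rw [mem_Vl] at ht
    rw [Submodule.mem_bot]
    have h1 : eps k t * vd k = 0 := by
      ext a
      rw [MvPolynomial.coeff_zero]
      by_contra hne
      apply hne
      apply ht.2 a
      intro i
      have h2 := F_coeff ht.1 a hne
      have h3 : a i ≤ ∑ i, a i := Finset.single_le_sum (fun _ _ => Nat.zero_le _) (Finset.mem_univ i)
      omega
    rcases mul_eq_zero.mp h1 with h2 | h2
    · rw [← map_zero (eps k)] at h2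
      exact eps_injective h2
    · exact absurd h2 vd_ne_zero
  rw [h, finrank_bot]

lemma Vl_zero {m d : ℕ} (hd : 0 < d) : Module.finrank ℚ (Vl k m d k) = Nat.card (Emd k m d) := by
  rw [← finrank_Wd]
  have h : Vl k m d k = Wd k m d := by
    apply le_antisymm
    · exact inf_le_left
    · intro t ht
      rw [mem_Vl]
      refine ⟨ht, fun a ha => ?_⟩
      by_contra hne
      have halt := IsAlt_mul_vd (eps_isSymmetric t)
      have hinj : Function.Injective a := by
        intro i j hij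
        by_contra hcon
        exact hne (halt.coeff_eq_zero a hcon hij)
      obtain ⟨e, he⟩ := exists_perm (b := fun i : Fin k => i.val) hinj (fun i => ⟨⟨a i, ha i⟩, rfl⟩)
      have h2 := F_coeff ht a hne
      rw [Finset.sum_congr rfl fun i _ => he i, Equiv.sum_comp e (fun i : Fin k => i.val), sum_val] at h2
      omega
  rw [h]

lemma card_Emd_zero (k m : ℕ) : Nat.card (Emd k m 0) = 1 := by
  have h : Emd k m 0 = {0} := by
    ext a
    rw [Set.mem_singleton_iff]
    constructor
    · rintro ⟨_, h2⟩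
      ext j
      have h3 : a j ≤ Finsupp.weight (wT k) a :=
        Finsupp.le_weight (wT k) (by unfold wT; omega) a
      rw [Finsupp.coe_zero, Pi.zero_apply]
      omega
    · rintro rfl
      exact ⟨fun _ _ => rfl, map_zero _⟩
  rw [h]
  simp

/-- the numerical consequence -/
theorem finrank_le {m d : ℕ} (hk : 0 < k) (hm : 1 ≤ m) (hℓ : ∀ L, d + k ≤ L →
    (if d = 0 then 1 else 0) + ∑ p ∈ range L, (goodS k m p d).card = Nat.card (Emd k m d)) (ℓ : ℕ) :
    Module.finrank ℚ ((Wd k m d).map (psi ℓ k).toLinearMap)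
      = (if d = 0 then 1 else 0) + ∑ p ∈ range ℓ, (goodS k m p d).card := by
  obtain ⟨c, hc⟩ : ∃ c : ℕ → ℕ, ∀ p, c p = Module.finrank ℚ (Vl k m d (k + p)) := ⟨_, fun _ => rfl⟩
  have hstep : ∀ p, c p ≤ c (p + 1) + (goodS k m p d).card := by
    intro p
    rw [hc, hc]
    exact finrank_step hk hm
  -- upper bound on c by summation
  have hup : ∀ n p, c p ≤ c (p + n) + ∑ q ∈ range n, (goodS k m (p + q) d).card := by
    intro n
    induction n with
    | zero => intro p; simp
    | succ n ih =>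
      intro p
      have h1 := ih p
      have h2 := hstep (p + n)
      rw [Finset.sum_range_succ]
      rw [← add_assoc p n 1]
      omega
  obtain ⟨L, hL⟩ : ∃ L, L = d + k * (k - 1) / 2 + k + 1 + ℓ := ⟨_, rfl⟩
  have hL0 : c L = 0 := by
    rw [hc]
    apply Vl_bot
    omega
  have hsum := hℓ L (by omega)
  have hc0 : Nat.card (Emd k m d) ≤ c 0 + (if d = 0 then 1 else 0) := by
    rcases Nat.eq_zero_or_pos d with h0 | hpos
    · subst h0
      rw [card_Emd_zero, if_pos rfl]
      omega
    · rw [hc, add_zero, Vl_zero hpos]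
      omega
  have h1 := hup ℓ 0
  have h2 := hup (L - ℓ) ℓ
  have h3 : ℓ + (L - ℓ) = L := by omega
  rw [h3, hL0] at h2
  simp only [zero_add] at h1 h2
  have h4 : ∑ p ∈ range L, (goodS k m p d).card
      = ∑ p ∈ range ℓ, (goodS k m p d).card + ∑ q ∈ range (L - ℓ), (goodS k m (ℓ + q) d).card := by
    conv_lhs => rw [← h3]
    rw [Finset.sum_range_add]
  have h5 := finrank_map (ℓ := ℓ) (m := m) (d := d) hk
  have h6 : Module.finrank ℚ (Vl k m d (ℓ + k)) = c ℓ := by rw [hc, add_comm]
  rw [h6] at h5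
  have h7 : 0 ≤ (if d = 0 then 1 else 0) := Nat.zero_le _
  omega

end

end Pool.Agent.Lib.RT
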