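import Pool.Agent.Lib.MP_e87f44_co.Rhs

set_option autoImplicit false

namespace Pool.Agent.Lib.RT

open Finset Polynomial

section

variable {ℓ k : ℕ}

lemma R_nontrivial (ℓ k : ℕ) : Nontrivial (MvPolynomial (Fin ℓ ⊕ Fin k) ℚ ⧸ relI ℓ k) := by
  obtain ⟨Φ, _⟩ := exists_lift (ℓ := ℓ) (k := k) (S := ℚ) (fun _ => 0) 1 (by simp) (by
    unfold Bser
    rw [one_mul, Finset.sum_eq_zero, add_zero]
    intro j _
    rw [map_zero, zero_mul])
  exact Φ.toRingHom.domain_nontrivial

lemma case_zero (ℓ k d : ℕ) :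
    Module.finrank ℚ ((Wd k 0 d).map (psi ℓ k).toLinearMap) = if d = 0 then 1 else 0 := by
  split_ifs with h
  · subst h
    have h1 : Wd k 0 0 = ℚ ∙ (1 : MvPolynomial (Fin k) ℚ) := by
      have h2 : Emd k 0 0 = {0} := by
        ext a
        rw [Set.mem_singleton_iff]
        constructor
        · rintro ⟨h3, _⟩
          ext j
          exact h3 j (Nat.zero_le _)
        · rintro rfl
          exact ⟨fun _ _ => rfl, map_zero _⟩
      unfold Wd
      rw [MvPolynomial.restrictSupport_eq_span, h2, Set.image_singleton]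
      rfl
    rw [h1, Submodule.map_span, Set.image_singleton]
    have h4 : (psi ℓ k).toLinearMap 1 = 1 := map_one (psi ℓ k)
    rw [h4]
    have := R_nontrivial ℓ k
    exact finrank_span_singleton one_ne_zero
  · have h1 : Wd k 0 d = ⊥ := by
      have h2 : Emd k 0 d = ∅ := by
        ext a
        constructor
        · rintro ⟨h3, h4⟩
          have h5 : a = 0 := by
            ext j
            exact h3 j (Nat.zero_le _)
          rw [h5, map_zero] at h4
          exact absurd h4.symm h
        · intro h3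
          exact absurd h3 (Set.notMem_empty _)
      unfold Wd
      rw [MvPolynomial.restrictSupport_eq_span, h2, Set.image_empty, Submodule.span_empty]
    rw [h1, Submodule.map_bot, finrank_bot]

theorem main (qb : ℕ → ℕ → Polynomial ℕ)
    (hqb : ∀ n r : ℕ, qb n r = ∑ S ∈ (Finset.univ : Finset (Fin n)).powersetCard r,
        (Polynomial.X : Polynomial ℕ) ^ ((∑ s ∈ S, (s : ℕ)) - r * (r - 1) / 2))
    (ℓ k m : ℕ) (hm : m ≤ min k ℓ) (d : ℕ) :
    Module.finrank ℚ ↥(Subalgebra.toSubmodule (subA ℓ k m)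
      ⊓ Submodule.map (Ideal.Quotient.mkₐ ℚ (relI ℓ k)).toLinearMap
          (MvPolynomial.weightedHomogeneousSubmodule ℚ (ww ℓ k) d))
    = (1 + ∑ i ∈ Finset.Icc 1 m, (Polynomial.X : Polynomial ℕ) ^ i * qb k i *
          ∑ j ∈ Finset.range (ℓ - i + 1),
            (Polynomial.X : Polynomial ℕ) ^ (j * (k - i + 1)) * qb (i + j - 1) j).coeff d := by
  have hmk : m ≤ k := le_trans hm (min_le_left _ _)
  have hmℓ : m ≤ ℓ := le_trans hm (min_le_right _ _)
  rw [inf_eq_map hmk d]
  rcases Nat.eq_zero_or_pos m with h0 | hpos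
  · subst h0
    rw [case_zero]
    simp only [Finset.Icc_eq_empty_of_lt (Nat.zero_lt_one), Finset.sum_empty, add_zero, coeff_one]
  · have h1 := finrank_le (k := k) (m := m) (d := d) (by omega) hpos
      (fun L hL => count_large hmk hL) ℓ
    have h2 := count (k := k) (m := m) (L := ℓ) hmk hmℓ d
    have h3 := rhs hqb (k := k) (m := m) (ℓ := ℓ) hmℓ d
    rw [h1]
    have h4 := h2.trans h3.symm
    exact_mod_cast h4

end

end Pool.Agent.Lib.RT
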