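import Pool.Agent.Lib.MP_e87f44_co.Coef

set_option autoImplicit false

namespace Pool.Agent.Lib.RT

open Finset Polynomial

section

variable {k : ℕ}

lemma HH_eval_num (M : ℕ) (u : ℚ) :
    (HH M (MvPolynomial.X : Fin k → MvPolynomial (Fin k) ℚ)).eval (algebraMap ℚ _ u)
      = ∏ t, aeval (MvPolynomial.X t : MvPolynomial (Fin k) ℚ) (Gn M u) := by
  rw [HH_eval]
  exact Finset.prod_congr rfl fun t _ => (aeval_Gn u _).symm

lemma EE_eval_num (v : ℚ) :
    (EE (MvPolynomial.X : Fin k → MvPolynomial (Fin k) ℚ)).eval (algebraMap ℚ _ v)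
      = ∏ t, aeval (MvPolynomial.X t : MvPolynomial (Fin k) ℚ) (1 + C v * X : ℚ[X]) := by
  rw [EE_eval]
  refine Finset.prod_congr rfl fun t _ => ?_
  rw [map_add, map_one, map_mul, aeval_C, aeval_X]

lemma prod_one_sub (M : ℕ) {q : ℕ} (u : Fin q → ℚ) :
    ∃ R : ℚ[X], ∏ i, (1 - (C (u i) * X) ^ (M + 1)) = 1 + X ^ (M + 1) * R := by
  classical
  suffices h : ∀ s : Finset (Fin q), ∃ R : ℚ[X],
      ∏ i ∈ s, (1 - (C (u i) * X) ^ (M + 1)) = 1 + X ^ (M + 1) * R from h univ
  intro s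
  induction s using Finset.induction_on with
  | empty => exact ⟨0, by simp⟩
  | insert a s ha ih =>
    obtain ⟨R, hR⟩ := ih
    refine ⟨R - (C (u a)) ^ (M + 1) * (1 + X ^ (M + 1) * R), ?_⟩
    rw [Finset.prod_insert ha, hR, mul_pow]
    ring

lemma om_mul_zz_coeff (M : ℕ) {q : ℕ} (u : Fin q → ℚ) (v : Fin (q + 1) → ℚ) {n : ℕ} (h1 : q + 1 < n)
    (h2 : n ≤ M) :
    ((∏ i, (1 - C (u i) * X)) * ((∏ i, Gn M (u i)) * ∏ j, (1 + C (v j) * X)) : ℚ[X]).coeff n = 0 := by
  have h3 : (∏ i, (1 - C (u i) * X)) * ((∏ i, Gn M (u i)) * ∏ j, (1 + C (v j) * X))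
      = (∏ i, (1 - (C (u i) * X) ^ (M + 1))) * ∏ j, (1 + C (v j) * X : ℚ[X]) := by
    rw [← mul_assoc, ← Finset.prod_mul_distrib]
    congr 1
    refine Finset.prod_congr rfl fun i _ => ?_
    unfold Gn
    exact mul_neg_geom_sum _ _
  obtain ⟨R, hR⟩ := prod_one_sub M u
  have h4 : (∏ j, (1 + C (v j) * X : ℚ[X])).natDegree ≤ q + 1 := by
    have h5 : ∀ j : Fin (q + 1), (1 + C (v j) * X : ℚ[X]).natDegree ≤ 1 := by
      intro l
      refine (natDegree_add_le _ _).trans ?_
      simp only [natDegree_one, sup_le_iff, zero_le, true_and]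
      exact (natDegree_C_mul_le _ _).trans natDegree_X_le
    refine (natDegree_prod_le _ _).trans ((Finset.sum_le_sum fun j _ => h5 j).trans ?_)
    simp
  rw [h3, hR, add_mul, one_mul, coeff_add, coeff_eq_zero_of_natDegree_lt (by omega), zero_add,
    mul_assoc, coeff_X_pow_mul', if_neg (by omega)]

lemma prod_sub_natDegree {q : ℕ} (u : Fin q → ℚ) : (∏ i, (1 - C (u i) * X) : ℚ[X]).natDegree ≤ q := by
  have h5 : ∀ j : Fin q, (1 - C (u j) * X : ℚ[X]).natDegree ≤ 1 := by
    intro l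
    refine (natDegree_sub_le _ _).trans ?_
    simp only [natDegree_one, sup_le_iff, zero_le, true_and]
    exact (natDegree_C_mul_le _ _).trans natDegree_X_le
  refine (natDegree_prod_le _ _).trans ((Finset.sum_le_sum fun j _ => h5 j).trans ?_)
  simp

/-- the family of polynomials -/
noncomputable def Pb (k : ℕ) {q : ℕ} (u : Fin q → ℚ) (b : Fin k) : ℚ[X] :=
  if b.val + q < k then X ^ b.val * ∏ i, (1 - C (u i) * X) else X ^ b.val

lemma Pb_det {q : ℕ} (u : Fin q → ℚ) :
    (Matrix.of fun b t : Fin k => aeval (MvPolynomial.X t : MvPolynomial (Fin k) ℚ) (Pb k u b)).det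
      = vd k := by
  apply vd_eq_det
  · intro b
    unfold Pb
    split_ifs with h
    · refine natDegree_mul_le.trans_lt ?_
      have := prod_sub_natDegree u
      rw [natDegree_X_pow]
      omega
    · rw [natDegree_X_pow]
      exact b.isLt
  · intro b b' hbb
    have hbb' : b'.val < b.val := hbb
    unfold Pb
    split_ifs with h
    · rw [coeff_X_pow_mul', if_neg (by omega)]
    · rw [coeff_X_pow, if_neg (by omega)]
  · intro b
    unfold Pb
    split_ifs with h
    · rw [coeff_X_pow_mul', if_pos le_rfl, Nat.sub_self, coeff_zero_eq_eval_zero, eval_prod]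
      refine Finset.prod_eq_one fun i _ => ?_
      simp
    · rw [coeff_X_pow, if_pos rfl]

lemma MON_num (M q : ℕ) (c : Fin k →₀ ℕ) (hc : ∀ t, c t ≤ M)
    (hcard : q + 1 ≤ (univ.filter fun t => k + 1 ≤ c t).card) (u : Fin q → ℚ) (v : Fin (q + 1) → ℚ) :
    MvPolynomial.coeff c (vd k *
      ((∏ i, (HH M (MvPolynomial.X : Fin k → MvPolynomial (Fin k) ℚ)).eval (algebraMap ℚ _ (u i))) *
        ∏ j, (EE (MvPolynomial.X : Fin k → MvPolynomial (Fin k) ℚ)).eval (algebraMap ℚ _ (v j)))) = 0 := by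
  classical
  have h1 : ((∏ i, (HH M (MvPolynomial.X : Fin k → MvPolynomial (Fin k) ℚ)).eval (algebraMap ℚ _ (u i))) *
        ∏ j, (EE (MvPolynomial.X : Fin k → MvPolynomial (Fin k) ℚ)).eval (algebraMap ℚ _ (v j)))
      = ∏ t, aeval (MvPolynomial.X t : MvPolynomial (Fin k) ℚ)
          ((∏ i, Gn M (u i)) * ∏ j, (1 + C (v j) * X) : ℚ[X]) := by
    simp only [map_mul, map_prod]
    rw [Finset.prod_mul_distrib, Finset.prod_comm, Finset.prod_comm (s := (univ : Finset (Fin k)))]
    congr 1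
    · refine Finset.prod_congr rfl fun i _ => ?_
      rw [HH_eval_num]
    · refine Finset.prod_congr rfl fun i _ => ?_
      rw [EE_eval_num]
  obtain ⟨zz, hzz⟩ : ∃ zz, zz = ((∏ i, Gn M (u i)) * ∏ j, (1 + C (v j) * X) : ℚ[X]) := ⟨_, rfl⟩
  rw [h1, ← hzz, mul_comm, ← Pb_det u, ← Matrix.det_mul_row]
  have h2 : (Matrix.of fun i j : Fin k => aeval (MvPolynomial.X j : MvPolynomial (Fin k) ℚ) zz *
      (Matrix.of fun b t : Fin k => aeval (MvPolynomial.X t : MvPolynomial (Fin k) ℚ) (Pb k u b)) i j)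
      = Matrix.of fun b t : Fin k => aeval (MvPolynomial.X t : MvPolynomial (Fin k) ℚ) (Pb k u b * zz) := by
    ext1 b t
    rw [Matrix.of_apply, Matrix.of_apply, Matrix.of_apply, map_mul, mul_comm]
  rw [h2, coeff_det_aeval, Matrix.det_apply']
  refine Finset.sum_eq_zero fun σ _ => ?_
  have h3 : ∃ t, k + 1 ≤ c t ∧ (σ t).val + q < k := by
    by_contra hcon
    push Not at hcon
    have h4 : ((univ.filter fun t => k + 1 ≤ c t).card) ≤ (range q).card := by
      apply Finset.card_le_card_of_injOn (fun t => (σ t).val + q - k)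
      · intro t ht
        have h5 : k + 1 ≤ c t := (Finset.mem_filter.mp (Finset.mem_coe.mp ht)).2
        have h6 := hcon t h5
        have h7 := (σ t).isLt
        rw [Finset.mem_coe, Finset.mem_range]
        show (σ t).val + q - k < q
        omega
      · intro t ht t' ht' htt
        have h5 : k + 1 ≤ c t := (Finset.mem_filter.mp (Finset.mem_coe.mp ht)).2
        have h5' : k + 1 ≤ c t' := (Finset.mem_filter.mp (Finset.mem_coe.mp ht')).2
        have h6 := hcon t h5
        have h6' := hcon t' h5'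
        have htt' : (σ t).val + q - k = (σ t').val + q - k := htt
        have h8 : (σ t).val = (σ t').val := by omega
        exact σ.injective (Fin.ext h8)
    rw [Finset.card_range] at h4
    omega
  obtain ⟨t, ht1, ht2⟩ := h3
  apply mul_eq_zero_of_right
  apply Finset.prod_eq_zero (Finset.mem_univ t)
  rw [Matrix.of_apply]
  unfold Pb
  rw [if_pos ht2, mul_assoc, coeff_X_pow_mul']
  split_ifs with h5
  · rw [hzz]
    apply om_mul_zz_coeff
    · omega
    · have := hc t
      omega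
  · rfl

theorem MON (M q : ℕ) (c : Fin k →₀ ℕ) (hc : ∀ t, c t ≤ M)
    (hcard : q + 1 ≤ (univ.filter fun t => k + 1 ≤ c t).card) (α : Fin q → ℕ) (β : Fin (q + 1) → ℕ) :
    MvPolynomial.coeff c (vd k *
      ((∏ i, (HH M (MvPolynomial.X : Fin k → MvPolynomial (Fin k) ℚ)).coeff (α i)) *
        ∏ j, (EE (MvPolynomial.X : Fin k → MvPolynomial (Fin k) ℚ)).coeff (β j))) = 0 := by
  have h := coef_extract (S := MvPolynomial (Fin k) ℚ)
    (Sum.elim (fun _ : Fin q => HH M (MvPolynomial.X : Fin k → MvPolynomial (Fin k) ℚ))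
      (fun _ : Fin (q + 1) => EE (MvPolynomial.X : Fin k → MvPolynomial (Fin k) ℚ)))
    ((MvPolynomial.lcoeff ℚ c) ∘ₗ (LinearMap.mulLeft ℚ (vd k))) ?_ (Sum.elim α β)
  · rw [Fintype.prod_sum_type] at h
    exact h
  · intro u
    rw [Fintype.prod_sum_type]
    exact MON_num M q c hc hcard (fun i => u (Sum.inl i)) (fun i => u (Sum.inr i))

end

end Pool.Agent.Lib.RT
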