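import Mathlib

set_option autoImplicit false

namespace Pool.Agent.Lib.RT

open Finset

section

variable {R : Type*} [CommRing R] (q : R)

/-- Gaussian binomial coefficients by the Pascal recursion -/
def gb (q : R) : ℕ → ℕ → R
  | _, 0 => 1
  | 0, _ + 1 => 0
  | n + 1, r + 1 => gb q n (r + 1) + q ^ (n - r) * gb q n r

@[simp] lemma gb_zero (n : ℕ) : gb q n 0 = 1 := by cases n <;> rfl

lemma gb_succ (n r : ℕ) : gb q (n + 1) (r + 1) = gb q n (r + 1) + q ^ (n - r) * gb q n r := rfl

lemma gb_eq_zero {n r : ℕ} (h : n < r) : gb q n r = 0 := by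
  induction n generalizing r with
  | zero =>
    cases r with
    | zero => omega
    | succ r => rfl
  | succ n ih =>
    cases r with
    | zero => omega
    | succ r => rw [gb_succ, ih (by omega), ih (by omega), mul_zero, add_zero]

/-- elementary symmetric polynomials of `1, q, ..., q^(n-1)` -/
def elq (q : R) (n r : ℕ) : R := ∑ S ∈ (range n).powersetCard r, q ^ (∑ s ∈ S, s)

@[simp] lemma elq_zero (n : ℕ) : elq q n 0 = 1 := by simp [elq]

lemma elq_zero_succ (r : ℕ) : elq q 0 (r + 1) = 0 := by
  unfold elq
  rw [Finset.range_zero, Finset.powersetCard_eq_empty.2 (by simp), Finset.sum_empty]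

lemma elq_succ (n r : ℕ) : elq q (n + 1) (r + 1) = elq q n (r + 1) + q ^ n * elq q n r := by
  unfold elq
  rw [Finset.range_add_one, Finset.powersetCard_succ_insert Finset.notMem_range_self,
    Finset.sum_union, Finset.sum_image, Finset.mul_sum]
  · congr 1
    refine Finset.sum_congr rfl fun S hS => ?_
    rw [Finset.mem_powersetCard] at hS
    rw [Finset.sum_insert fun h => Finset.notMem_range_self (hS.1 h), pow_add]
  · intro S hS T hT hST
    rw [Finset.mem_coe, Finset.mem_powersetCard] at hS hT
    have h1 : n ∉ S := fun h => Finset.notMem_range_self (hS.1 h)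
    have h2 : n ∉ T := fun h => Finset.notMem_range_self (hT.1 h)
    rw [← Finset.erase_insert h1, ← Finset.erase_insert h2, hST]
  · rw [Finset.disjoint_left]
    intro S hS hS'
    rw [Finset.mem_image] at hS'
    obtain ⟨T, _, rfl⟩ := hS'
    rw [Finset.mem_powersetCard] at hS
    exact Finset.notMem_range_self (hS.1 (Finset.mem_insert_self _ _))

lemma choose_two_succ (r : ℕ) : (r + 1) * (r + 1 - 1) / 2 = r * (r - 1) / 2 + r := by
  rw [← Finset.sum_range_id, ← Finset.sum_range_id, Finset.sum_range_succ]

lemma elq_eq (n r : ℕ) : elq q n r = q ^ (r * (r - 1) / 2) * gb q n r := by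
  induction n generalizing r with
  | zero =>
    cases r with
    | zero => simp
    | succ r => rw [elq_zero_succ, gb_eq_zero q (by omega), mul_zero]
  | succ n ih =>
    cases r with
    | zero => simp
    | succ r =>
      rw [elq_succ, ih, ih, gb_succ]
      rcases Nat.lt_or_ge n r with h | h
      · rw [gb_eq_zero q h, gb_eq_zero q (by omega : n < r + 1)]
        ring
      · rw [mul_add, ← mul_assoc, ← mul_assoc, ← pow_add, ← pow_add, choose_two_succ]
        congr 3
        omega

/-- `(1-q)...(1-q^n)` -/
def PP (q : R) (n : ℕ) : R := ∏ s ∈ range n, (1 - q ^ (s + 1))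

@[simp] lemma PP_zero : PP q 0 = 1 := by simp [PP]

lemma PP_succ (n : ℕ) : PP q (n + 1) = PP q n * (1 - q ^ (n + 1)) := by
  unfold PP
  rw [Finset.prod_range_succ]

lemma gb_prod (n : ℕ) : ∀ a b : ℕ, a + b = n → gb q (a + b) a * PP q a * PP q b = PP q (a + b) := by
  induction n with
  | zero =>
    intro a b h
    obtain ⟨rfl, rfl⟩ : a = 0 ∧ b = 0 := by omega
    simp
  | succ n ih =>
    intro a b h
    cases a with
    | zero => simp
    | succ a =>
      cases b with
      | zero =>
        have h1 := ih a 0 (by omega)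
        rw [add_zero, PP_zero, mul_one] at h1 ⊢
        rw [gb_succ, gb_eq_zero q (by omega : a < a + 1), zero_add, Nat.sub_self, pow_zero, one_mul,
          PP_succ, ← mul_assoc, h1]
      | succ b =>
        have h1 := ih (a + 1) b (by omega)
        have h2 := ih a (b + 1) (by omega)
        have e1 : a + 1 + (b + 1) = (a + b + 1) + 1 := by omega
        have e2 : a + 1 + b = a + b + 1 := by omega
        have e3 : a + (b + 1) = a + b + 1 := by omega
        have e4 : a + b + 1 - a = b + 1 := by omega
        rw [e2] at h1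
        rw [e3] at h2
        rw [e1, gb_succ, e4, PP_succ q (a + b + 1), PP_succ q a, PP_succ q b]
        rw [PP_succ] at h1 h2
        have e5 : q ^ (a + b + 1 + 1) = q ^ (b + 1) * q ^ (a + 1) := by
          rw [← pow_add]
          congr 1
          omega
        rw [e5]
        linear_combination (1 - q ^ (b + 1)) * h1 + q ^ (b + 1) * (1 - q ^ (a + 1)) * h2

/-- truncated generating function of complete symmetric polynomials -/
def FF (q : R) (a i J : ℕ) : R := ∑ j ∈ range J, q ^ (j * a) * gb q (i + j - 1) j

lemma FF_succ (a i J : ℕ) : (1 - q ^ (a + i)) * FF q a (i + 1) (J + 1)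
    = FF q a i (J + 1) - q ^ (a + i + J * a) * gb q (i + J) J := by
  induction J with
  | zero => simp [FF]
  | succ J ih =>
    have h1 : FF q a (i + 1) (J + 1 + 1) = FF q a (i + 1) (J + 1)
        + q ^ ((J + 1) * a) * gb q (i + J + 1) (J + 1) := by
      unfold FF
      rw [Finset.sum_range_succ]
      congr 3
      omega
    have h2 : FF q a i (J + 1 + 1) = FF q a i (J + 1)
        + q ^ ((J + 1) * a) * gb q (i + J) (J + 1) := by
      unfold FF
      rw [Finset.sum_range_succ]
      congr 3
    have h3 := gb_succ q (i + J) J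
    have e1 : i + J - J = i := by omega
    rw [e1] at h3
    rw [h1, h2, mul_add, ih, ← add_assoc i J 1, h3]
    have e2 : q ^ (a + i + J * a) = q ^ i * q ^ ((J + 1) * a) := by
      rw [← pow_add]
      congr 1
      ring
    have e3 : q ^ (a + i + (J + 1) * a) = q ^ (a + i) * q ^ ((J + 1) * a) := by
      rw [← pow_add]
    rw [e2, e3]
    ring

end

end Pool.Agent.Lib.RT
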