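import Pool.Agent.Lib.MP_e87f44_co.QBin
import Pool.Agent.Lib.MP_e87f44_co.LinB

set_option autoImplicit false

namespace Pool.Agent.Lib.RT

open Finset

section


lemma PP_ne_zero (n : ℕ) : PP (PowerSeries.X : PowerSeries ℤ) n ≠ 0 := by
  intro h
  have h1 := congrArg PowerSeries.constantCoeff h
  unfold PP at h1
  rw [map_prod, map_zero] at h1
  have h2 : ∏ x ∈ range n, PowerSeries.constantCoeff (1 - (PowerSeries.X : PowerSeries ℤ) ^ (x + 1)) = 1 := by
    refine Finset.prod_eq_one fun x _ => ?_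
    simp
  rw [h2] at h1
  exact one_ne_zero h1

lemma gb_symm (a b : ℕ) : gb (PowerSeries.X : PowerSeries ℤ) (a + b) a
    = gb (PowerSeries.X : PowerSeries ℤ) (a + b) b := by
  have h1 := gb_prod (PowerSeries.X : PowerSeries ℤ) (a + b) a b rfl
  have h2 := gb_prod (PowerSeries.X : PowerSeries ℤ) (b + a) b a rfl
  rw [add_comm b a] at h2
  have h3 : gb (PowerSeries.X : PowerSeries ℤ) (a + b) a * (PP PowerSeries.X a * PP PowerSeries.X b)
      = gb (PowerSeries.X : PowerSeries ℤ) (a + b) b * (PP PowerSeries.X a * PP PowerSeries.X b) := by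
    linear_combination h1 - h2
  exact mul_right_cancel₀ (mul_ne_zero (PP_ne_zero a) (PP_ne_zero b)) h3

/-- `∏_{t<i} (1 - q^(a+t))` -/
noncomputable def PT (a i : ℕ) : PowerSeries ℤ := ∏ t ∈ range i, (1 - (PowerSeries.X : PowerSeries ℤ) ^ (a + t))

lemma PT_mul_FF (a i J : ℕ) (ha : 1 ≤ a) :
    (PowerSeries.X : PowerSeries ℤ) ^ (J + 1) ∣ PT a i * FF PowerSeries.X a i (J + 1) - 1 := by
  induction i with
  | zero =>
    have h1 : FF (PowerSeries.X : PowerSeries ℤ) a 0 (J + 1) = 1 := by
      unfold FF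
      rw [Finset.sum_range_succ', Finset.sum_eq_zero]
      · simp
      · intro j _
        rw [gb_eq_zero _ (by omega), mul_zero]
    have h2 : PT a 0 = 1 := by simp [PT]
    rw [h1, h2, mul_one, sub_self]
    exact dvd_zero _
  | succ i ih =>
    have h1 := FF_succ (PowerSeries.X : PowerSeries ℤ) a i J
    have h2 : PT a (i + 1) = PT a i * (1 - PowerSeries.X ^ (a + i)) := by
      unfold PT
      rw [Finset.prod_range_succ]
    have h3 : PT a (i + 1) * FF PowerSeries.X a (i + 1) (J + 1) - 1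
        = (PT a i * FF PowerSeries.X a i (J + 1) - 1) -
          PowerSeries.X ^ (a + i + J * a) * (PT a i * gb PowerSeries.X (i + J) J) := by
      rw [h2]
      linear_combination PT a i * h1
    rw [h3]
    apply dvd_sub ih
    apply Dvd.dvd.mul_right
    apply pow_dvd_pow
    have : J ≤ J * a := Nat.le_mul_of_pos_right J ha
    omega

lemma gb_mul_PP {k i : ℕ} (h : i ≤ k) : gb (PowerSeries.X : PowerSeries ℤ) k i * PP PowerSeries.X i
    = PT (k - i + 1) i := by
  have h1 := gb_prod (PowerSeries.X : PowerSeries ℤ) k i (k - i) (by omega)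
  have h2 : i + (k - i) = k := by omega
  rw [h2] at h1
  have h3 : PP (PowerSeries.X : PowerSeries ℤ) k = PP PowerSeries.X (k - i) * PT (k - i + 1) i := by
    have h4 : PP (PowerSeries.X : PowerSeries ℤ) (k - i + i) = PP PowerSeries.X (k - i) * PT (k - i + 1) i := by
      unfold PP PT
      rw [Finset.prod_range_add]
      congr 1
      refine Finset.prod_congr rfl fun t _ => ?_
      congr 2
      omega
    have h5 : k - i + i = k := by omega
    rwa [h5] at h4
  rw [h3] at h1
  apply mul_left_cancel₀ (PP_ne_zero (k - i))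
  rw [← h1]
  ring

/-- the `i`-th summand -/
noncomputable def TT (k i J : ℕ) : PowerSeries ℤ :=
  PowerSeries.X ^ i * gb PowerSeries.X k i * FF PowerSeries.X (k - i + 1) i J

lemma TT_congr {k i J N : ℕ} (hi : i ≤ k) (hN : N ≤ J) (hJ : 1 ≤ J) :
    (PowerSeries.X : PowerSeries ℤ) ^ N ∣ PP PowerSeries.X i * TT k i J - PowerSeries.X ^ i := by
  obtain ⟨J, rfl⟩ : ∃ J', J = J' + 1 := ⟨J - 1, by omega⟩
  have h1 := (pow_dvd_pow (PowerSeries.X : PowerSeries ℤ) hN).trans (PT_mul_FF (k - i + 1) i J (by omega))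
  have h2 : PP PowerSeries.X i * TT k i (J + 1) - PowerSeries.X ^ i
      = PowerSeries.X ^ i * (PT (k - i + 1) i * FF PowerSeries.X (k - i + 1) i (J + 1) - 1) := by
    unfold TT
    rw [← gb_mul_PP hi]
    ring
  rw [h2]
  exact Dvd.dvd.mul_left h1 _

lemma sum_TT_congr {k N : ℕ} (J : ℕ → ℕ) (m : ℕ) (hm : m ≤ k) (hJ : ∀ i, i ≤ m → N ≤ J i ∧ 1 ≤ J i) :
    (PowerSeries.X : PowerSeries ℤ) ^ N ∣ PP PowerSeries.X m * (1 + ∑ i ∈ range m, TT k (i + 1) (J (i + 1))) - 1 := by
  induction m with
  | zero => simp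
  | succ m ih =>
    have h1 := ih (by omega) (fun i hi => hJ i (by omega))
    have h2 := TT_congr (k := k) (i := m + 1) (J := J (m + 1)) (N := N) hm (hJ (m + 1) le_rfl).1
      (hJ (m + 1) le_rfl).2
    have h3 : PP PowerSeries.X (m + 1) * (1 + ∑ i ∈ range (m + 1), TT k (i + 1) (J (i + 1))) - 1
        = (1 - PowerSeries.X ^ (m + 1)) *
          (PP PowerSeries.X m * (1 + ∑ i ∈ range m, TT k (i + 1) (J (i + 1))) - 1)
          + (PP PowerSeries.X (m + 1) * TT k (m + 1) (J (m + 1)) - PowerSeries.X ^ (m + 1)) := by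
      rw [Finset.sum_range_succ, PP_succ]
      ring
    rw [h3]
    exact dvd_add (Dvd.dvd.mul_left h1 _) h2

lemma card_Emd_succ {k m d : ℕ} (hm : m < k) : Nat.card (Emd k (m + 1) d)
    = Nat.card (Emd k m d) + if m + 1 ≤ d then Nat.card (Emd k (m + 1) (d - (m + 1))) else 0 := by
  classical
  have hw : ∀ a : Fin k →₀ ℕ, Finsupp.weight (wT k) (a + Finsupp.single ⟨m, hm⟩ 1)
      = Finsupp.weight (wT k) a + (m + 1) := by
    intro a
    rw [map_add, Finsupp.weight_single]
    simp [wT]
  have hsplit : Emd k (m + 1) d = Emd k m d ∪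
      (if m + 1 ≤ d then (fun a => a + Finsupp.single (⟨m, hm⟩ : Fin k) 1) '' (Emd k (m + 1) (d - (m + 1)))
        else ∅) := by
    ext a
    constructor
    · rintro ⟨h1, h2⟩
      by_cases h0 : a ⟨m, hm⟩ = 0
      · left
        refine ⟨fun j hj => ?_, h2⟩
        rcases Nat.lt_or_ge m j.val with h3 | h3
        · exact h1 j h3
        · have : j = ⟨m, hm⟩ := Fin.ext (by simp only []; omega)
          rw [this, h0]
      · right
        have h4 : Finsupp.single (⟨m, hm⟩ : Fin k) 1 ≤ a := by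
          rw [Finsupp.single_le_iff]
          omega
        obtain ⟨b, hb⟩ : ∃ b, b = a - Finsupp.single (⟨m, hm⟩ : Fin k) 1 := ⟨_, rfl⟩
        have h5 : b + Finsupp.single (⟨m, hm⟩ : Fin k) 1 = a := by
          rw [hb]
          exact tsub_add_cancel_of_le h4
        have h6 := hw b
        rw [h5, h2] at h6
        rw [if_pos (by omega)]
        refine ⟨b, ⟨fun j hj => ?_, by omega⟩, h5⟩
        rw [hb, Finsupp.coe_tsub, Pi.sub_apply, h1 j hj, Nat.zero_sub]
    · rintro (h | h)
      · exact ⟨fun j hj => h.1 j (by omega), h.2⟩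
      · split_ifs at h with h1
        · obtain ⟨b, hb, rfl⟩ := h
          refine ⟨fun j hj => ?_, ?_⟩
          · rw [Finsupp.add_apply, hb.1 j hj, zero_add, Finsupp.single_apply, if_neg]
            intro h2
            rw [← h2] at hj
            simp at hj
          · show Finsupp.weight (wT k) (b + Finsupp.single ⟨m, hm⟩ 1) = d
            rw [hw, hb.2]
            omega
        · exact absurd h (Set.notMem_empty _)
  obtain ⟨W, hW⟩ : ∃ W, W = (if m + 1 ≤ d then
      (fun a => a + Finsupp.single (⟨m, hm⟩ : Fin k) 1) '' (Emd k (m + 1) (d - (m + 1))) else ∅) := ⟨_, rfl⟩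
  have hf : W.Finite := by
    rw [hW]
    split_ifs
    · exact (Emd_finite k (m + 1) _).image _
    · exact Set.finite_empty
  have hdis : Disjoint (Emd k m d) W := by
    rw [Set.disjoint_left]
    intro a ha h
    rw [hW] at h
    split_ifs at h with h1
    · obtain ⟨b, hb, rfl⟩ := h
      have h2 := ha.1 ⟨m, hm⟩ le_rfl
      rw [Finsupp.add_apply, Finsupp.single_eq_same] at h2
      omega
    · exact absurd h (Set.notMem_empty _)
  rw [hsplit, ← hW, Nat.card_coe_set_eq, Nat.card_coe_set_eq,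
    Set.ncard_union_eq hdis (Emd_finite k m d) hf, hW]
  congr 1
  split_ifs with h1
  · rw [Set.ncard_image_of_injective _ (add_left_injective _), Nat.card_coe_set_eq]
  · exact Set.ncard_empty _

/-- generating function of the dimensions -/
noncomputable def DD (k m : ℕ) : PowerSeries ℤ := PowerSeries.mk fun d => (Nat.card (Emd k m d) : ℤ)

lemma DD_zero (k : ℕ) : DD k 0 = 1 := by
  ext d
  unfold DD
  rw [PowerSeries.coeff_mk, PowerSeries.coeff_one]
  split_ifs with h
  · rw [h, card_Emd_zero, Nat.cast_one]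
  · have h1 : Emd k 0 d = ∅ := by
      ext a
      constructor
      · rintro ⟨h1, h2⟩
        have h3 : a = 0 := by
          ext j
          exact h1 j (Nat.zero_le _)
        rw [h3, map_zero] at h2
        exact absurd h2.symm h
      · intro h2
        exact absurd h2 (Set.notMem_empty _)
    rw [h1]
    simp

lemma DD_succ {k m : ℕ} (hm : m < k) : (1 - PowerSeries.X ^ (m + 1)) * DD k (m + 1) = DD k m := by
  ext d
  rw [sub_mul, one_mul, map_sub, PowerSeries.coeff_X_pow_mul']
  unfold DD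
  rw [PowerSeries.coeff_mk, PowerSeries.coeff_mk, PowerSeries.coeff_mk, card_Emd_succ hm]
  split_ifs
  · push_cast
    ring
  · push_cast
    ring

lemma PP_mul_DD {k m : ℕ} (hm : m ≤ k) : PP PowerSeries.X m * DD k m = 1 := by
  induction m with
  | zero => rw [PP_zero, DD_zero, mul_one]
  | succ m ih => rw [PP_succ, mul_assoc, DD_succ (by omega), ih (by omega)]

/-- the coefficient identity -/
theorem coeff_sum_TT {k m d : ℕ} (J : ℕ → ℕ) (hm : m ≤ k) (hJ : ∀ i, i ≤ m → d + 1 ≤ J i) :
    PowerSeries.coeff d (1 + ∑ i ∈ range m, TT k (i + 1) (J (i + 1))) = (Nat.card (Emd k m d) : ℤ) := by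
  have h1 := sum_TT_congr (k := k) (N := d + 1) J m hm (fun i hi => ⟨hJ i hi, by have := hJ i hi; omega⟩)
  have h2 : (1 + ∑ i ∈ range m, TT k (i + 1) (J (i + 1))) - DD k m
      = DD k m * (PP PowerSeries.X m * (1 + ∑ i ∈ range m, TT k (i + 1) (J (i + 1))) - 1) := by
    have h3 := PP_mul_DD hm
    linear_combination (-(1 + ∑ i ∈ range m, TT k (i + 1) (J (i + 1)))) * h3
  have h4 : (PowerSeries.X : PowerSeries ℤ) ^ (d + 1) ∣
      (1 + ∑ i ∈ range m, TT k (i + 1) (J (i + 1))) - DD k m := by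
    rw [h2]
    exact Dvd.dvd.mul_left h1 _
  rw [PowerSeries.X_pow_dvd_iff] at h4
  have h5 := h4 d (by omega)
  rw [map_sub, sub_eq_zero] at h5
  rw [h5]
  unfold DD
  rw [PowerSeries.coeff_mk]

end

end Pool.Agent.Lib.RT
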