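import Pool.Agent.Lib.MP_e87f44_co.Count

set_option autoImplicit false

namespace Pool.Agent.Lib.RT

open Finset

section

lemma tri_le (S : Finset ℕ) : S.card * (S.card - 1) / 2 ≤ ∑ s ∈ S, s := by
  induction S using Finset.induction_on_max with
  | empty => simp
  | insert a S h ih =>
    have hnot : a ∉ S := fun h' => lt_irrefl _ (h a h')
    rw [Finset.card_insert_of_notMem hnot, choose_two_succ, Finset.sum_insert hnot]
    have h1 : S.card ≤ (range a).card :=
      Finset.card_le_card fun x hx => Finset.mem_range.mpr (h x hx)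
    rw [Finset.card_range] at h1
    omega

/-- the embedding of polynomials with natural coefficients in power series -/
noncomputable def iota : Polynomial ℕ →+* PowerSeries ℤ :=
  (Polynomial.coeToPowerSeries.ringHom).comp (Polynomial.mapRingHom (Nat.castRingHom ℤ))

lemma coeff_iota (p : Polynomial ℕ) (d : ℕ) : PowerSeries.coeff d (iota p) = ((p.coeff d : ℕ) : ℤ) := by
  unfold iota
  rw [RingHom.comp_apply, Polynomial.coeToPowerSeries.ringHom_apply, Polynomial.coeff_coe,
    Polynomial.coe_mapRingHom, Polynomial.coeff_map]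
  rfl

lemma iota_X : iota Polynomial.X = PowerSeries.X := by
  unfold iota
  rw [RingHom.comp_apply, Polynomial.coeToPowerSeries.ringHom_apply, Polynomial.coe_mapRingHom,
    Polynomial.map_X, Polynomial.coe_X]

lemma iota_qb {qb : ℕ → ℕ → Polynomial ℕ}
    (hqb : ∀ n r : ℕ, qb n r = ∑ S ∈ (Finset.univ : Finset (Fin n)).powersetCard r,
        (Polynomial.X : Polynomial ℕ) ^ ((∑ s ∈ S, (s : ℕ)) - r * (r - 1) / 2)) (n r : ℕ) :
    iota (qb n r) = gb PowerSeries.X n r := by
  have h1 : (PowerSeries.X : PowerSeries ℤ) ^ (r * (r - 1) / 2) * iota (qb n r)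
      = PowerSeries.X ^ (r * (r - 1) / 2) * gb PowerSeries.X n r := by
    rw [← elq_eq, hqb, map_sum, Finset.mul_sum]
    have h2 : range n = (univ : Finset (Fin n)).map Fin.valEmbedding := by
      ext x
      simp only [Finset.mem_range, Finset.mem_map, Finset.mem_univ, true_and]
      constructor
      · intro hx
        exact ⟨⟨x, hx⟩, rfl⟩
      · rintro ⟨y, rfl⟩
        exact y.isLt
    unfold elq
    rw [h2, Finset.powersetCard_map, Finset.sum_map]
    refine Finset.sum_congr rfl fun S hS => ?_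
    rw [Finset.mem_powersetCard] at hS
    have h3 : ∑ s ∈ S.map Fin.valEmbedding, s = ∑ s ∈ S, (s : ℕ) := by
      rw [Finset.sum_map]
      rfl
    have h4 := tri_le (S.map Fin.valEmbedding)
    rw [Finset.card_map, hS.2, h3] at h4
    rw [map_pow, iota_X, ← pow_add]
    show _ = PowerSeries.X ^ (∑ s ∈ S.map Fin.valEmbedding, s)
    rw [h3]
    congr 1
    omega
  exact mul_left_cancel₀ (pow_ne_zero _ PowerSeries.X_ne_zero) h1

lemma sum_Icc_eq {M : Type*} [AddCommMonoid M] (f : ℕ → M) (m : ℕ) :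
    ∑ i ∈ Icc 1 m, f i = ∑ i ∈ range m, f (i + 1) := by
  induction m with
  | zero => simp
  | succ m ih => rw [Finset.sum_Icc_succ_top (by omega), ih, Finset.sum_range_succ]

theorem rhs {qb : ℕ → ℕ → Polynomial ℕ}
    (hqb : ∀ n r : ℕ, qb n r = ∑ S ∈ (Finset.univ : Finset (Fin n)).powersetCard r,
        (Polynomial.X : Polynomial ℕ) ^ ((∑ s ∈ S, (s : ℕ)) - r * (r - 1) / 2))
    {k m ℓ : ℕ} (hℓ : m ≤ ℓ) (d : ℕ) :
    (((1 + ∑ i ∈ Finset.Icc 1 m, (Polynomial.X : Polynomial ℕ) ^ i * qb k i *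
          ∑ j ∈ Finset.range (ℓ - i + 1),
            (Polynomial.X : Polynomial ℕ) ^ (j * (k - i + 1)) * qb (i + j - 1) j).coeff d : ℕ) : ℤ)
      = PowerSeries.coeff d (1 + ∑ i ∈ range m, TT k (i + 1) (ℓ + 1 - (i + 1))) := by
  rw [← coeff_iota, map_add, map_one, map_sum, sum_Icc_eq]
  congr 2
  refine Finset.sum_congr rfl fun i hi => ?_
  rw [Finset.mem_range] at hi
  rw [map_mul, map_mul, map_pow, iota_X, iota_qb hqb, map_sum]
  unfold TT FF
  have e1 : ℓ - (i + 1) + 1 = ℓ + 1 - (i + 1) := by omega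
  rw [e1]
  congr 1
  refine Finset.sum_congr rfl fun j _ => ?_
  rw [map_mul, map_pow, iota_X, iota_qb hqb]

end

end Pool.Agent.Lib.RT
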