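import Pool.Agent.Lib.MP_e87f44_co.Ker

set_option autoImplicit false

namespace Pool.Agent.Lib.RT

open Finset Polynomial

section

variable {ℓ k : ℕ}

/-- the series with the `e`-variables -/
noncomputable def A0 (ℓ k : ℕ) : Polynomial (MvPolynomial (Fin ℓ ⊕ Fin k) ℚ) :=
  1 + ∑ i : Fin ℓ, Polynomial.C
              ((-1 : MvPolynomial (Fin ℓ ⊕ Fin k) ℚ) ^ (i.val + 1) * MvPolynomial.X (Sum.inl i))
              * (Polynomial.X : Polynomial (MvPolynomial (Fin ℓ ⊕ Fin k) ℚ)) ^ (i.val + 1)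

/-- the series with the `h`-variables -/
noncomputable def B0 (ℓ k : ℕ) : Polynomial (MvPolynomial (Fin ℓ ⊕ Fin k) ℚ) :=
  1 + ∑ j : Fin k, Polynomial.C
              (MvPolynomial.X (Sum.inr j) : MvPolynomial (Fin ℓ ⊕ Fin k) ℚ)
              * (Polynomial.X : Polynomial (MvPolynomial (Fin ℓ ⊕ Fin k) ℚ)) ^ (j.val + 1)

/-- the relations -/
noncomputable def relI (ℓ k : ℕ) : Ideal (MvPolynomial (Fin ℓ ⊕ Fin k) ℚ) :=
  Ideal.span {p | ∃ n : ℕ, 1 ≤ n ∧ p = (A0 ℓ k * B0 ℓ k).coeff n}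

/-- the ring homomorphism from the polynomial ring in the `h`-variables -/
noncomputable def psi (ℓ k : ℕ) : MvPolynomial (Fin k) ℚ →ₐ[ℚ] MvPolynomial (Fin ℓ ⊕ Fin k) ℚ ⧸ relI ℓ k :=
  MvPolynomial.aeval (fun j : Fin k => Ideal.Quotient.mk (relI ℓ k) (MvPolynomial.X (Sum.inr j)))

lemma eps_X (j : Fin k) : eps k (MvPolynomial.X j) = es univ (j.val + 1) := MvPolynomial.aeval_X _ _

lemma psi_X (j : Fin k) : psi ℓ k (MvPolynomial.X j)
    = Ideal.Quotient.mk (relI ℓ k) (MvPolynomial.X (Sum.inr j)) := MvPolynomial.aeval_X _ _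

lemma coeff_zero_A0 : (A0 ℓ k).coeff 0 = 1 := by
  unfold A0
  rw [coeff_add, coeff_one_zero, finsetSum_coeff, Finset.sum_eq_zero, add_zero]
  intro i _
  rw [coeff_C_mul_X_pow, if_neg (by omega)]

lemma coeff_zero_B0 : (B0 ℓ k).coeff 0 = 1 := by
  unfold B0
  rw [coeff_add, coeff_one_zero, finsetSum_coeff, Finset.sum_eq_zero, add_zero]
  intro i _
  rw [coeff_C_mul_X_pow, if_neg (by omega)]

lemma coeff_zero_Bser {S : Type*} [CommRing S] (b : Fin k → S) : (Bser b).coeff 0 = 1 := by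
  unfold Bser
  rw [coeff_add, coeff_one_zero, finsetSum_coeff, Finset.sum_eq_zero, add_zero]
  intro i _
  rw [coeff_C_mul_X_pow, if_neg (by omega)]

lemma map_B0 {S : Type*} [CommRing S] (g : MvPolynomial (Fin ℓ ⊕ Fin k) ℚ →+* S) :
    (B0 ℓ k).map g = Bser (fun j => g (MvPolynomial.X (Sum.inr j))) := by
  unfold B0 Bser
  rw [Polynomial.map_add, Polynomial.map_one, Polynomial.map_sum]
  congr 1
  refine Finset.sum_congr rfl fun j _ => ?_
  rw [Polynomial.map_mul, map_C, Polynomial.map_pow, map_X]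

lemma map_A0 {S : Type*} [CommRing S] (g : MvPolynomial (Fin ℓ ⊕ Fin k) ℚ →+* S) :
    (A0 ℓ k).map g = 1 + ∑ i : Fin ℓ, C ((-1) ^ (i.val + 1) * g (MvPolynomial.X (Sum.inl i))) *
      X ^ (i.val + 1) := by
  unfold A0
  rw [Polynomial.map_add, Polynomial.map_one, Polynomial.map_sum]
  congr 1
  refine Finset.sum_congr rfl fun j _ => ?_
  rw [Polynomial.map_mul, map_C, Polynomial.map_pow, map_X, map_mul, map_pow, map_neg, map_one]

lemma A0_natDegree_le : (A0 ℓ k).natDegree ≤ ℓ := by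
  unfold A0
  refine (natDegree_add_le _ _).trans (max_le (by simp) ?_)
  refine natDegree_sum_le_of_forall_le _ _ fun j _ => ?_
  refine (natDegree_C_mul_X_pow_le _ _).trans ?_
  have := j.isLt
  omega

lemma mul_map_eq_one : (A0 ℓ k).map (Ideal.Quotient.mk (relI ℓ k)) *
    Bser (fun j => Ideal.Quotient.mk (relI ℓ k) (MvPolynomial.X (Sum.inr j))) = 1 := by
  rw [← map_B0, ← Polynomial.map_mul]
  ext n
  rw [coeff_map, coeff_one]
  split_ifs with h
  · rw [h, mul_coeff_zero, coeff_zero_A0, coeff_zero_B0, mul_one, map_one]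
  · rw [Ideal.Quotient.eq_zero_iff_mem]
    exact Ideal.subset_span ⟨n, by omega, rfl⟩

lemma Pi_dvd_R : Pi (fun j : Fin k => psi ℓ k (MvPolynomial.X j)) ∣ X ^ (ℓ + k) := by
  simp only [psi_X]
  exact dvd_of_inv _ _ (natDegree_map_le.trans A0_natDegree_le) mul_map_eq_one

/-- the universal property -/
lemma exists_lift {S : Type*} [CommRing S] [Algebra ℚ S] (e : Fin k → S) (F : S[X])
    (hF : F.natDegree ≤ ℓ) (h : F * Bser e = 1) :
    ∃ Φ : (MvPolynomial (Fin ℓ ⊕ Fin k) ℚ ⧸ relI ℓ k) →ₐ[ℚ] S, ∀ j,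
      Φ (Ideal.Quotient.mk (relI ℓ k) (MvPolynomial.X (Sum.inr j))) = e j := by
  have hF0 : F.coeff 0 = 1 := by
    have h1 := congrArg (fun p => p.coeff 0) h
    simp only [mul_coeff_zero, coeff_zero_Bser, mul_one, coeff_one_zero] at h1
    exact h1
  obtain ⟨Φ0, hΦ0⟩ : ∃ Φ0 : MvPolynomial (Fin ℓ ⊕ Fin k) ℚ →ₐ[ℚ] S, Φ0 = MvPolynomial.aeval
    (Sum.elim (fun i : Fin ℓ => (-1) ^ (i.val + 1) * F.coeff (i.val + 1)) e) := ⟨_, rfl⟩
  have hl : ∀ i, Φ0.toRingHom (MvPolynomial.X (Sum.inl i)) = (-1) ^ (i.val + 1) * F.coeff (i.val + 1) := by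
    intro i
    rw [hΦ0]
    exact MvPolynomial.aeval_X _ _
  have hr : ∀ j, Φ0.toRingHom (MvPolynomial.X (Sum.inr j)) = e j := by
    intro j
    rw [hΦ0]
    exact MvPolynomial.aeval_X _ _
  have hA : (A0 ℓ k).map Φ0.toRingHom = F := by
    rw [map_A0]
    simp only [hl]
    ext n
    rw [coeff_add, finsetSum_coeff]
    rcases Nat.eq_zero_or_pos n with hn | hn
    · subst hn
      rw [coeff_one_zero, hF0, Finset.sum_eq_zero, add_zero]
      intro i _
      rw [coeff_C_mul_X_pow, if_neg (by omega)]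
    · rw [coeff_one, if_neg (by omega), zero_add]
      by_cases hnl : n ≤ ℓ
      · rw [Finset.sum_eq_single (⟨n - 1, by omega⟩ : Fin ℓ)]
        · rw [coeff_C_mul_X_pow, if_pos (by simp only []; omega)]
          have h3 : n - 1 + 1 = n := by omega
          simp only [h3]
          rw [← mul_assoc, ← mul_pow]
          simp
        · intro i _ hi
          rw [coeff_C_mul_X_pow, if_neg]
          intro h4
          apply hi
          apply Fin.ext
          simp only []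
          omega
        · intro h4
          exact absurd (Finset.mem_univ _) h4
      · rw [Finset.sum_eq_zero, coeff_eq_zero_of_natDegree_lt (by omega)]
        intro i _
        have := i.isLt
        rw [coeff_C_mul_X_pow, if_neg (by omega)]
  have hB : (B0 ℓ k).map Φ0.toRingHom = Bser e := by
    rw [map_B0]
    simp only [hr]
  have hI : ∀ a ∈ relI ℓ k, Φ0 a = 0 := by
    intro a ha
    refine Submodule.span_induction ?_ ?_ ?_ ?_ ha
    · rintro _ ⟨n, hn, rfl⟩
      have h5 : Φ0 ((A0 ℓ k * B0 ℓ k).coeff n) = ((A0 ℓ k * B0 ℓ k).map Φ0.toRingHom).coeff n := by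
        rw [coeff_map]
        rfl
      rw [h5, Polynomial.map_mul, hA, hB, h, coeff_one, if_neg (by omega)]
    · exact map_zero _
    · intro x y _ _ hx hy
      rw [map_add, hx, hy, add_zero]
    · intro x y _ hy
      rw [smul_eq_mul, map_mul, hy, mul_zero]
  refine ⟨Ideal.Quotient.liftₐ (relI ℓ k) Φ0 hI, fun j => ?_⟩
  rw [Ideal.Quotient.liftₐ_apply]
  exact hr j

theorem psi_eq_zero_iff (hk : 0 < k) (t : MvPolynomial (Fin k) ℚ) :
    psi ℓ k t = 0 ↔ eps k t * vd k ∈ Jd k (ℓ + k) := by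
  constructor
  · intro h
    obtain ⟨F, hF, hF1⟩ := exists_inv_colon hk ℓ
    obtain ⟨Φ, hΦ⟩ := exists_lift _ F hF hF1
    have h1 : Φ.comp (psi ℓ k) = (Ideal.Quotient.mkₐ ℚ (colon k (ℓ + k))).comp (eps k) := by
      apply MvPolynomial.algHom_ext
      intro j
      rw [AlgHom.comp_apply, AlgHom.comp_apply, psi_X, hΦ, eps_X, Ideal.Quotient.mkₐ_eq_mk]
    have h2 := DFunLike.congr_fun h1 t
    rw [AlgHom.comp_apply, AlgHom.comp_apply, h, map_zero] at h2
    rw [Ideal.Quotient.mkₐ_eq_mk] at h2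
    have h3 : eps k t ∈ colon k (ℓ + k) := Ideal.Quotient.eq_zero_iff_mem.mp h2.symm
    exact h3
  · intro h
    exact zero_of_Jd hk h (psi ℓ k) Pi_dvd_R

end

end Pool.Agent.Lib.RT
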