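import Mathlib

set_option autoImplicit false

namespace Pool.Agent.Lib.RT

open Finset Polynomial

section

variable {S : Type*} [CommRing S] {k : ℕ} (M : ℕ) (z : Fin k → S)

/-- truncated geometric series -/
noncomputable def gam (w : S) : S := ∑ b ∈ range (M + 1), w ^ b

lemma gam_mul {w : S} (hw : w ^ (M + 1) = 0) : (1 - w) * gam M w = 1 := by
  unfold gam
  rw [mul_comm, geom_sum_mul_neg, hw, sub_zero]

/-- generating polynomial of (truncated) complete symmetric functions -/
noncomputable def HH : Polynomial S := ∏ t : Fin k, ∑ b ∈ range (M + 1), (C (z t) * X) ^ b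

/-- generating polynomial of elementary symmetric functions -/
noncomputable def EE : Polynomial S := ∏ t : Fin k, (1 + C (z t) * X)

/-- `θ F = X F'` -/
noncomputable def theta (F : Polynomial S) : Polynomial S := X * derivative F

lemma theta_coeff (F : Polynomial S) (n : ℕ) : (theta F).coeff n = n * F.coeff n := by
  unfold theta
  cases n with
  | zero => simp
  | succ n =>
    rw [coeff_X_mul, coeff_derivative]
    push_cast
    ring

lemma theta_prod {ι : Type*} [DecidableEq ι] (s : Finset ι) (f g : ι → Polynomial S)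
    (h : ∀ i ∈ s, theta (f i) = g i * f i) :
    theta (∏ i ∈ s, f i) = (∑ i ∈ s, g i) * ∏ i ∈ s, f i := by
  induction s using Finset.induction_on with
  | empty => simp [theta]
  | insert a s ha ih =>
    have h1 := ih (fun i hi => h i (Finset.mem_insert_of_mem hi))
    have h2 := h a (Finset.mem_insert_self _ _)
    rw [Finset.prod_insert ha, Finset.sum_insert ha]
    unfold theta at *
    rw [derivative_mul, mul_add, ← mul_assoc, h2]
    have : X * (f a * derivative (∏ i ∈ s, f i)) = f a * (X * derivative (∏ i ∈ s, f i)) := by ring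
    rw [this, h1]
    ring

variable {M}

lemma theta_geom {c : S} (hc : c ^ (M + 1) = 0) :
    theta (∑ b ∈ range (M + 1), (C c * X) ^ b)
      = (C c * X * ∑ b ∈ range (M + 1), (C c * X) ^ b) * ∑ b ∈ range (M + 1), (C c * X) ^ b := by
  set F : Polynomial S := ∑ b ∈ range (M + 1), (C c * X) ^ b with hF
  have hw : (C c * X : Polynomial S) ^ (M + 1) = 0 := by
    rw [mul_pow, ← C_pow, hc]
    simp
  have h1 : (1 - C c * X) * F = 1 := by
    rw [hF, mul_comm, geom_sum_mul_neg, hw, sub_zero]
  have h2 : derivative ((1 - C c * X) * F) = 0 := by rw [h1]; simp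
  rw [derivative_mul] at h2
  have h3 : derivative (1 - C c * X : Polynomial S) = - C c := by simp
  rw [h3] at h2
  have h4 : (1 - C c * X) * derivative F = C c * F := by linear_combination h2
  have h5 : derivative F = C c * F * F := by
    calc derivative F = ((1 - C c * X) * F) * derivative F := by rw [h1, one_mul]
      _ = F * ((1 - C c * X) * derivative F) := by ring
      _ = _ := by rw [h4]; ring
  unfold theta
  rw [h5]
  ring

lemma theta_HH (hz : ∀ t, z t ^ (M + 1) = 0) :
    theta (HH M z) = (∑ t : Fin k, (C (z t) * X * ∑ b ∈ range (M + 1), (C (z t) * X) ^ b)) * HH M z := by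
  classical
  unfold HH
  exact theta_prod _ _ _ fun t _ => theta_geom (hz t)

lemma HH_eval (u : S) : (HH M z).eval u = ∏ t : Fin k, gam M (u * z t) := by
  unfold HH gam
  rw [eval_prod]
  refine Finset.prod_congr rfl fun t _ => ?_
  rw [eval_finsetSum]
  refine Finset.sum_congr rfl fun b _ => ?_
  rw [eval_pow, eval_mul, eval_C, eval_X, mul_comm]

lemma EE_eval (u : S) : (EE z).eval u = ∏ t : Fin k, (1 + u * z t) := by
  unfold EE
  rw [eval_prod]
  refine Finset.prod_congr rfl fun t _ => ?_
  rw [eval_add, eval_one, eval_mul, eval_C, eval_X, mul_comm]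

lemma theta_HH_eval (hz : ∀ t, z t ^ (M + 1) = 0) (u : S) :
    (theta (HH M z)).eval u = (∑ t : Fin k, u * z t * gam M (u * z t)) * (HH M z).eval u := by
  rw [theta_HH z hz, eval_mul, eval_finsetSum]
  congr 1
  refine Finset.sum_congr rfl fun t _ => ?_
  unfold gam
  rw [eval_mul, eval_finsetSum, eval_mul, eval_C, eval_X, mul_comm (z t) u]
  congr 1
  refine Finset.sum_congr rfl fun b _ => ?_
  rw [eval_pow, eval_mul, eval_C, eval_X, mul_comm (z t) u]

lemma theta_EE_eval (hz : ∀ t, z t ^ (M + 1) = 0) (v : S) :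
    (theta (EE z)).eval v = (∑ t : Fin k, v * z t * gam M (-(v * z t))) * (EE z).eval v := by
  classical
  have hnil : ∀ t, (-(v * z t)) ^ (M + 1) = 0 := by
    intro t
    rw [neg_pow, mul_pow, hz t]
    ring
  have h1 : theta (EE z) = ∑ t : Fin k, (C (z t) * X) * ∏ s ∈ univ.erase t, (1 + C (z s) * X) := by
    unfold theta EE
    rw [derivative_prod_finset, Finset.mul_sum]
    refine Finset.sum_congr rfl fun t _ => ?_
    have : derivative (1 + C (z t) * X : Polynomial S) = C (z t) := by simp
    rw [this]
    ring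
  rw [h1, eval_finsetSum, EE_eval, Finset.sum_mul]
  refine Finset.sum_congr rfl fun t _ => ?_
  rw [eval_mul, eval_prod, ← Finset.mul_prod_erase univ _ (Finset.mem_univ t)]
  have h2 := gam_mul M (hnil t)
  rw [sub_neg_eq_add] at h2
  have h3 : ∏ j ∈ univ.erase t, eval v (1 + C (z j) * X) = ∏ x ∈ univ.erase t, (1 + v * z x) := by
    refine Finset.prod_congr rfl fun s _ => ?_
    rw [eval_add, eval_one, eval_mul, eval_C, eval_X, mul_comm]
  rw [h3]
  generalize (∏ x ∈ univ.erase t, (1 + v * z x)) = PP
  rw [eval_mul, eval_C, eval_X]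
  linear_combination (-(v * z t * PP)) * h2

/-- the kernel -/
noncomputable def KK (M : ℕ) (u v : S) : S := ∑ t : Fin k, z t * gam M (u * z t) * gam M (-(v * z t))

lemma KK_mul (hz : ∀ t, z t ^ (M + 1) = 0) (u v : S) :
    (u + v) * KK z M u v
      = ∑ t : Fin k, u * z t * gam M (u * z t) + ∑ t : Fin k, v * z t * gam M (-(v * z t)) := by
  unfold KK
  rw [Finset.mul_sum, ← Finset.sum_add_distrib]
  refine Finset.sum_congr rfl fun t _ => ?_
  have hu : (u * z t) ^ (M + 1) = 0 := by rw [mul_pow, hz t, mul_zero]
  have hv : (-(v * z t)) ^ (M + 1) = 0 := by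
    rw [neg_pow, mul_pow, hz t]
    ring
  have h1 := gam_mul M hu
  have h2 := gam_mul M hv
  calc (u + v) * (z t * gam M (u * z t) * gam M (-(v * z t)))
      = u * z t * gam M (u * z t) * ((1 - -(v * z t)) * gam M (-(v * z t)))
        + v * z t * gam M (-(v * z t)) * ((1 - u * z t) * gam M (u * z t)) := by ring
    _ = _ := by rw [h1, h2, mul_one, mul_one]

lemma kernel_identity (hz : ∀ t, z t ^ (M + 1) = 0) (u v : S) :
    (theta (HH M z)).eval u * (EE z).eval v + (HH M z).eval u * (theta (EE z)).eval v
      = (u + v) * (KK z M u v * ((HH M z).eval u * (EE z).eval v)) := by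
  rw [theta_HH_eval z hz, theta_EE_eval z hz, ← mul_assoc (u + v), KK_mul z hz]
  ring

end

end Pool.Agent.Lib.RT
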