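import Pool.Agent.Lib.MP_e87f44_co.SThreeA

set_option autoImplicit false

namespace Pool.Agent.Lib.RT

open Finset Polynomial

section

variable {S : Type*} [CommRing S] [Algebra ℚ S] {k r M : ℕ} (z : Fin k → S)

/-- numeric truncated geometric series -/
noncomputable def Gn (M : ℕ) (u : ℚ) : ℚ[X] := ∑ b ∈ range (M + 1), (C u * X) ^ b

lemma aeval_Gn (u : ℚ) (w : S) : aeval w (Gn M u) = gam M (algebraMap ℚ S u * w) := by
  unfold Gn gam
  rw [map_sum]
  refine Finset.sum_congr rfl fun b _ => ?_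
  rw [map_pow, map_mul, aeval_C, aeval_X]

/-- numeric Vandermonde like matrix -/
noncomputable def WW (u : Fin r → ℚ) : Matrix (Fin r) (Fin r) ℚ :=
  Matrix.of fun i c => (∏ l ∈ univ.erase i, (1 - C (u l) * X : ℚ[X])).coeff (c : ℕ)

lemma WW_natDegree (u : Fin r → ℚ) (i : Fin r) :
    (∏ l ∈ univ.erase i, (1 - C (u l) * X : ℚ[X])).natDegree < r := by
  have h1 : ∀ l : Fin r, (1 - C (u l) * X : ℚ[X]).natDegree ≤ 1 := by
    intro l
    refine (natDegree_sub_le _ _).trans ?_
    simp only [natDegree_one, sup_le_iff, zero_le, true_and]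
    exact (natDegree_C_mul_le _ _).trans natDegree_X_le
  have h2 := natDegree_prod_le (univ.erase i) (fun l : Fin r => (1 - C (u l) * X : ℚ[X]))
  have h3 : ∑ l ∈ univ.erase i, (1 - C (u l) * X : ℚ[X]).natDegree ≤ ∑ l ∈ univ.erase i, 1 :=
    Finset.sum_le_sum fun l _ => h1 l
  have h4 : (univ.erase i).card = r - 1 := by
    rw [Finset.card_erase_of_mem (Finset.mem_univ _), Finset.card_univ, Fintype.card_fin]
  rw [Finset.sum_const, h4] at h3
  have := i.isLt
  simp only [smul_eq_mul, mul_one] at h3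
  omega

lemma gam_eq (hz : ∀ t, z t ^ (M + 1) = 0) (u : Fin r → ℚ) (i : Fin r) (t : Fin k) :
    gam M (algebraMap ℚ S (u i) * z t)
      = (∏ l, gam M (algebraMap ℚ S (u l) * z t)) *
        ∑ c : Fin r, algebraMap ℚ S (WW u i c) * z t ^ (c : ℕ) := by
  have h1 : ∑ c : Fin r, algebraMap ℚ S (WW u i c) * z t ^ (c : ℕ)
      = ∏ l ∈ univ.erase i, (1 - algebraMap ℚ S (u l) * z t) := by
    have h := aeval_eq_sum_range' (WW_natDegree u i) (z t)
    rw [map_prod, Finset.sum_range] at h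
    have h' : ∏ x ∈ univ.erase i, (aeval (z t)) (1 - C (u x) * X : ℚ[X])
        = ∏ l ∈ univ.erase i, (1 - algebraMap ℚ S (u l) * z t) := by
      refine Finset.prod_congr rfl fun l _ => ?_
      rw [map_sub, map_one, map_mul, aeval_C, aeval_X]
    rw [← h', h]
    refine Finset.sum_congr rfl fun c _ => ?_
    rw [Algebra.smul_def]
    rfl
  rw [h1, ← Finset.mul_prod_erase univ _ (Finset.mem_univ i), mul_assoc, ← Finset.prod_mul_distrib]
  have h2 : ∏ x ∈ univ.erase i, gam M (algebraMap ℚ S (u x) * z t) * (1 - algebraMap ℚ S (u x) * z t)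
      = 1 := by
    refine Finset.prod_eq_one fun x _ => ?_
    rw [mul_comm]
    apply gam_mul
    rw [mul_pow, hz, mul_zero]
  rw [h2, mul_one]

/-- the determinant of kernels factors through the determinant of power sum type -/
lemma det_KK (hz : ∀ t, z t ^ (M + 1) = 0) (u v : Fin r → ℚ) :
    (Matrix.of fun i j : Fin r => KK z M (algebraMap ℚ S (u i)) (algebraMap ℚ S (v j))).det
      = algebraMap ℚ S (WW u).det *
        (Matrix.of fun i j : Fin r => ∑ t, z t ^ (i.val + 1) *
          aeval (z t) ((∏ l, Gn M (u l)) * Gn M (-(v j)))).det := by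
  rw [RingHom.map_det, ← Matrix.det_mul]
  congr 1
  ext i j
  rw [Matrix.mul_apply]
  simp only [Matrix.of_apply, RingHom.mapMatrix_apply, Matrix.map_apply]
  have h1 : ∀ c : Fin r, algebraMap ℚ S (WW u i c) * ∑ t, z t ^ (c.val + 1) *
          aeval (z t) ((∏ l, Gn M (u l)) * Gn M (-(v j)))
      = ∑ t, algebraMap ℚ S (WW u i c) * (z t ^ (c.val + 1) *
          aeval (z t) ((∏ l, Gn M (u l)) * Gn M (-(v j)))) := fun c => Finset.mul_sum _ _ _
  rw [Finset.sum_congr rfl fun c _ => h1 c, Finset.sum_comm]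
  unfold KK
  refine Finset.sum_congr rfl fun t _ => ?_
  rw [gam_eq z hz u i t, map_mul, map_prod]
  simp only [aeval_Gn]
  rw [map_neg, neg_mul, Finset.mul_sum, Finset.mul_sum, Finset.sum_mul]
  refine Finset.sum_congr rfl fun c _ => ?_
  ring

omit [Algebra ℚ S] in
lemma theta_natDegree_le (F : Polynomial S) : (theta F).natDegree ≤ F.natDegree := by
  rw [natDegree_le_iff_coeff_eq_zero]
  intro n hn
  rw [theta_coeff, coeff_eq_zero_of_natDegree_lt hn, mul_zero]

omit [Algebra ℚ S] in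
lemma theta_sum (B : ℕ) (F G : Polynomial S) (hF : F.natDegree < B) (hG : G.natDegree < B) (u v : S) :
    (theta F).eval u * G.eval v + F.eval u * (theta G).eval v
      = ∑ p ∈ range B ×ˢ range B, ((p.1 + p.2 : ℕ) : S) * (F.coeff p.1 * G.coeff p.2) *
          (u ^ p.1 * v ^ p.2) := by
  rw [eval_eq_sum_range' ((theta_natDegree_le F).trans_lt hF), eval_eq_sum_range' hG,
    eval_eq_sum_range' hF, eval_eq_sum_range' ((theta_natDegree_le G).trans_lt hG),
    Finset.sum_mul_sum, Finset.sum_mul_sum, ← Finset.sum_product', ← Finset.sum_product',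
    ← Finset.sum_add_distrib]
  refine Finset.sum_congr rfl fun p _ => ?_
  rw [theta_coeff, theta_coeff]
  push_cast
  ring

/-- the main numeric identity -/
lemma numeric_identity (hz : ∀ t, z t ^ (M + 1) = 0) (ψ : S →ₗ[ℚ] ℚ)
    (hb : ∀ (u v : Fin r → ℚ) (A : Fin r → ℚ[X]),
      ψ ((∏ i, (HH M z).eval (algebraMap ℚ S (u i))) * (∏ j, (EE z).eval (algebraMap ℚ S (v j))) *
        (Matrix.of fun i j : Fin r => ∑ t, z t ^ (i.val + 1) * aeval (z t) (A j)).det) = 0)
    (u v : Fin r → ℚ) :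
    ∑ w : Equiv.Perm (Fin r), ((Equiv.Perm.sign w : ℤ) : ℚ) *
      (∏ i, ∏ j ∈ univ.erase (w i), (u i + v j)) *
      ψ (∏ i, ((theta (HH M z)).eval (algebraMap ℚ S (u i)) * (EE z).eval (algebraMap ℚ S (v (w i)))
        + (HH M z).eval (algebraMap ℚ S (u i)) * (theta (EE z)).eval (algebraMap ℚ S (v (w i))))) = 0 := by
  classical
  have h1 := hb u v (fun j => (∏ l, Gn M (u l)) * Gn M (-(v j)))
  have h2 : ψ ((∏ i, (HH M z).eval (algebraMap ℚ S (u i))) * (∏ j, (EE z).eval (algebraMap ℚ S (v j))) *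
      (Matrix.of fun i j : Fin r => KK z M (algebraMap ℚ S (u i)) (algebraMap ℚ S (v j))).det) = 0 := by
    rw [det_KK z hz, mul_left_comm, ← Algebra.smul_def, map_smul, h1, smul_zero]
  rw [← Matrix.det_transpose, Matrix.det_apply', Finset.mul_sum, map_sum] at h2
  have h3 := congrArg (fun a => (∏ i, ∏ j, (u i + v j)) * a) h2
  simp only [mul_zero] at h3
  rw [Finset.mul_sum] at h3
  rw [← h3]
  refine Finset.sum_congr rfl fun w _ => ?_
  have h4 : ∀ i, (u i + v (w i)) * ∏ j ∈ univ.erase (w i), (u i + v j) = ∏ j, (u i + v j) :=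
    fun i => Finset.mul_prod_erase univ (fun j => u i + v j) (Finset.mem_univ (w i))
  rw [← Finset.prod_congr rfl fun i _ => h4 i, Finset.prod_mul_distrib]
  simp only [Matrix.transpose_apply, Matrix.of_apply]
  have h5 : ∏ i, ((theta (HH M z)).eval (algebraMap ℚ S (u i)) * (EE z).eval (algebraMap ℚ S (v (w i)))
        + (HH M z).eval (algebraMap ℚ S (u i)) * (theta (EE z)).eval (algebraMap ℚ S (v (w i))))
      = algebraMap ℚ S (∏ i, (u i + v (w i))) *
        ((∏ i, KK z M (algebraMap ℚ S (u i)) (algebraMap ℚ S (v (w i)))) *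
          ((∏ i, (HH M z).eval (algebraMap ℚ S (u i))) *
            ∏ i, (EE z).eval (algebraMap ℚ S (v i)))) := by
    rw [map_prod, ← Equiv.prod_comp w fun i => (EE z).eval (algebraMap ℚ S (v i)),
      ← Finset.prod_mul_distrib, ← Finset.prod_mul_distrib, ← Finset.prod_mul_distrib]
    refine Finset.prod_congr rfl fun i _ => ?_
    rw [kernel_identity z hz, map_add]
  rw [h5, ← Algebra.smul_def, map_smul, smul_eq_mul]
  have h6 : ∀ (a : ℤ) (b : S), ψ ((a : S) * b) = (a : ℚ) * ψ b := by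
    intro a b
    rw [← zsmul_eq_mul, map_zsmul, zsmul_eq_mul]
  have h7 : ((∏ i, (HH M z).eval (algebraMap ℚ S (u i))) * (∏ j, (EE z).eval (algebraMap ℚ S (v j))) *
      (((Equiv.Perm.sign w : ℤ) : S) *
        ∏ i, KK z M (algebraMap ℚ S (u i)) (algebraMap ℚ S (v (w i)))))
      = ((Equiv.Perm.sign w : ℤ) : S) * ((∏ i, KK z M (algebraMap ℚ S (u i)) (algebraMap ℚ S (v (w i)))) *
          ((∏ i, (HH M z).eval (algebraMap ℚ S (u i))) *
            ∏ i, (EE z).eval (algebraMap ℚ S (v i)))) := by ring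
  rw [h7, h6]
  ring

end

end Pool.Agent.Lib.RT
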