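import Pool.Agent.Lib.MP_e87f44_co.SThreeB

set_option autoImplicit false

namespace Pool.Agent.Lib.RT

open Finset Polynomial

section

variable {r : ℕ}

/-- the weights -/
def wt (s : Fin r ⊕ Fin r) : ℕ := Sum.elim (fun i => i.val) (fun i => i.val) s

/-- weights are recorded by a new variable -/
noncomputable def Phi (r : ℕ) : MvPolynomial (Fin r ⊕ Fin r) ℚ →ₐ[ℚ] (MvPolynomial (Fin r ⊕ Fin r) ℚ)[X] :=
  MvPolynomial.aeval (fun s => C (MvPolynomial.X s) * X ^ (wt s))

lemma Phi_monomial (d : Fin r ⊕ Fin r →₀ ℕ) (a : ℚ) :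
    Phi r (MvPolynomial.monomial d a) = C (MvPolynomial.monomial d a) * X ^ (∑ s, d s * wt s) := by
  unfold Phi
  rw [MvPolynomial.aeval_monomial, Finsupp.prod_fintype _ _ (fun s => pow_zero _)]
  have h1 : ∏ s, (C (MvPolynomial.X s) * X ^ (wt s) : (MvPolynomial (Fin r ⊕ Fin r) ℚ)[X]) ^ (d s)
      = C (∏ s, (MvPolynomial.X s) ^ (d s)) * X ^ (∑ s, d s * wt s) := by
    rw [map_prod, ← Finset.prod_pow_eq_pow_sum, ← Finset.prod_mul_distrib]
    refine Finset.prod_congr rfl fun s _ => ?_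
    rw [mul_pow, ← pow_mul, mul_comm (wt s), map_pow]
  rw [h1, MvPolynomial.monomial_eq, Finsupp.prod_fintype _ _ (fun s => pow_zero _), map_mul, mul_assoc]
  rfl

lemma Phi_coeff (p : MvPolynomial (Fin r ⊕ Fin r) ℚ) (n : ℕ) (d : Fin r ⊕ Fin r →₀ ℕ) :
    ((Phi r p).coeff n).coeff d = if ∑ s, d s * wt s = n then p.coeff d else 0 := by
  induction p using MvPolynomial.induction_on' with
  | monomial e a =>
    rw [Phi_monomial, coeff_C_mul, coeff_X_pow]
    by_cases h : e = d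
    · subst h
      by_cases h2 : n = ∑ s, e s * wt s
      · rw [if_pos h2, if_pos h2.symm, mul_one]
      · rw [if_neg h2, if_neg (Ne.symm h2), mul_zero, MvPolynomial.coeff_zero]
    · have h3 : MvPolynomial.coeff d (MvPolynomial.monomial e a) = 0 := by
        rw [MvPolynomial.coeff_monomial, if_neg h]
      rw [h3]
      split_ifs with h4 h5 h5
      · rw [mul_one, h3]
      · rw [mul_one, h3]
      · rw [mul_zero, MvPolynomial.coeff_zero]
      · rw [mul_zero, MvPolynomial.coeff_zero]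
  | add p q hp hq =>
    rw [map_add, coeff_add, MvPolynomial.coeff_add, hp, hq, MvPolynomial.coeff_add]
    split_ifs with h
    · rfl
    · rw [add_zero]

lemma Phi_lin (i j : Fin r) :
    Phi r (MvPolynomial.X (Sum.inl i) + MvPolynomial.X (Sum.inr j))
      = C (MvPolynomial.X (Sum.inl i)) * X ^ i.val + C (MvPolynomial.X (Sum.inr j)) * X ^ j.val := by
  unfold Phi
  rw [map_add, MvPolynomial.aeval_X, MvPolynomial.aeval_X]
  rfl

lemma Phi_lin_natDegree_le (i j : Fin r) :
    (Phi r (MvPolynomial.X (Sum.inl i) + MvPolynomial.X (Sum.inr j))).natDegree ≤ max i.val j.val := by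
  rw [Phi_lin]
  exact (natDegree_add_le _ _).trans
    (max_le_max (natDegree_C_mul_X_pow_le _ _) (natDegree_C_mul_X_pow_le _ _))

lemma Phi_lin_natDegree (i j : Fin r) (hij : i ≠ j) :
    (Phi r (MvPolynomial.X (Sum.inl i) + MvPolynomial.X (Sum.inr j))).natDegree = max i.val j.val := by
  refine natDegree_eq_of_le_of_coeff_ne_zero (Phi_lin_natDegree_le i j) ?_
  rw [Phi_lin, coeff_add, coeff_C_mul_X_pow, coeff_C_mul_X_pow]
  have hne : i.val ≠ j.val := fun h => hij (Fin.ext h)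
  rcases lt_or_gt_of_ne hne with h | h
  · rw [max_eq_right h.le, if_neg (Ne.symm hne), if_pos rfl, zero_add]
    exact MvPolynomial.X_ne_zero _
  · rw [max_eq_left h.le, if_pos rfl, if_neg hne, add_zero]
    exact MvPolynomial.X_ne_zero _

/-- the product of `u_i + v_j` over the complement of the graph of `w` -/
noncomputable def Pw (w : Equiv.Perm (Fin r)) : MvPolynomial (Fin r ⊕ Fin r) ℚ :=
  ∏ i, ∏ j ∈ univ.erase (w i), (MvPolynomial.X (Sum.inl i) + MvPolynomial.X (Sum.inr j))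

lemma Phi_Pw_le (w : Equiv.Perm (Fin r)) :
    (Phi r (Pw w)).natDegree ≤ ∑ i, ∑ j ∈ univ.erase (w i), max i.val j.val := by
  unfold Pw
  rw [map_prod]
  refine (natDegree_prod_le _ _).trans (Finset.sum_le_sum fun i _ => ?_)
  rw [map_prod]
  exact (natDegree_prod_le _ _).trans (Finset.sum_le_sum fun j _ => Phi_lin_natDegree_le i j)

lemma Phi_lin_ne_zero (i j : Fin r) :
    Phi r (MvPolynomial.X (Sum.inl i) + MvPolynomial.X (Sum.inr j)) ≠ 0 := by
  intro h
  have h2 := congrArg (fun p => (p.coeff i.val).coeff (Finsupp.single (Sum.inl i) 1)) h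
  simp only [coeff_zero, MvPolynomial.coeff_zero] at h2
  have hs : ∑ s, (Finsupp.single (Sum.inl i : Fin r ⊕ Fin r) 1) s * wt s = i.val := by
    rw [Finset.sum_eq_single (Sum.inl i)]
    · simp [wt]
    · intro b _ hb
      rw [Finsupp.single_apply, if_neg (Ne.symm hb), zero_mul]
    · intro h; exact absurd (Finset.mem_univ _) h
  have h3 : MvPolynomial.coeff (Finsupp.single (Sum.inl i : Fin r ⊕ Fin r) 1)
      (MvPolynomial.X (Sum.inl i) : MvPolynomial (Fin r ⊕ Fin r) ℚ) = 1 := by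
    rw [MvPolynomial.coeff_X, if_pos rfl]
  have h4 : MvPolynomial.coeff (Finsupp.single (Sum.inl i : Fin r ⊕ Fin r) 1)
      (MvPolynomial.X (Sum.inr j) : MvPolynomial (Fin r ⊕ Fin r) ℚ) = 0 := by
    rw [MvPolynomial.coeff_X, if_neg]
    intro h3
    have := congrArg (fun f => f (Sum.inl i)) h3
    simp at this
  rw [Phi_coeff, if_pos hs, MvPolynomial.coeff_add, h3, h4, add_zero] at h2
  exact one_ne_zero h2

lemma Phi_Pw_one :
    (Phi r (Pw 1)).natDegree = ∑ i : Fin r, ∑ j ∈ univ.erase i, max i.val j.val ∧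
      Phi r (Pw 1) ≠ 0 := by
  unfold Pw
  have h0 : ∀ i : Fin r, Phi r (∏ j ∈ univ.erase ((1 : Equiv.Perm (Fin r)) i),
      (MvPolynomial.X (Sum.inl i) + MvPolynomial.X (Sum.inr j))) ≠ 0 := by
    intro i
    rw [map_prod]
    exact Finset.prod_ne_zero_iff.mpr fun j _ => Phi_lin_ne_zero i j
  constructor
  · rw [map_prod, natDegree_prod _ _ fun i _ => h0 i]
    refine Finset.sum_congr rfl fun i _ => ?_
    rw [map_prod, natDegree_prod _ _ fun j _ => Phi_lin_ne_zero i j]
    refine Finset.sum_congr rfl fun j hj => ?_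
    exact Phi_lin_natDegree i j (Ne.symm (Finset.ne_of_mem_erase hj))
  · rw [map_prod]
    exact Finset.prod_ne_zero_iff.mpr fun i _ => h0 i

lemma perm_le_eq_one (w : Equiv.Perm (Fin r)) (h : ∀ i, (w i).val ≤ i.val) : w = 1 := by
  have h1 : ∑ i, (w i).val = ∑ i : Fin r, i.val := Equiv.sum_comp w (fun i => i.val)
  have h2 := (Finset.sum_eq_sum_iff_of_le (fun i _ => h i)).mp h1
  ext i
  exact h2 i (Finset.mem_univ i)

lemma weight_lt (w : Equiv.Perm (Fin r)) (hw : w ≠ 1) :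
    ∑ i, ∑ j ∈ univ.erase (w i), max i.val j.val < ∑ i : Fin r, ∑ j ∈ univ.erase i, max i.val j.val := by
  have h1 : ∀ i : Fin r, max i.val (w i).val + ∑ j ∈ univ.erase (w i), max i.val j.val
      = ∑ j : Fin r, max i.val j.val :=
    fun i => Finset.add_sum_erase univ (fun j : Fin r => max i.val j.val) (Finset.mem_univ _)
  have h2 : ∀ i : Fin r, max i.val i.val + ∑ j ∈ univ.erase i, max i.val j.val
      = ∑ j : Fin r, max i.val j.val :=
    fun i => Finset.add_sum_erase univ (fun j : Fin r => max i.val j.val) (Finset.mem_univ _)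
  have h3 : ∑ i : Fin r, max i.val i.val < ∑ i : Fin r, max i.val (w i).val := by
    have : ∃ i, i.val < (w i).val := by
      by_contra hcon
      push Not at hcon
      exact hw (perm_le_eq_one w hcon)
    obtain ⟨i, hi⟩ := this
    refine Finset.sum_lt_sum (fun i _ => ?_) ⟨i, Finset.mem_univ i, ?_⟩
    · rw [max_self]; exact le_max_left _ _
    · rw [max_self]; exact lt_max_of_lt_right hi
  have h4 : ∑ i : Fin r, max i.val (w i).val + ∑ i : Fin r, ∑ j ∈ univ.erase (w i), max i.val j.val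
      = ∑ i : Fin r, max i.val i.val + ∑ i : Fin r, ∑ j ∈ univ.erase i, max i.val j.val := by
    rw [← Finset.sum_add_distrib, ← Finset.sum_add_distrib]
    refine Finset.sum_congr rfl fun i _ => ?_
    rw [h1, h2]
  omega

/-- the polynomial with twisted coefficients -/
noncomputable def Tw (B : ℕ) (c : (Fin r ⊕ Fin r → ℕ) → ℚ) (w : Equiv.Perm (Fin r)) :
    MvPolynomial (Fin r ⊕ Fin r) ℚ :=
  ∑ d ∈ Fintype.piFinset (fun _ : Fin r ⊕ Fin r => range B),
    MvPolynomial.monomial (Finsupp.equivFunOnFinite.symm d)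
      ((∏ i, ((d (Sum.inl i) + d (Sum.inr (w i)) : ℕ) : ℚ)) * c d)

lemma Tw_coeff (B : ℕ) (c : (Fin r ⊕ Fin r → ℕ) → ℚ) (w : Equiv.Perm (Fin r)) (e : Fin r ⊕ Fin r →₀ ℕ) :
    (Tw B c w).coeff e = if (∀ s, e s < B) then
      (∏ i, ((e (Sum.inl i) + e (Sum.inr (w i)) : ℕ) : ℚ)) * c e else 0 := by
  unfold Tw
  rw [MvPolynomial.coeff_sum]
  have h1 : ∀ d : Fin r ⊕ Fin r → ℕ, MvPolynomial.coeff e
      (MvPolynomial.monomial (Finsupp.equivFunOnFinite.symm d)
      ((∏ i, ((d (Sum.inl i) + d (Sum.inr (w i)) : ℕ) : ℚ)) * c d))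
      = if d = ⇑e then (∏ i, ((d (Sum.inl i) + d (Sum.inr (w i)) : ℕ) : ℚ)) * c d else 0 := by
    intro d
    rw [MvPolynomial.coeff_monomial]
    by_cases h : d = ⇑e
    · rw [if_pos h, if_pos]
      rw [h]
      exact Finsupp.equivFunOnFinite_symm_coe e
    · rw [if_neg h, if_neg]
      intro h2
      apply h
      rw [← h2]
      rfl
  rw [Finset.sum_congr rfl fun d _ => h1 d, Finset.sum_ite_eq']
  by_cases h : ∀ s, e s < B
  · rw [if_pos h, if_pos]
    rw [Fintype.mem_piFinset]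
    exact fun s => Finset.mem_range.mpr (h s)
  · rw [if_neg h, if_neg]
    rw [Fintype.mem_piFinset]
    exact fun h2 => h fun s => Finset.mem_range.mp (h2 s)

theorem poly_core (B : ℕ) (c : (Fin r ⊕ Fin r → ℕ) → ℚ)
    (hc : ∀ d, (∃ i, d (Sum.inl i) = 0 ∧ d (Sum.inr i) = 0) → c d = 0)
    (h : ∑ w : Equiv.Perm (Fin r), MvPolynomial.C ((Equiv.Perm.sign w : ℤ) : ℚ) * Pw w * Tw B c w = 0)
    (d : Fin r ⊕ Fin r → ℕ) (hd : ∀ s, d s < B) : c d = 0 := by
  classical
  by_contra hcd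
  have hT1 : Tw B c 1 ≠ 0 := by
    intro h0
    have h1 := Tw_coeff B c 1 (Finsupp.equivFunOnFinite.symm d)
    rw [h0, MvPolynomial.coeff_zero,
      if_pos (show ∀ s, (Finsupp.equivFunOnFinite.symm d) s < B from hd)] at h1
    rcases mul_eq_zero.mp h1.symm with h2 | h2
    · obtain ⟨i, -, hi⟩ := Finset.prod_eq_zero_iff.mp h2
      have h3 : d (Sum.inl i) + d (Sum.inr i) = 0 := by exact_mod_cast hi
      exact hcd (hc d ⟨i, by omega, by omega⟩)
    · exact hcd h2
  have hP1 : Phi r (Tw B c 1) ≠ 0 := by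
    intro h0
    apply hT1
    ext e
    have h1 := Phi_coeff (Tw B c 1) (∑ s, e s * wt s) e
    rw [h0, coeff_zero, MvPolynomial.coeff_zero, if_pos rfl] at h1
    rw [← h1, MvPolynomial.coeff_zero]
  set N := (Phi r (Tw B c 1)).natDegree with hN
  have hTN : ∀ w : Equiv.Perm (Fin r), (Phi r (Tw B c w)).natDegree ≤ N := by
    intro w
    rw [natDegree_le_iff_coeff_eq_zero]
    intro n hn
    ext e
    rw [Phi_coeff, MvPolynomial.coeff_zero]
    split_ifs with h1
    · have h2 := Phi_coeff (Tw B c 1) n e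
      rw [coeff_eq_zero_of_natDegree_lt hn, if_pos h1, MvPolynomial.coeff_zero, Tw_coeff] at h2
      rw [Tw_coeff]
      split_ifs at h2 ⊢ with h3
      · rcases mul_eq_zero.mp h2.symm with h4 | h4
        · obtain ⟨i, -, hi⟩ := Finset.prod_eq_zero_iff.mp h4
          have h5 : e (Sum.inl i) + e (Sum.inr i) = 0 := by exact_mod_cast hi
          rw [hc e ⟨i, by omega, by omega⟩, mul_zero]
        · rw [h4, mul_zero]
      · rfl
    · rfl
  have h1 := congrArg (Phi r) h
  rw [map_sum, map_zero, ← Finset.add_sum_erase univ _ (Finset.mem_univ (1 : Equiv.Perm (Fin r)))] at h1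
  obtain ⟨D, hD⟩ : ∃ D, D = ∑ i : Fin r, ∑ j ∈ univ.erase i, max i.val j.val := ⟨_, rfl⟩
  have h2 := congrArg (fun p => p.coeff (D + N)) h1
  simp only [coeff_add, coeff_zero] at h2
  have h6 : (∑ w ∈ univ.erase (1 : Equiv.Perm (Fin r)),
      Phi r (MvPolynomial.C ((Equiv.Perm.sign w : ℤ) : ℚ) * Pw w * Tw B c w)).coeff (D + N) = 0 := by
    rw [finsetSum_coeff]
    refine Finset.sum_eq_zero fun w hw => ?_
    apply coeff_eq_zero_of_natDegree_lt
    rw [map_mul, map_mul]
    have h3 : Phi r (MvPolynomial.C ((Equiv.Perm.sign w : ℤ) : ℚ))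
        = C (MvPolynomial.C ((Equiv.Perm.sign w : ℤ) : ℚ)) := by
      unfold Phi
      rw [MvPolynomial.aeval_C]
      rfl
    rw [h3, mul_assoc]
    refine (natDegree_C_mul_le _ _).trans_lt (natDegree_mul_le.trans_lt ?_)
    have := weight_lt w (Finset.ne_of_mem_erase hw)
    have h4 := Phi_Pw_le w
    have h5 := hTN w
    omega
  rw [h6, add_zero, map_mul, map_mul] at h2
  have h3 : Phi r (MvPolynomial.C ((Equiv.Perm.sign (1 : Equiv.Perm (Fin r)) : ℤ) : ℚ)) = 1 := by
    rw [Equiv.Perm.sign_one]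
    simp
  rw [h3, one_mul, hD, ← Phi_Pw_one.1, hN, ← natDegree_mul Phi_Pw_one.2 hP1, coeff_natDegree,
    leadingCoeff_eq_zero] at h2
  exact (mul_ne_zero Phi_Pw_one.2 hP1) h2

end

end Pool.Agent.Lib.RT
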