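import Pool.Agent.Lib.MP_e87f44_co.SThreeC

set_option autoImplicit false

namespace Pool.Agent.Lib.RT

open Finset Polynomial

section

variable {S : Type*} [CommRing S] [Algebra ℚ S] {k r M : ℕ} (z : Fin k → S)

omit [Algebra ℚ S] in
lemma natDegree_HH_lt : (HH M z).natDegree < k * M + k + 1 := by
  unfold HH
  have h1 : ∀ t : Fin k, (∑ b ∈ range (M + 1), (C (z t) * X : S[X]) ^ b).natDegree ≤ M := by
    intro t
    refine natDegree_sum_le_of_forall_le _ _ fun b hb => ?_
    rw [mul_pow, ← C_pow]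
    refine (natDegree_C_mul_X_pow_le _ _).trans ?_
    have := Finset.mem_range.mp hb
    omega
  have h2 := natDegree_prod_le univ (fun t : Fin k => ∑ b ∈ range (M + 1), (C (z t) * X : S[X]) ^ b)
  have h3 : ∑ t : Fin k, (∑ b ∈ range (M + 1), (C (z t) * X : S[X]) ^ b).natDegree ≤ ∑ t : Fin k, M :=
    Finset.sum_le_sum fun t _ => h1 t
  rw [Finset.sum_const, Finset.card_univ, Fintype.card_fin, smul_eq_mul] at h3
  omega

omit [Algebra ℚ S] in
lemma natDegree_EE_lt : (EE z).natDegree < k * M + k + 1 := by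
  unfold EE
  have h1 : ∀ t : Fin k, (1 + C (z t) * X : S[X]).natDegree ≤ 1 := by
    intro t
    refine (natDegree_add_le _ _).trans ?_
    simp only [natDegree_one, sup_le_iff, zero_le, true_and]
    exact (natDegree_C_mul_le _ _).trans natDegree_X_le
  have h2 := natDegree_prod_le univ (fun t : Fin k => (1 + C (z t) * X : S[X]))
  have h3 : ∑ t : Fin k, (1 + C (z t) * X : S[X]).natDegree ≤ ∑ t : Fin k, 1 :=
    Finset.sum_le_sum fun t _ => h1 t
  rw [Finset.sum_const, Finset.card_univ, Fintype.card_fin, smul_eq_mul, mul_one] at h3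
  have : 0 ≤ k * M := Nat.zero_le _
  omega

/-- the coefficient function -/
noncomputable def cf (M : ℕ) (z : Fin k → S) (ψ : S →ₗ[ℚ] ℚ) (d : Fin r ⊕ Fin r → ℕ) : ℚ :=
  ψ ((∏ i, (HH M z).coeff (d (Sum.inl i))) * ∏ j, (EE z).coeff (d (Sum.inr j)))

lemma eval_Tw (ψ : S →ₗ[ℚ] ℚ) (u v : Fin r → ℚ) (w : Equiv.Perm (Fin r)) :
    MvPolynomial.eval (Sum.elim u v) (Tw (k * M + k + 1) (cf M z ψ) w)
      = ψ (∏ i, ((theta (HH M z)).eval (algebraMap ℚ S (u i)) * (EE z).eval (algebraMap ℚ S (v (w i)))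
        + (HH M z).eval (algebraMap ℚ S (u i)) * (theta (EE z)).eval (algebraMap ℚ S (v (w i))))) := by
  have h1 : ∀ i, ((theta (HH M z)).eval (algebraMap ℚ S (u i)) * (EE z).eval (algebraMap ℚ S (v (w i)))
        + (HH M z).eval (algebraMap ℚ S (u i)) * (theta (EE z)).eval (algebraMap ℚ S (v (w i))))
      = ∑ p ∈ range (k * M + k + 1) ×ˢ range (k * M + k + 1),
        ((p.1 + p.2 : ℕ) : S) * ((HH M z).coeff p.1 * (EE z).coeff p.2) *
          (algebraMap ℚ S (u i) ^ p.1 * algebraMap ℚ S (v (w i)) ^ p.2) :=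
    fun i => theta_sum _ _ _ (natDegree_HH_lt z) (natDegree_EE_lt z) _ _
  rw [Finset.prod_congr rfl fun i _ => h1 i, Finset.prod_univ_sum, map_sum]
  unfold Tw
  rw [map_sum]
  symm
  refine Finset.sum_nbij' (fun x => Sum.elim (fun i => (x i).1) (fun j => (x (w⁻¹ j)).2))
    (fun d i => (d (Sum.inl i), d (Sum.inr (w i)))) ?_ ?_ ?_ ?_ ?_
  · intro x hx
    rw [Fintype.mem_piFinset] at hx ⊢
    rintro (i | j)
    · exact (Finset.mem_product.mp (hx i)).1
    · exact (Finset.mem_product.mp (hx (w⁻¹ j))).2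
  · intro d hd
    rw [Fintype.mem_piFinset] at hd ⊢
    intro i
    exact Finset.mem_product.mpr ⟨hd _, hd _⟩
  · intro x _
    ext i
    · rfl
    · simp
  · intro d _
    ext (i | j)
    · rfl
    · simp
  · intro x _
    rw [MvPolynomial.eval_monomial, Finsupp.prod_fintype _ _ (fun s => pow_zero _), Fintype.prod_sum_type]
    have hw : ∀ i, w⁻¹ (w i) = i := fun i => w.symm_apply_apply i
    simp only [Finsupp.equivFunOnFinite_symm_apply_apply, Sum.elim_inl, Sum.elim_inr, hw]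
    have h2 : ∏ j, v j ^ (x (w⁻¹ j)).2 = ∏ i, v (w i) ^ (x i).2 := by
      rw [← Equiv.prod_comp w]
      refine Finset.prod_congr rfl fun i _ => ?_
      rw [hw]
    have h3 : cf M z ψ (Sum.elim (fun i => (x i).1) fun j => (x (w⁻¹ j)).2)
        = ψ ((∏ i, (HH M z).coeff (x i).1) * ∏ i, (EE z).coeff (x i).2) := by
      unfold cf
      simp only [Sum.elim_inl, Sum.elim_inr]
      rw [Equiv.prod_comp w⁻¹ (fun j => (EE z).coeff (x j).2)]
    rw [h2, h3]
    have h4 : ∏ i, (((x i).1 + (x i).2 : ℕ) : S) * ((HH M z).coeff (x i).1 * (EE z).coeff (x i).2) *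
          (algebraMap ℚ S (u i) ^ (x i).1 * algebraMap ℚ S (v (w i)) ^ (x i).2)
        = algebraMap ℚ S ((∏ i, (((x i).1 + (x i).2 : ℕ) : ℚ)) *
            ((∏ i, u i ^ (x i).1) * ∏ i, v (w i) ^ (x i).2)) *
          ((∏ i, (HH M z).coeff (x i).1) * ∏ i, (EE z).coeff (x i).2) := by
      rw [map_mul, map_mul, map_prod, map_prod, map_prod, ← Finset.prod_mul_distrib,
        ← Finset.prod_mul_distrib, ← Finset.prod_mul_distrib, ← Finset.prod_mul_distrib]
      refine Finset.prod_congr rfl fun i _ => ?_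
      rw [map_natCast, map_pow, map_pow]
      ring
    rw [h4, ← Algebra.smul_def, map_smul, smul_eq_mul]
    ring

/-- **Straightening**: the abstract form. -/
theorem S3 (hz : ∀ t, z t ^ (M + 1) = 0) (ψ : S →ₗ[ℚ] ℚ)
    (ha : ∀ d : Fin r ⊕ Fin r → ℕ, (∃ i, d (Sum.inl i) = 0 ∧ d (Sum.inr i) = 0) → cf M z ψ d = 0)
    (hb : ∀ (u v : Fin r → ℚ) (A : Fin r → ℚ[X]),
      ψ ((∏ i, (HH M z).eval (algebraMap ℚ S (u i))) * (∏ j, (EE z).eval (algebraMap ℚ S (v j))) *
        (Matrix.of fun i j : Fin r => ∑ t, z t ^ (i.val + 1) * aeval (z t) (A j)).det) = 0)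
    (d : Fin r ⊕ Fin r → ℕ) : cf M z ψ d = 0 := by
  by_cases hd : ∀ s, d s < k * M + k + 1
  · refine poly_core (k * M + k + 1) (cf M z ψ) ha ?_ d hd
    apply MvPolynomial.funext
    intro x
    have hx : x = Sum.elim (fun i => x (Sum.inl i)) (fun i => x (Sum.inr i)) := by
      ext (i | i) <;> rfl
    rw [hx]
    generalize (fun i => x (Sum.inl i)) = u
    generalize (fun i => x (Sum.inr i)) = v
    rw [map_sum, map_zero]
    have h1 := numeric_identity z hz ψ hb u v
    rw [← h1]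
    refine Finset.sum_congr rfl fun w _ => ?_
    rw [map_mul, map_mul, MvPolynomial.eval_C, eval_Tw]
    congr 2
    unfold Pw
    rw [map_prod]
    refine Finset.prod_congr rfl fun i _ => ?_
    rw [map_prod]
    refine Finset.prod_congr rfl fun j _ => ?_
    rw [map_add, MvPolynomial.eval_X, MvPolynomial.eval_X]
    rfl
  · push Not at hd
    obtain ⟨s, hs⟩ := hd
    unfold cf
    rcases s with i | i
    · rw [Finset.prod_eq_zero (Finset.mem_univ i)
        (coeff_eq_zero_of_natDegree_lt ((natDegree_HH_lt z).trans_le hs)), zero_mul, map_zero]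
    · rw [Finset.prod_eq_zero (f := fun j => (EE z).coeff (d (Sum.inr j))) (Finset.mem_univ i)
        (coeff_eq_zero_of_natDegree_lt ((natDegree_EE_lt z).trans_le hs)), mul_zero, map_zero]

end

end Pool.Agent.Lib.RT
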