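import Pool.Agent.Lib.MP_e87f44_co.Mon

set_option autoImplicit false

namespace Pool.Agent.Lib.RT

open Finset

section

variable {k : ℕ}

/-- substitution of elementary symmetric polynomials -/
noncomputable def eps (k : ℕ) : MvPolynomial (Fin k) ℚ →ₐ[ℚ] MvPolynomial (Fin k) ℚ :=
  MvPolynomial.aeval (fun i : Fin k => es univ (i.val + 1))

lemma es_isSymmetric (n : ℕ) : (es (univ : Finset (Fin k)) n).IsSymmetric := by
  rw [es_univ]
  exact MvPolynomial.esymm_isSymmetric _ _ _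

lemma eps_eq (q : MvPolynomial (Fin k) ℚ) :
    eps k q = (MvPolynomial.esymmAlgHom (Fin k) ℚ k q).val := by
  rw [MvPolynomial.esymmAlgHom_apply]
  rfl

lemma eps_isSymmetric (q : MvPolynomial (Fin k) ℚ) : (eps k q).IsSymmetric := by
  rw [eps_eq]
  exact (MvPolynomial.esymmAlgHom (Fin k) ℚ k q).2

lemma eps_injective : Function.Injective (eps k) := by
  intro a b h
  rw [eps_eq, eps_eq] at h
  exact MvPolynomial.esymmAlgHom_injective ℚ (by simp) (Subtype.ext h)

lemma exists_eps {g : MvPolynomial (Fin k) ℚ} (hg : g.IsSymmetric) : ∃ q, eps k q = g := by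
  obtain ⟨q, hq⟩ := MvPolynomial.esymmAlgHom_surjective (σ := Fin k) ℚ (n := k) (by simp) ⟨g, hg⟩
  refine ⟨q, ?_⟩
  rw [eps_eq, hq]

lemma eps_mem_adjoin (q : MvPolynomial (Fin k) ℚ) :
    eps k q ∈ Algebra.adjoin ℚ (Set.range fun i : Fin k => es (univ : Finset (Fin k)) (i.val + 1)) := by
  rw [Algebra.adjoin_range_eq_range_aeval]
  exact ⟨q, rfl⟩

lemma sym_mem_GG {g : MvPolynomial (Fin k) ℚ} (hg : g.IsSymmetric) : g ∈ GG k k := by
  obtain ⟨q, rfl⟩ := exists_eps hg
  have h := eps_mem_adjoin q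
  have h2 : Algebra.adjoin ℚ (Set.range fun i : Fin k => es (univ : Finset (Fin k)) (i.val + 1))
      ≤ GG k k := by
    rw [Algebra.adjoin_le_iff]
    rintro _ ⟨i, rfl⟩
    exact GG_mono (by have := i.isLt; omega) (es_mem_GG (i.val + 1))
  exact h2 h

lemma prod_aeval_isSymmetric (F : Polynomial ℚ) :
    (∏ t, Polynomial.aeval (MvPolynomial.X t : MvPolynomial (Fin k) ℚ) F).IsSymmetric := by
  intro e
  rw [map_prod, ← Equiv.prod_comp e fun t =>
    Polynomial.aeval (MvPolynomial.X t : MvPolynomial (Fin k) ℚ) F]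
  refine Finset.prod_congr rfl fun t _ => ?_
  rw [← Polynomial.aeval_algHom_apply, MvPolynomial.rename_X]

lemma prod_isSymmetric {ι : Type*} (s : Finset ι) (F : ι → MvPolynomial (Fin k) ℚ)
    (h : ∀ i ∈ s, (F i).IsSymmetric) : (∏ i ∈ s, F i).IsSymmetric :=
  (MvPolynomial.mem_symmetricSubalgebra _).mp
    (Subalgebra.prod_mem _ fun i hi => (MvPolynomial.mem_symmetricSubalgebra _).mpr (h i hi))

lemma sum_isSymmetric {ι : Type*} (s : Finset ι) (F : ι → MvPolynomial (Fin k) ℚ)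
    (h : ∀ i ∈ s, (F i).IsSymmetric) : (∑ i ∈ s, F i).IsSymmetric :=
  (MvPolynomial.mem_symmetricSubalgebra _).mp
    (Subalgebra.sum_mem _ fun i hi => (MvPolynomial.mem_symmetricSubalgebra _).mpr (h i hi))

lemma Mx_isSymmetric {r : ℕ} (A : Fin r → Polynomial ℚ) (j i : Fin r) : (Mx k A j i).IsSymmetric := by
  intro e
  unfold Mx
  rw [map_sum, ← Equiv.sum_comp e fun t => (MvPolynomial.X t : MvPolynomial (Fin k) ℚ) ^ (i.val + 1) *
    Polynomial.aeval (MvPolynomial.X t : MvPolynomial (Fin k) ℚ) (A j)]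
  refine Finset.sum_congr rfl fun t _ => ?_
  rw [map_mul, map_pow, ← Polynomial.aeval_algHom_apply, MvPolynomial.rename_X]

lemma det_Mx_isSymmetric {r : ℕ} (A : Fin r → Polynomial ℚ) : (Mx k A).det.IsSymmetric := by
  intro e
  rw [AlgHom.map_det]
  congr 1
  ext1 j i
  exact Mx_isSymmetric A j i e

lemma EE_coeff (n : ℕ) : (EE (MvPolynomial.X : Fin k → MvPolynomial (Fin k) ℚ)).coeff n = es univ n := by
  unfold EE es
  have h1 : ∑ S ∈ (univ : Finset (Fin k)).powerset with ¬ S.card = n,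
      (∏ i ∈ S, Polynomial.C (MvPolynomial.X i : MvPolynomial (Fin k) ℚ) * Polynomial.X).coeff n = 0 := by
    refine Finset.sum_eq_zero fun S hS => ?_
    rw [Finset.mem_filter] at hS
    rw [Finset.prod_mul_distrib, Finset.prod_const, ← map_prod, Polynomial.coeff_C_mul,
      Polynomial.coeff_X_pow, if_neg (Ne.symm hS.2), mul_zero]
  rw [Finset.prod_one_add, Polynomial.finsetSum_coeff, ← Finset.sum_filter_add_sum_filter_not univ.powerset
    (fun S => S.card = n), ← Finset.powersetCard_eq_filter, h1, add_zero]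
  refine Finset.sum_congr rfl fun S hS => ?_
  rw [Finset.mem_powersetCard] at hS
  rw [Finset.prod_mul_distrib, Finset.prod_const, ← map_prod, Polynomial.coeff_C_mul,
    Polynomial.coeff_X_pow, if_pos hS.2.symm, mul_one]

lemma EE_coeff_zero {S : Type*} [CommRing S] (z : Fin k → S) : (EE z).coeff 0 = 1 := by
  rw [Polynomial.coeff_zero_eq_eval_zero, EE_eval]
  simp

lemma HH_coeff_zero {S : Type*} [CommRing S] (M : ℕ) (z : Fin k → S) : (HH M z).coeff 0 = 1 := by
  rw [Polynomial.coeff_zero_eq_eval_zero, HH_eval]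
  refine Finset.prod_eq_one fun t _ => ?_
  unfold gam
  rw [zero_mul, Finset.sum_range_succ']
  simp

/-- the ideal of polynomials without monomials below `N` -/
def Jd (k N : ℕ) : Ideal (MvPolynomial (Fin k) ℚ) where
  carrier := {g | ∀ a : Fin k →₀ ℕ, (∀ t, a t < N) → MvPolynomial.coeff a g = 0}
  add_mem' := by
    intro a b ha hb c hc
    rw [MvPolynomial.coeff_add, ha c hc, hb c hc, add_zero]
  zero_mem' := by
    intro c _
    exact MvPolynomial.coeff_zero _
  smul_mem' := by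
    classical
    intro g x hx c hc
    rw [smul_eq_mul, MvPolynomial.coeff_mul]
    refine Finset.sum_eq_zero fun y hy => ?_
    rw [Finset.HasAntidiagonal.mem_antidiagonal] at hy
    rw [hx y.2, mul_zero]
    intro t
    have := hc t
    rw [← hy, Finsupp.add_apply] at this
    omega

lemma mem_Jd {N : ℕ} {g : MvPolynomial (Fin k) ℚ} : g ∈ Jd k N ↔
    ∀ a : Fin k →₀ ℕ, (∀ t, a t < N) → MvPolynomial.coeff a g = 0 := Iff.rfl

lemma X_pow_mem_Jd (N : ℕ) (t : Fin k) : (MvPolynomial.X t : MvPolynomial (Fin k) ℚ) ^ N ∈ Jd k N := by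
  classical
  intro a ha
  rw [MvPolynomial.coeff_X_pow, if_neg]
  intro h
  have := ha t
  rw [← h, Finsupp.single_eq_same] at this
  exact lt_irrefl _ this

lemma L_Jd {M : ℕ} {g : MvPolynomial (Fin k) ℚ} (hg : g ∈ Jd k (M + 1)) : L k M g = 0 :=
  hg _ fun _ => Nat.lt_succ_self _

lemma exists_desc (J : Ideal (MvPolynomial (Fin k) ℚ)) (Λ : MvPolynomial (Fin k) ℚ →ₗ[ℚ] ℚ)
    (h : ∀ g ∈ J, Λ g = 0) :
    ∃ ψ : (MvPolynomial (Fin k) ℚ ⧸ J) →ₗ[ℚ] ℚ, ∀ g, ψ (Ideal.Quotient.mkₐ ℚ J g) = Λ g := by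
  have h1 : J.restrictScalars ℚ ≤ LinearMap.ker Λ := fun g hg => h g hg
  refine ⟨((J.restrictScalars ℚ).liftQ Λ h1) ∘ₗ (Submodule.Quotient.restrictScalarsEquiv ℚ J).symm.toLinearMap,
    fun g => ?_⟩
  rfl

lemma L_rename (M : ℕ) (e : Equiv.Perm (Fin k)) (F : MvPolynomial (Fin k) ℚ) :
    L k M (MvPolynomial.rename e F) = L k M F := by
  rw [L_apply, L_apply, ← MvPolynomial.coeff_rename_mapDomain e e.injective F (cst k M)]
  congr 1
  ext t
  rw [Finsupp.mapDomain_equiv_apply, cst_apply, cst_apply]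

lemma vd_eq : vd k = (Matrix.vandermonde (MvPolynomial.X : Fin k → MvPolynomial (Fin k) ℚ)).det := by
  rw [Matrix.det_vandermonde]
  rfl

lemma rename_vd (e : Equiv.Perm (Fin k)) :
    MvPolynomial.rename e (vd k) = ((Equiv.Perm.sign e : ℤ) : MvPolynomial (Fin k) ℚ) * vd k := by
  rw [vd_eq, AlgHom.map_det, ← Matrix.det_permute]
  congr 1
  ext1 i j
  simp [Matrix.vandermonde_apply]

lemma rename_vd_sq (e : Equiv.Perm (Fin k)) :
    MvPolynomial.rename e (vd k ^ 2) = vd k ^ 2 := by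
  rw [map_pow, rename_vd, mul_pow]
  rcases Int.units_eq_one_or (Equiv.Perm.sign e) with h | h
  · rw [h]; simp
  · rw [h]; simp

end

end Pool.Agent.Lib.RT
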